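import Pool.Agent.TH107.Dual

set_option autoImplicit false

namespace Pool.Agent.TH107

open Pool.Agent.Helper741 CoxeterSystem

section altlemma
variable {G : Type*} [Group G]

/-- braid relation from a dual sequence -/
lemma alt_of_seq (x : ℕ → G) (V : G) (hx : ∀ k, x k * x (k + 1) = V) (m : ℕ)
    (h0 : x m = x 0) (h1 : x (m + 1) = x 1) : alt (x 0) (x 1) m = alt (x 1) (x 0) m := by
  have hab : x 0 * x 1 = V := hx 0
  have step : ∀ k, x (k + 2) = V⁻¹ * x k * V := by
    intro k
    have e1 : x (k + 1) = (x k)⁻¹ * V := by rw [← hx k]; group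
    have e2 : x (k + 2) = (x (k + 1))⁻¹ * V := by rw [← hx (k + 1)]; group
    rw [e2, e1]; group
  have ev : ∀ h, x (2 * h) = (V ^ h)⁻¹ * x 0 * V ^ h := by
    intro h
    induction h with
    | zero => simp
    | succ h ih =>
      have e : 2 * (h + 1) = 2 * h + 2 := by ring
      rw [e, step, ih, pow_succ]; group
  have od : ∀ h, x (2 * h + 1) = (V ^ h)⁻¹ * x 1 * V ^ h := by
    intro h
    induction h with
    | zero => simp
    | succ h ih =>
      have e : 2 * (h + 1) + 1 = 2 * h + 1 + 2 := by ring
      rw [e, step, ih, pow_succ]; group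
  have hba : ∀ h : ℕ, (x 1 * x 0) ^ h = x 1 * V ^ h * (x 1)⁻¹ := by
    intro h
    have e : x 1 * x 0 = x 1 * V * (x 1)⁻¹ := by rw [← hab]; group
    rw [e, conj_pow]
  rcases Nat.even_or_odd' m with ⟨h, rfl | rfl⟩
  · rw [alt_mul_two, alt_mul_two, hab, hba]
    rw [od h] at h1
    have : V ^ h * x 1 = x 1 * V ^ h := by
      calc V ^ h * x 1 = V ^ h * ((V ^ h)⁻¹ * x 1 * V ^ h) := by rw [h1]
        _ = _ := by group
    rw [← this]; group
  · rw [alt_mul_two_add_one, alt_mul_two_add_one, hab, hba]
    rw [od h] at h0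
    rw [← h0]; group

end altlemma

variable {B : Type*} {M : CoxeterMatrix B} [Fintype B] [DecidableEq B]
variable {W : Type*} [Group W] (cs : CoxeterSystem M W)

/-- absolute order in the form used by the statement -/
def IsLe (leT : W → W → Prop) : Prop := ∀ a c : W, leT a c ↔
  ∃ l₁ l₂ : List W, (∀ t ∈ l₁ ++ l₂, cs.IsReflection t) ∧ l₁.prod = a ∧ (l₁ ++ l₂).prod = c ∧
    ∀ l : List W, (∀ t ∈ l, cs.IsReflection t) → l.prod = c → (l₁ ++ l₂).length ≤ l.length

/-- relators of the interval group -/
def Rels (leT : W → W → Prop) (w : W) : Set (FreeGroup W) :=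
  {r : FreeGroup W | ∃ a c : W, leT a c ∧ leT c w ∧
    r = FreeGroup.of a * FreeGroup.of (a⁻¹ * c) * (FreeGroup.of c)⁻¹} ∪
  {r : FreeGroup W | ∃ u : W, ¬ leT u w ∧ r = FreeGroup.of u}

variable {cs}

section
variable {leT : W → W → Prop} (hle : IsLe cs leT) {l : List B} (hl : l.Nodup)
include hle hl

lemma le_of_fac {A C : List W} (h : Fac cs l (A ++ C)) : leT A.prod (cs.wordProd l) := by
  rw [hle]
  refine ⟨A, C, h.1, rfl, h.2.1, ?_⟩
  intro l' h1 h2
  have := (hurH l.length l rfl hl l' h1 h2).1
  rw [h.2.2]; exact this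

lemma fac_of_le {u : W} (h : leT u (cs.wordProd l)) :
    ∃ A C, Fac cs l (A ++ C) ∧ A.prod = u := by
  rw [hle] at h
  obtain ⟨A, C, h1, h2, h3, h4⟩ := h
  refine ⟨A, C, ⟨h1, h3, ?_⟩, h2⟩
  have h5 := h4 (l.map cs.simple) (simple_refls l) rfl
  have h6 := (hurH l.length l rfl hl (A ++ C) h1 h3).1
  rw [List.length_map] at h5
  omega

lemma le_of_fac' {A C D : List W} (h : Fac cs l (A ++ C ++ D)) : leT A.prod (A ++ C).prod := by
  rw [hle]
  refine ⟨A, C, fun t ht => h.1 t (by
    simp only [List.mem_append] at ht ⊢; tauto), rfl, rfl, ?_⟩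
  intro l' h1 h2
  exact h.le_length hl h1 h2

lemma fac_of_le' {a c : W} (h : leT a c) (hc : leT c (cs.wordProd l)) :
    ∃ A C D, Fac cs l (A ++ C ++ D) ∧ A.prod = a ∧ (A ++ C).prod = c := by
  obtain ⟨E, D, h1, h2⟩ := fac_of_le hle hl hc
  rw [hle] at h
  obtain ⟨A, C, h3, h4, h5, h6⟩ := h
  refine ⟨A, C, D, h1.replace hl h3 (by rw [h5, h2]) ?_, h4, h5⟩
  exact h6 E (fun t ht => h1.1 t (by simp [ht])) h2

/-- the generators of the interval group -/
def qq (leT : W → W → Prop) (w : W) (u : W) : PresentedGroup (Rels leT w) := PresentedGroup.of u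

omit hle hl in
lemma qq_rel {w a c : W} (h1 : leT a c) (h2 : leT c w) :
    qq leT w a * qq leT w (a⁻¹ * c) = qq leT w c := by
  have h : (PresentedGroup.mk (Rels leT w))
      (FreeGroup.of a * FreeGroup.of (a⁻¹ * c) * (FreeGroup.of c)⁻¹) = 1 := by
    apply PresentedGroup.one_of_mem
    left
    exact ⟨a, c, h1, h2, rfl⟩
  rw [map_mul, map_inv, mul_inv_eq_one, map_mul] at h
  exact h

omit hle hl in
lemma qq_not {w u : W} (h1 : ¬ leT u w) : qq leT w u = 1 := by
  have h : (PresentedGroup.mk (Rels leT w)) (FreeGroup.of u) = 1 := by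
    apply PresentedGroup.one_of_mem
    right
    exact ⟨u, h1, rfl⟩
  exact h

lemma qq_prod (A : List W) : ∀ D : List W, Fac cs l (A ++ D) →
    (A.map (qq leT (cs.wordProd l))).prod = qq leT (cs.wordProd l) A.prod := by
  induction A using List.reverseRecOn with
  | nil =>
    intro D h
    have h1 : leT (1 : W) 1 := by
      have := le_of_fac' hle hl (A := []) (C := []) (D := D) (by simpa using h)
      simpa using this
    have h2 : leT (1 : W) (cs.wordProd l) := by
      have := le_of_fac hle hl (A := []) (C := D) h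
      simpa using this
    have h3 := qq_rel h1 h2
    simp only [inv_one, mul_one] at h3
    simp only [List.map_nil, List.prod_nil]
    exact (mul_eq_left.mp h3).symm
  | append_singleton A t ih =>
    intro D h
    have h0 : Fac cs l (A ++ (t :: D)) := by simpa using h
    have h1 := le_of_fac' hle hl (A := A) (C := [t]) (D := D) h
    have h2 := le_of_fac hle hl h
    have h3 := qq_rel h1 h2
    have e : A.prod⁻¹ * (A ++ [t]).prod = t := by simp
    rw [e] at h3
    rw [List.map_append, List.prod_append, ih _ h0, ← h3]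
    simp

lemma qq_pair {t r : W} {g : List W} (h : Fac cs l (t :: r :: g)) :
    qq leT (cs.wordProd l) t * qq leT (cs.wordProd l) r = qq leT (cs.wordProd l) (t * r) := by
  have := qq_prod hle hl [t, r] g (by simpa using h)
  simpa using this

lemma qq_braid {t r : W} {g : List W} (h : Fac cs l (t :: r :: g)) {m : ℕ}
    (hm : (t * r) ^ m = 1) :
    alt (qq leT (cs.wordProd l) t) (qq leT (cs.wordProd l) r) m =
      alt (qq leT (cs.wordProd l) r) (qq leT (cs.wordProd l) t) m := by
  have ht : cs.IsReflection t := h.1 t (by simp)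
  have hr : cs.IsReflection r := h.1 r (by simp)
  set x : ℕ → PresentedGroup (Rels leT (cs.wordProd l)) := fun k =>
    qq leT (cs.wordProd l) ((t * r) ^ (-(k : ℤ)) * t) with hx
  have e0 : x 0 = qq leT (cs.wordProd l) t := by simp [hx]
  have e1 : x 1 = qq leT (cs.wordProd l) r := by
    simp only [hx, Nat.cast_one]
    rw [zone ht hr]
  rw [← e0, ← e1]
  apply alt_of_seq x (qq leT (cs.wordProd l) (t * r))
  · intro k
    have h1 := h.dihedral k
    have h2 := qq_pair hle hl h1
    have e : ((k + 1 : ℕ) : ℤ) = (k : ℤ) + 1 := by push_cast; ring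
    simp only [hx]
    rw [e, h2]
    congr 1
    have h3 := inv_conj_zpow ht.mul_self hr.mul_self (-((k : ℤ) + 1))
    calc (t * r) ^ (-(k : ℤ)) * t * ((t * r) ^ (-((k : ℤ) + 1)) * t)
        = (t * r) ^ (-(k : ℤ)) * (t * (t * r) ^ (-((k : ℤ) + 1))) * t := by simp only [mul_assoc]
      _ = (t * r) ^ (-(k : ℤ)) * (t * r) ^ (- -((k : ℤ) + 1)) * (t * t) := by
        rw [h3]; simp only [mul_assoc]
      _ = t * r := by
        rw [ht.mul_self, mul_one, ← zpow_add]
        have : -(k : ℤ) + - -((k : ℤ) + 1) = 1 := by ring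
        rw [this, zpow_one]
  · simp only [hx]
    have : (t * r) ^ (-(m : ℤ)) = 1 := by rw [zpow_neg, zpow_natCast, hm, inv_one]
    rw [this]; simp
  · simp only [hx]
    have : (t * r) ^ (-((m + 1 : ℕ) : ℤ)) = (t * r) ^ (-((1 : ℕ) : ℤ)) := by
      rw [zpow_neg, zpow_natCast, pow_succ, hm, one_mul]; simp
    rw [this]

lemma fac_simple_pair {i j : B} {A C E : List B} (h : l = A ++ i :: (C ++ j :: E)) :
    ∃ g, Fac cs l (cs.simple i :: cs.simple j :: g) := by
  clear hle
  have h0 : Fac cs l (l.map cs.simple) := ⟨simple_refls l, rfl, by simp⟩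
  have e : l.map cs.simple = A.map cs.simple ++ cs.simple i :: (C.map cs.simple ++
      cs.simple j :: E.map cs.simple) := by rw [h]; simp
  rw [e] at h0
  have h1 : Fac cs l (cs.simple i :: (((A.map cs.simple).map (fun x => (cs.simple i)⁻¹ * x * cs.simple i)
      ++ C.map cs.simple) ++ cs.simple j :: E.map cs.simple)) := by
    apply h0.hur
    have := (hur_move2 (A.map cs.simple) (cs.simple i)).right (C.map cs.simple ++
      cs.simple j :: E.map cs.simple)
    simpa using this
  exact h1.move_second

lemma exists_fac_pair {i j : B} (hij : i ≠ j) (hi : i ∈ l) (hj : j ∈ l) :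
    (∃ g, Fac cs l (cs.simple i :: cs.simple j :: g)) ∨
      (∃ g, Fac cs l (cs.simple j :: cs.simple i :: g)) := by
  obtain ⟨A, C, h1⟩ := List.append_of_mem hi
  rw [h1] at hj
  simp only [List.mem_append, List.mem_cons] at hj
  rcases hj with hj | hj | hj
  · right
    obtain ⟨A1, A2, h2⟩ := List.append_of_mem hj
    apply fac_simple_pair hle hl (A := A1) (C := A2) (E := C)
    rw [h1, h2]; simp
  · exact absurd hj.symm hij
  · left
    obtain ⟨C1, C2, h2⟩ := List.append_of_mem hj
    apply fac_simple_pair hle hl (A := A) (C := C1) (E := C2)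
    rw [h1, h2]

variable (hall : ∀ i, i ∈ l)
include hall

/-- the map from the Artin group to the interval group -/
noncomputable def phi : Artin M →* PresentedGroup (Rels leT (cs.wordProd l)) :=
  Artin.lift (fun i => qq leT (cs.wordProd l) (cs.simple i)) (by
    intro i j
    by_cases hij : i = j
    · subst hij; rfl
    rcases exists_fac_pair hle hl hij (hall i) (hall j) with ⟨g, h⟩ | ⟨g, h⟩
    · exact qq_braid hle hl h (cs.simple_mul_simple_pow i j)
    · refine (qq_braid hle hl h ?_).symm
      rw [M.symmetric]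
      exact cs.simple_mul_simple_pow j i)

lemma phi_gen (i : B) : phi hle hl hall (Artin.gen M i) = qq leT (cs.wordProd l) (cs.simple i) := by
  unfold phi
  rw [Artin.lift_gen]

variable {L : Bil B} (hL : Adapted M L l)
include hL

lemma phi_tl {f f' : List W} (hH : Hur f f') (h : Fac cs l f)
    (hf : ∀ t ∈ f, phi hle hl hall (tl cs L t) = qq leT (cs.wordProd l) t) :
    ∀ t ∈ f', phi hle hl hall (tl cs L t) = qq leT (cs.wordProd l) t := by
  induction hH with
  | refl => exact hf
  | tail h1 h2 ih =>
    have hfac := h.hur h1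
    clear h1 hf h
    have key : ∀ (t r : W) (g : List W), Fac cs l (t :: r :: g) →
        qq leT (cs.wordProd l) t * qq leT (cs.wordProd l) r =
          qq leT (cs.wordProd l) (t * r * t⁻¹) * qq leT (cs.wordProd l) t := by
      intro t r g hg
      have hg2 := hg.hur (hur_fwd t r g)
      rw [qq_pair hle hl hg, qq_pair hle hl hg2]
      congr 1; group
    cases h2 with
    | fwd a b t r =>
      obtain ⟨g, hg⟩ := hfac.front
      have hd := congrArg (phi hle hl hall) (dual_braid hL hg)
      have hk := key t r g hg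
      rw [map_mul, map_mul, ih t (by simp), ih r (by simp)] at hd
      rw [hk] at hd
      have h3 := mul_right_cancel hd
      intro x hx
      simp only [List.mem_append, List.mem_cons] at hx
      rcases hx with hx | rfl | rfl | hx
      · exact ih x (by simp [hx])
      · exact h3.symm
      · exact ih x (by simp)
      · exact ih x (by simp [hx])
    | bwd a b t r =>
      have hf' := hfac.hur (Hur.of_step (HStep.bwd a b t r))
      obtain ⟨g, hg⟩ := hf'.front
      have hd := congrArg (phi hle hl hall) (dual_braid hL hg)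
      have hk := key t r g hg
      rw [map_mul, map_mul, ih t (by simp), ih (t * r * t⁻¹) (by simp), ← hk] at hd
      have h3 := mul_left_cancel hd
      intro x hx
      simp only [List.mem_append, List.mem_cons] at hx
      rcases hx with hx | rfl | rfl | hx
      · exact ih x (by simp [hx])
      · exact ih x (by simp)
      · exact h3
      · exact ih x (by simp [hx])

lemma phi_tl_fac {f : List W} (h : Fac cs l f) :
    ∀ t ∈ f, phi hle hl hall (tl cs L t) = qq leT (cs.wordProd l) t := by
  have h0 : Fac cs l (l.map cs.simple) := ⟨simple_refls l, rfl, by simp⟩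
  apply phi_tl hle hl hall hL (h.to_simple hl).symm h0
  intro t ht
  obtain ⟨i, _, rfl⟩ := List.mem_map.mp ht
  rw [tl_simple hL.sym, phi_gen hle hl hall]

omit hle hl hall hL in
open Classical in
/-- the images of the generators of the interval group -/
noncomputable def TT (cs : CoxeterSystem M W) (L : Bil B) (l : List B) (u : W) : Artin M :=
  if h : ∃ A C, Fac cs l (A ++ C) ∧ A.prod = u then (h.choose.map (tl cs L)).prod else 1

omit hle hl hall in
lemma TT_eq {A C : List W} (h : Fac cs l (A ++ C)) :
    TT cs L l A.prod = (A.map (tl cs L)).prod := by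
  have hex : ∃ A' C', Fac cs l (A' ++ C') ∧ A'.prod = A.prod := ⟨A, C, h, rfl⟩
  rw [TT, dif_pos hex]
  obtain ⟨C', h1, h2⟩ := hex.choose_spec
  exact Fac.split_eq hL h1 h h2

omit hle hall in
lemma TT_rel {A C D : List W} (h : Fac cs l (A ++ C ++ D)) :
    TT cs L l A.prod * TT cs L l C.prod = TT cs L l (A ++ C).prod := by
  clear hl
  rw [TT_eq hL h, TT_eq (A := A) (C := C ++ D) hL (by simpa using h)]
  obtain ⟨A', hA'⟩ := hur_swap A C
  have h1 : Fac cs l (C ++ (A' ++ D)) := by
    apply h.hur
    have := hA'.right D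
    simpa using this
  rw [TT_eq hL h1, List.map_append, List.prod_append]

omit hall in
/-- the map from the interval group to the Artin group -/
noncomputable def psi : PresentedGroup (Rels leT (cs.wordProd l)) →* Artin M :=
  PresentedGroup.toGroup (f := TT cs L l) (by
    rintro r (⟨a, c, h1, h2, rfl⟩ | ⟨u, h1, rfl⟩)
    · obtain ⟨A, C, D, h3, h4, h5⟩ := fac_of_le' hle hl h1 h2
      have h6 : a⁻¹ * c = C.prod := by rw [← h4, ← h5]; simp
      rw [map_mul, map_mul, map_inv, FreeGroup.lift_apply_of, FreeGroup.lift_apply_of,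
        FreeGroup.lift_apply_of, h6, mul_inv_eq_one, ← h5, ← h4]
      exact TT_rel hl hL h3
    · rw [FreeGroup.lift_apply_of, TT, dif_neg]
      rintro ⟨A, C, h2, rfl⟩
      exact h1 (le_of_fac hle hl h2))

omit hall in
lemma psi_qq (u : W) : psi hle hl hL (qq leT (cs.wordProd l) u) = TT cs L l u := by
  unfold psi qq
  exact PresentedGroup.toGroup.of _

/-- the isomorphism -/
theorem iso_exists : Nonempty (Artin M ≃* PresentedGroup (Rels leT (cs.wordProd l))) := by
  refine ⟨MonoidHom.toMulEquiv (phi hle hl hall) (psi hle hl hL) ?_ ?_⟩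
  · apply Artin.hom_ext
    intro i
    rw [MonoidHom.comp_apply, phi_gen, psi_qq, MonoidHom.id_apply]
    have h0 : Fac cs l (l.map cs.simple) := ⟨simple_refls l, rfl, by simp⟩
    obtain ⟨A, C, h1⟩ := List.append_of_mem (hall i)
    have h2 : Fac cs l ([cs.simple i] ++ ((A.map cs.simple).map
        (fun x => (cs.simple i)⁻¹ * x * cs.simple i) ++ C.map cs.simple)) := by
      have e : l.map cs.simple = A.map cs.simple ++ cs.simple i :: C.map cs.simple := by
        conv_lhs => rw [h1]
        simp
      rw [e] at h0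
      apply h0.hur
      have := (hur_move2 (A.map cs.simple) (cs.simple i)).right (C.map cs.simple)
      simpa using this
    have h3 := TT_eq hL h2
    simp only [List.prod_cons, List.prod_nil, mul_one, List.map_cons, List.map_nil] at h3
    rw [h3, tl_simple hL.sym]
  · apply PresentedGroup.ext
    intro u
    change (phi hle hl hall) ((psi hle hl hL) (qq leT (cs.wordProd l) u)) =
      qq leT (cs.wordProd l) u
    rw [psi_qq]
    by_cases h : leT u (cs.wordProd l)
    · obtain ⟨A, C, h1, rfl⟩ := fac_of_le hle hl h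
      rw [TT_eq hL h1, map_list_prod, List.map_map, ← qq_prod hle hl A C h1]
      congr 1
      apply List.map_congr_left
      intro t ht
      exact phi_tl_fac hle hl hall hL h1 t (by simp [ht])
    · rw [qq_not h, TT, dif_neg, map_one]
      rintro ⟨A, C, h2, rfl⟩
      exact h (le_of_fac hle hl h2)

end

/-- the upper triangular half of the bilinear form -/
noncomputable def halfForm (M : CoxeterMatrix B) (o : B → ℕ) : Bil B :=
  Matrix.toLinearMap₂' ℝ (Matrix.of fun i j : B =>
    if i = j then (1 : ℝ) else if o i < o j then -2 * cc M i j else 0)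

lemma halfForm_apply (o : B → ℕ) (x y : B → ℝ) : halfForm M o x y =
    ∑ i, ∑ j, x i * (y j * (if i = j then (1 : ℝ) else if o i < o j then -2 * cc M i j else 0)) := by
  unfold halfForm
  rw [Matrix.toLinearMap₂'_apply]
  rfl

lemma halfForm_sym (o : B → ℕ) (ho : Function.Injective o) : Sym M (halfForm M o) := by
  intro x y
  rw [halfForm_apply, halfForm_apply]
  unfold bil
  simp only [coroot_apply, Finset.mul_sum]
  rw [Finset.sum_comm (f := fun i j => y i * (x j *
    (if i = j then (1 : ℝ) else if o i < o j then -2 * cc M i j else 0)))]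
  rw [← Finset.sum_add_distrib]
  apply Finset.sum_congr rfl
  intro i _
  rw [← Finset.sum_add_distrib]
  apply Finset.sum_congr rfl
  intro j _
  by_cases hij : i = j
  · subst hij
    simp only [if_true, cc_self]; ring
  · have h3 : ¬ j = i := fun h => hij h.symm
    have h1 : o i ≠ o j := fun h => hij (ho h)
    simp only [if_neg hij, if_neg h3]
    rcases lt_or_gt_of_ne h1 with h2 | h2
    · have h4 : ¬ o j < o i := by omega
      simp only [if_pos h2, if_neg h4]; ring
    · have h4 : ¬ o i < o j := by omega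
      simp only [if_pos h2, if_neg h4, cc_symm M j i]; ring

lemma halfForm_ee (o : B → ℕ) (i j : B) : halfForm M o (ee i) (ee j) =
    if i = j then (1 : ℝ) else if o i < o j then -2 * cc M i j else 0 := by
  rw [halfForm_apply, Finset.sum_eq_single i, Finset.sum_eq_single j]
  · simp [ee]
  · intro b _ hb
    have : (ee j : B → ℝ) b = 0 := by simp [ee, hb]
    rw [this]; ring
  · intro h; exact absurd (Finset.mem_univ _) h
  · intro b _ hb
    have : (ee i : B → ℝ) b = 0 := by simp [ee, hb]
    simp only [this, zero_mul, Finset.sum_const_zero]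
  · intro h; exact absurd (Finset.mem_univ _) h

/-- existence of adapted forms -/
lemma exists_adapted (l : List B) (hl : l.Nodup) (o : B → ℕ) (ho : Function.Injective o)
    (hlo : l.Pairwise (fun i j => o i < o j)) : ∃ L : Bil B, Adapted M L l := by
  refine ⟨halfForm M o, halfForm_sym o ho, ?_, hl⟩
  refine hlo.imp ?_
  intro i j hij
  rw [halfForm_ee, if_neg, if_neg (by omega)]
  rintro rfl
  omega

end Pool.Agent.TH107
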