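import Pool.Agent.TH107.Dih

set_option autoImplicit false

namespace Pool.Agent.TH107

open Pool.Agent.Helper741 CoxeterSystem

variable {B : Type*} {M : CoxeterMatrix B} [Fintype B] [DecidableEq B]
variable {W : Type*} [Group W] {cs : CoxeterSystem M W}

lemma PR.eq_rt_of_neg {v : B → ℝ} (hv : PR cs v) {b : W} (hb : cs.IsReflection b)
    (h : geo cs b v = - v) : v = rt cs b := by
  rw [geo_refl hb] at h
  apply hv.eq_of_smul (rt_PR hb) (a := bil M (rt cs b) v / 2)
  have h1 : (2 : ℝ) • v = bil M (rt cs b) v • rt cs b := by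
    have h2 : v + v = bil M (rt cs b) v • rt cs b := by
      have := congrArg (fun z => z + bil M (rt cs b) v • rt cs b + v) h
      simpa using this
    rw [two_smul, h2]
  calc v = (1 / 2 : ℝ) • ((2 : ℝ) • v) := by module
    _ = _ := by rw [h1]; module

section canon
variable {R : Set W} (hR : ∀ u ∈ R, cs.IsReflection u) (hconj : ∀ u ∈ R, ∀ u' ∈ R, u * u' * u⁻¹ ∈ R)
include hR hconj

lemma min_canon {a : W} (ha : a ∈ R) (hmin : ∀ u ∈ R, cs.length a ≤ cs.length u) :
    ∀ u ∈ R, u ≠ a → 0 ≤ geo cs a (rt cs u) := by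
  intro u hu hne
  by_contra hcon
  have hneg := ((rt_isRt (hR u hu)).geo a).not_nonneg.mp hcon
  rcases pal a u (hR a ha) (hR u hu) hne hneg with h | h
  · have := hmin u hu; omega
  · have := hmin _ (hconj a ha u hu); omega

lemma snd_canon {a b : W} (ha : a ∈ R) (hmin : ∀ u ∈ R, cs.length a ≤ cs.length u)
    (hb : b ∈ R) (hba : b ≠ a) (hmin2 : ∀ u ∈ R, u ≠ a → cs.length b ≤ cs.length u) :
    ∀ u ∈ R, u ≠ b → 0 ≤ geo cs b (rt cs u) := by
  intro u hu hne
  by_contra hcon
  have hneg := ((rt_isRt (hR u hu)).geo b).not_nonneg.mp hcon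
  have har := hR a ha
  have hbr := hR b hb
  have hbneg : geo cs b (rt cs a) ≤ 0 := by
    rcases pal b u hbr (hR u hu) hne hneg with h | h
    · have hua : u = a := by
        by_contra h2
        have := hmin2 u hu h2; omega
      rw [hua] at hneg; exact hneg
    · have hua : b * u * b⁻¹ = a := by
        by_contra h2
        have := hmin2 _ (hconj b hb u hu) h2; omega
      rw [← hua, rt_conj_neg (hR u hu) b hneg, map_neg, geo_geo, hbr.mul_self, map_one,
        Module.End.one_apply]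
      exact neg_nonpos.mpr (rt_pos (hR u hu))
  have h1 : cs.length (b * a) < cs.length b := (length_gt_iff har).mpr hbneg
  have h2 : cs.length (a * b) = cs.length (b * a) := by
    rw [← cs.length_inv, mul_inv_rev, har.inv, hbr.inv]
  have h3 : a * b * a⁻¹ ≠ a := by
    intro h
    apply hba
    have : a * b = a * a := by
      calc a * b = a * b * a⁻¹ * a := by group
        _ = a * a := by rw [h]
    exact mul_left_cancel this
  have h4 := hmin2 _ (hconj a ha b hb) h3
  rw [har.inv] at h4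
  have h5 : 0 ≤ geo cs (a * b) (rt cs a) := (length_lt_iff har).mp (by omega)
  rw [← geo_geo] at h5
  have hcr := hconj b hb a ha
  have hc := rt_conj_neg har b hbneg
  have hca : b * a * b⁻¹ ≠ a := by
    intro h
    rw [h] at hc
    have h6 : geo cs b (rt cs a) = - rt cs a := by
      conv_rhs => rw [hc]
      rw [neg_neg]
    exact hba (rt_inj hbr har ((rt_PR har).eq_rt_of_neg hbr h6).symm)
  have h7 := min_canon hR hconj ha hmin _ hcr hca
  rw [hc, map_neg] at h7
  exact (((rt_isRt har).geo b).geo a).not_both h5 (neg_nonneg.mp h7)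

end canon

lemma canon {r r1 : W} (hr : cs.IsReflection r) (hr1 : cs.IsReflection r1) (hne : r1 ≠ r)
    (hneg : geo cs r (rt cs r1) ≤ 0) :
    ∃ i j : ℤ, ∃ x y : ℝ, 0 ≤ x ∧ 0 ≤ y ∧
      rt cs r = x • rt cs ((r1 * r) ^ i * r1) + y • rt cs ((r1 * r) ^ j * r1) ∧
      cs.length ((r1 * r) ^ i * r1) < cs.length r ∧
      cs.length ((r1 * r) ^ j * r1) < cs.length r := by
  classical
  set R : Set W := Set.range (fun k : ℤ => (r1 * r) ^ k * r1) with hRdef
  have hR : ∀ u ∈ R, cs.IsReflection u := by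
    rintro _ ⟨k, rfl⟩
    exact refl_zpow hr1 hr k
  have hconj : ∀ u ∈ R, ∀ u' ∈ R, u * u' * u⁻¹ ∈ R := by
    rintro _ ⟨i, rfl⟩ _ ⟨j, rfl⟩
    refine ⟨i + i - j, ?_⟩
    simp only
    rw [(refl_zpow hr1 hr i).inv]
    have e1 := inv_conj_zpow hr1.mul_self hr.mul_self j
    have e2 := inv_conj_zpow hr1.mul_self hr.mul_self i
    have e3 : (r1 * r) ^ (i + i - j) = (r1 * r) ^ i * ((r1 * r) ^ (-j) * (r1 * r) ^ i) := by
      rw [← zpow_add, ← zpow_add]; congr 1; ring
    rw [e3]
    calc (r1 * r) ^ i * ((r1 * r) ^ (-j) * (r1 * r) ^ i) * r1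
        = (r1 * r) ^ i * (r1 * r) ^ (-j) * (r1 * r1) * (r1 * r) ^ i * r1 := by
          rw [hr1.mul_self, mul_one]; simp only [mul_assoc]
      _ = (r1 * r) ^ i * ((r1 * r) ^ (-j) * r1) * r1 * (r1 * r) ^ i * r1 := by
          simp only [mul_assoc]
      _ = _ := by rw [← e1]; simp only [mul_assoc]
  have hr1R : r1 ∈ R := ⟨0, by simp⟩
  have hrR : r ∈ R := by
    refine ⟨-1, ?_⟩
    simp only [zpow_neg, zpow_one, mul_inv_rev, hr.inv, hr1.inv]
    rw [mul_assoc, hr1.mul_self, mul_one]
  -- minimal elements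
  obtain ⟨a, haR, hamin⟩ : ∃ a ∈ R, ∀ u ∈ R, cs.length a ≤ cs.length u := by
    obtain ⟨a, ha, hmin⟩ := WellFounded.has_min (measure cs.length).wf R ⟨r, hrR⟩
    exact ⟨a, ha, fun u hu => not_lt.mp (hmin u hu)⟩
  obtain ⟨b, ⟨hbR, hba⟩, hbmin⟩ : ∃ b ∈ R \ {a}, ∀ u ∈ R \ {a}, cs.length b ≤ cs.length u := by
    have hne2 : (R \ {a}).Nonempty := by
      by_cases h : r = a
      · exact ⟨r1, hr1R, by rw [← h]; exact hne⟩
      · exact ⟨r, hrR, h⟩
    obtain ⟨b, hb, hmin⟩ := WellFounded.has_min (measure cs.length).wf _ hne2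
    exact ⟨b, hb, fun u hu => not_lt.mp (hmin u hu)⟩
  have hba : b ≠ a := hba
  have hbmin' : ∀ u ∈ R, u ≠ a → cs.length b ≤ cs.length u := fun u hu hua => hbmin u ⟨hu, hua⟩
  have har := hR a haR
  have hbr := hR b hbR
  have ca := min_canon hR hconj haR hamin
  have cb := snd_canon hR hconj haR hamin hbR hba hbmin'
  have hra : r ≠ a := by
    rintro rfl
    exact (((rt_isRt hr1).geo r)).not_both (ca r1 hr1R hne) hneg
  have hlb : cs.length b < cs.length r := by
    by_contra hcon
    have h1 : ∀ u ∈ R, u ≠ a → cs.length r ≤ cs.length u := by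
      intro u hu hua
      have := hbmin' u hu hua
      omega
    have h2 := snd_canon hR hconj haR hamin hrR hra h1 r1 hr1R hne
    exact (((rt_isRt hr1).geo r)).not_both h2 hneg
  have hla : cs.length a < cs.length r := lt_of_le_of_lt (hamin b hbR) hlb
  have hrb : r ≠ b := by rintro rfl; exact lt_irrefl _ hlb
  -- plane
  set P : Submodule ℝ (B → ℝ) := Submodule.span ℝ {rt cs r, rt cs r1} with hP
  have hPr : rt cs r ∈ P := Submodule.subset_span (by simp)
  have hPr1 : rt cs r1 ∈ P := Submodule.subset_span (by simp)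
  have st_r : ∀ v ∈ P, geo cs r v ∈ P := by
    intro v hv; rw [geo_refl hr]; exact P.sub_mem hv (P.smul_mem _ hPr)
  have st_r1 : ∀ v ∈ P, geo cs r1 v ∈ P := by
    intro v hv; rw [geo_refl hr1]; exact P.sub_mem hv (P.smul_mem _ hPr1)
  have stp : ∀ n : ℕ, ∀ v ∈ P, geo cs ((r1 * r) ^ n) v ∈ P := by
    intro n
    induction n with
    | zero => intro v hv; simpa using hv
    | succ n ih =>
      intro v hv
      rw [pow_succ, ← geo_geo, ← geo_geo]
      exact ih _ (st_r1 _ (st_r v hv))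
  have stn : ∀ n : ℕ, ∀ v ∈ P, geo cs ((r1 * r)⁻¹ ^ n) v ∈ P := by
    intro n
    induction n with
    | zero => intro v hv; simpa using hv
    | succ n ih =>
      intro v hv
      rw [pow_succ, ← geo_geo]
      apply ih
      rw [mul_inv_rev, hr.inv, hr1.inv, ← geo_geo]
      exact st_r _ (st_r1 v hv)
  have stz : ∀ m : ℤ, ∀ v ∈ P, geo cs ((r1 * r) ^ m) v ∈ P := by
    intro m v hv
    rcases Int.eq_nat_or_neg m with ⟨n, rfl | rfl⟩
    · rw [zpow_natCast]; exact stp n v hv
    · rw [zpow_neg, zpow_natCast, ← inv_pow]; exact stn n v hv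
  have hpm : ∀ (u : W) (w : W), cs.IsReflection u → geo cs w (rt cs u) ∈ P →
      rt cs (w * u * w⁻¹) ∈ P := by
    intro u w hu h
    rcases ((rt_isRt hu).geo w).cases with h1 | h1
    · rw [rt_conj_pos hu w h1]; exact h
    · rw [rt_conj_neg hu w h1]; exact P.neg_mem h
  have hRP : ∀ u ∈ R, rt cs u ∈ P := by
    rintro _ ⟨k, rfl⟩
    simp only
    rcases Int.even_or_odd' k with ⟨m, rfl | rfl⟩
    · have h : (r1 * r) ^ (2 * m) * r1 = (r1 * r) ^ m * r1 * ((r1 * r) ^ m)⁻¹ := by
        rw [← zpow_neg, mul_assoc ((r1 * r) ^ m), inv_conj_zpow hr1.mul_self hr.mul_self, neg_neg,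
          ← mul_assoc, ← zpow_add, two_mul]
      rw [h]
      exact hpm _ _ hr1 (stz m _ hPr1)
    · have h : (r1 * r) ^ (2 * m + 1) * r1 = (r1 * r) ^ (m + 1) * r * ((r1 * r) ^ (m + 1))⁻¹ := by
        rw [← zpow_neg, mul_assoc ((r1 * r) ^ (m + 1)), inv_conj_zpow' hr1.mul_self hr.mul_self,
          neg_neg]
        have e : (r1 * r) ^ (m + 1) * r = (r1 * r) ^ m * r1 := by
          rw [zpow_add_one, mul_assoc, mul_assoc, hr.mul_self, mul_one]
        rw [e, ← mul_assoc, ← zpow_add]
        congr 2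
        ring
      rw [h]
      exact hpm _ _ hr (stz (m + 1) _ hPr)
  obtain ⟨a0, a1, hae⟩ := Submodule.mem_span_pair.mp (hRP a haR)
  obtain ⟨b0, b1, hbe⟩ := Submodule.mem_span_pair.mp (hRP b hbR)
  have hdet : a0 * b1 - a1 * b0 ≠ 0 := by
    intro h0
    apply hba
    by_cases ha0 : a0 = 0
    · have ha1 : a1 ≠ 0 := by
        rintro rfl
        rw [ha0] at hae
        exact (rt_isRt har).ne_zero (by rw [← hae]; simp)
      have hb0 : b0 = 0 := by
        rw [ha0, zero_mul, zero_sub, neg_eq_zero] at h0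
        exact (mul_eq_zero.mp h0).resolve_left ha1
      apply rt_inj hbr har
      apply (rt_PR hbr).eq_of_smul (rt_PR har) (a := b1 / a1)
      have e : (b1 / a1) * a1 = b1 := by field_simp
      rw [← hae, ← hbe, ha0, hb0]
      simp only [zero_smul, zero_add, smul_smul, e]
    · apply rt_inj hbr har
      apply (rt_PR hbr).eq_of_smul (rt_PR har) (a := b0 / a0)
      rw [← hae, ← hbe, smul_add, smul_smul, smul_smul]
      congr 2
      · field_simp
      · field_simp; linarith
  set x := b1 / (a0 * b1 - a1 * b0) with hx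
  set y := - a1 / (a0 * b1 - a1 * b0) with hy
  have hcomb : rt cs r = x • rt cs a + y • rt cs b := by
    rw [← hae, ← hbe, smul_add, smul_add, smul_smul, smul_smul, smul_smul, smul_smul]
    have e1 : x * a0 + y * b0 = 1 := by
      rw [hx, hy, div_mul_eq_mul_div, div_mul_eq_mul_div, ← add_div, div_eq_one_iff_eq hdet]; ring
    have e2 : x * a1 + y * b1 = 0 := by
      rw [hx, hy, div_mul_eq_mul_div, div_mul_eq_mul_div, ← add_div, div_eq_zero_iff]; left; ring
    calc rt cs r = (x * a0 + y * b0) • rt cs r + (x * a1 + y * b1) • rt cs r1 := by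
          rw [e1, e2]; module
      _ = _ := by module
  have gba : 0 ≤ geo cs b (rt cs a) := cb a haR (Ne.symm hba)
  have gbr : 0 ≤ geo cs b (rt cs r) := cb r hrR hrb
  have gab : 0 ≤ geo cs a (rt cs b) := ca b hbR hba
  have gar : 0 ≤ geo cs a (rt cs r) := ca r hrR hra
  have hx0 : 0 ≤ x := by
    by_contra hx0
    push Not at hx0
    -- apply b
    have h1 := congrArg (geo cs b) hcomb
    rw [map_add, map_smul, map_smul, geo_rt_self hbr] at h1
    have h2 : y • rt cs b ≤ 0 := by
      have h3 : y • rt cs b = x • geo cs b (rt cs a) - geo cs b (rt cs r) := by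
        rw [h1]; module
      rw [h3]
      have h4 : x • geo cs b (rt cs a) ≤ 0 := smul_nonpos_of_nonpos_of_nonneg hx0.le gba
      exact sub_nonpos_of_le (h4.trans gbr)
    have h5 : rt cs r ≤ 0 := by
      rw [hcomb]
      have h4 : x • rt cs a ≤ 0 := smul_nonpos_of_nonpos_of_nonneg hx0.le (rt_pos har)
      exact add_nonpos h4 h2
    exact (rt_isRt hr).not_both (rt_pos hr) h5
  have hy0 : 0 ≤ y := by
    by_contra hy0
    push Not at hy0
    have h1 := congrArg (geo cs a) hcomb
    rw [map_add, map_smul, map_smul, geo_rt_self har] at h1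
    have h2 : x • rt cs a ≤ 0 := by
      have h3 : x • rt cs a = y • geo cs a (rt cs b) - geo cs a (rt cs r) := by
        rw [h1]; module
      rw [h3]
      have h4 : y • geo cs a (rt cs b) ≤ 0 := smul_nonpos_of_nonpos_of_nonneg hy0.le gab
      exact sub_nonpos_of_le (h4.trans gar)
    have h5 : rt cs r ≤ 0 := by
      rw [hcomb]
      have h4 : y • rt cs b ≤ 0 := smul_nonpos_of_nonpos_of_nonneg hy0.le (rt_pos hbr)
      exact add_nonpos h2 h4
    exact (rt_isRt hr).not_both (rt_pos hr) h5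
  obtain ⟨i, hi⟩ := haR
  obtain ⟨j, hj⟩ := hbR
  simp only at hi hj
  exact ⟨i, j, x, y, hx0, hy0, by rw [hi, hj]; exact hcomb, by rw [hi]; exact hla,
    by rw [hj]; exact hlb⟩

end Pool.Agent.TH107
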