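import Pool.Agent.TH107.Root
import Pool.Agent.Helper741.Garside

set_option autoImplicit false

namespace Pool.Agent.TH107

open Pool.Agent.Helper741 CoxeterSystem

variable {B : Type*} {M : CoxeterMatrix B} [Fintype B] [DecidableEq B]
variable {W : Type*} [Group W] {cs : CoxeterSystem M W}

/-- positive systems given by predicates -/
structure IsCone (cs : CoxeterSystem M W) (P : (B → ℝ) → Prop) : Prop where
  neg : ∀ v, IsRt cs v → (P (-v) ↔ ¬ P v)
  comb : ∀ (x y : B → ℝ) (a b : ℝ), P x → P y → 0 ≤ a → 0 ≤ b → IsRt cs (a • x + b • y) →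
    P (a • x + b • y)

open Classical in
/-- signed letter -/
noncomputable def letter (cs : CoxeterSystem M W) (P : (B → ℝ) → Prop) (x : W) (i : B) : Artin M :=
  if P (geo cs x (ee i)) then Artin.gen M i else (Artin.gen M i)⁻¹

/-- the element attached to a gallery -/
noncomputable def gal (cs : CoxeterSystem M W) (P : (B → ℝ) → Prop) : W → List B → Artin M
  | _, [] => 1
  | x, i :: ω => letter cs P x i * gal cs P (x * cs.simple i) ω

lemma gal_append (P : (B → ℝ) → Prop) (ω ω' : List B) : ∀ x : W,
    gal cs P x (ω ++ ω') = gal cs P x ω * gal cs P (x * cs.wordProd ω) ω' := by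
  induction ω with
  | nil => intro x; simp [gal]
  | cons i ω ih =>
    intro x
    simp only [List.cons_append, gal]
    rw [ih, wordProd_cons, mul_assoc, mul_assoc]

lemma letter_flip {P : (B → ℝ) → Prop} (hP : IsCone cs P) (x : W) (i : B) :
    letter cs P (x * cs.simple i) i = (letter cs P x i)⁻¹ := by
  unfold letter
  have h1 : geo cs (x * cs.simple i) (ee i) = - geo cs x (ee i) := by
    rw [← geo_geo, geo_simple, sg_ee_self, map_neg]
  rw [h1]
  have h2 := hP.neg _ ((isRt_ee cs i).geo x)
  by_cases h : P (geo cs x (ee i))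
  · rw [if_pos h, if_neg (by rw [h2]; exact not_not.mpr h)]
  · rw [if_neg h, if_pos (h2.mpr h), inv_inv]

/-- elements of a rank two standard subgroup -/
def InD (cs : CoxeterSystem M W) (i j : B) (d : W) : Prop :=
  ∃ ω : List B, (∀ k ∈ ω, k = i ∨ k = j) ∧ d = cs.wordProd ω

lemma geo_wordProd_coord' (ω : List B) (v : B → ℝ) {j : B} (hj : j ∉ ω) :
    geo cs (cs.wordProd ω) v j = v j := by
  induction ω with
  | nil => simp
  | cons i ω ih =>
    simp only [List.mem_cons, not_or] at hj
    rw [wordProd_cons, ← geo_geo, geo_simple, sg_apply]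
    simp only [Pi.sub_apply, Pi.smul_apply, ee, Pi.single_apply, hj.1, if_false, smul_eq_mul,
      mul_zero, sub_zero]
    exact ih hj.2

lemma InD.decomp {i j : B} (hij : i ≠ j) {d : W} (h : InD cs i j d) {s : B} (hs : s = i ∨ s = j) :
    geo cs d (ee s) = (geo cs d (ee s) i) • (ee i : B → ℝ) + (geo cs d (ee s) j) • (ee j : B → ℝ) := by
  obtain ⟨ω, hω, rfl⟩ := h
  ext k
  by_cases hki : k = i
  · subst hki; simp [ee, hij]
  by_cases hkj : k = j
  · subst hkj; simp [ee, hki]
  have h1 : k ∉ ω := by
    intro hk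
    rcases hω k hk with h | h
    · exact hki h
    · exact hkj h
  rw [geo_wordProd_coord' ω _ h1]
  have hks : k ≠ s := by rcases hs with rfl | rfl <;> assumption
  simp [ee, hki, hkj, hks]

lemma InD.mul_simple {i j : B} {d : W} (h : InD cs i j d) {s : B} (hs : s = i ∨ s = j) :
    InD cs i j (d * cs.simple s) := by
  obtain ⟨ω, hω, rfl⟩ := h
  refine ⟨ω ++ [s], ?_, by simp [wordProd_append]⟩
  intro k hk
  simp only [List.mem_append, List.mem_singleton] at hk
  rcases hk with hk | rfl
  · exact hω k hk
  · exact hs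

/-- the letters near a chamber of the positive system -/
lemma letter_sec {P : (B → ℝ) → Prop} (hP : IsCone cs P) {i j : B} (hij : i ≠ j) {u : W}
    (hi : P (geo cs u (ee i))) (hj : P (geo cs u (ee j))) {d : W} (hd : InD cs i j d) {s : B}
    (hs : s = i ∨ s = j) :
    letter cs P (u * d) s = (sec cs d)⁻¹ * sec cs (d * cs.simple s) := by
  have pos : ∀ d' : W, InD cs i j d' → 0 ≤ geo cs d' (ee s) → P (geo cs (u * d') (ee s)) := by
    intro d' hd' h
    have hroot : IsRt cs (geo cs (u * d') (ee s)) := (isRt_ee cs s).geo _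
    rw [← geo_geo] at hroot ⊢
    rw [hd'.decomp hij hs, map_add, map_smul, map_smul] at hroot ⊢
    exact hP.comb _ _ _ _ hi hj (h i) (h j) hroot
  rcases cs.length_mul_simple d s with h | h
  · have h1 : cs.length d < cs.length (d * cs.simple s) := by omega
    rw [sec_mul_simple cs d s h1, letter, if_pos (pos d hd ((geo_nonneg_iff cs d s).mpr h1))]
    group
  · have h1 : cs.length (d * cs.simple s) < cs.length (d * cs.simple s * cs.simple s) := by
      rw [cs.simple_mul_simple_cancel_right]; omega
    have h2 := sec_mul_simple cs (d * cs.simple s) s h1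
    rw [cs.simple_mul_simple_cancel_right] at h2
    have h3 := pos (d * cs.simple s) (hd.mul_simple hs) ((geo_nonneg_iff cs _ s).mpr h1)
    have h4 : geo cs (u * (d * cs.simple s)) (ee s) = - geo cs (u * d) (ee s) := by
      rw [← mul_assoc, ← geo_geo _ (cs.simple s), geo_simple, sg_ee_self, map_neg]
    rw [h4, hP.neg _ ((isRt_ee cs s).geo _)] at h3
    rw [letter, if_neg h3, h2]
    group

lemma gal_sec {P : (B → ℝ) → Prop} (hP : IsCone cs P) {i j : B} (hij : i ≠ j) {u : W}
    (hi : P (geo cs u (ee i))) (hj : P (geo cs u (ee j))) (ω : List B)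
    (hω : ∀ k ∈ ω, k = i ∨ k = j) : ∀ d : W, InD cs i j d →
    gal cs P (u * d) ω = (sec cs d)⁻¹ * sec cs (d * cs.wordProd ω) := by
  induction ω with
  | nil => intro d _; simp [gal]
  | cons s ω ih =>
    intro d hd
    have hs := hω s (by simp)
    rw [gal, letter_sec hP hij hi hj hd hs, mul_assoc u d,
      ih (fun k hk => hω k (by simp [hk])) _ (hd.mul_simple hs), wordProd_cons]
    simp only [mul_assoc]
    rw [mul_inv_cancel_left]

/-- the sequence of roots around a rank two residue -/
noncomputable def bt (cs : CoxeterSystem M W) (i j : B) (k : ℕ) : B → ℝ :=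
  geo cs (alt (cs.simple i) (cs.simple j) k) (ee (if Even k then i else j))

lemma bt_prev (i j : B) (k : ℕ) :
    geo cs (alt (cs.simple i) (cs.simple j) (k + 1)) (ee (if Even k then i else j)) =
      - bt cs i j k := by
  rw [alt_succ', bt, ← geo_geo]
  by_cases h : Even k
  · simp only [h, if_true]; rw [geo_simple, sg_ee_self, map_neg]
  · simp only [h, if_false]; rw [geo_simple, sg_ee_self, map_neg]

lemma bt_rec (i j : B) (k : ℕ) :
    bt cs i j (k + 2) = (2 * cc M i j) • bt cs i j (k + 1) - bt cs i j k := by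
  have h1 := bt_prev (cs := cs) i j k
  have e2 : bt cs i j (k + 2) = geo cs (alt (cs.simple i) (cs.simple j) (k + 1))
      (geo cs (if Even (k + 1) then cs.simple i else cs.simple j)
        (ee (if Even (k + 2) then i else j))) := by
    rw [bt, alt_succ', ← geo_geo]
  by_cases h : Even k
  · have hk1 : ¬ Even (k + 1) := by simpa [Nat.even_add_one] using h
    have hk2 : Even (k + 2) := by simpa [Nat.even_add_one] using h
    simp only [h, if_true] at h1
    simp only [hk1, hk2, if_true, if_false] at e2
    have e3 : bt cs i j (k + 1) = geo cs (alt (cs.simple i) (cs.simple j) (k + 1)) (ee j) := by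
      rw [bt]; simp only [hk1, if_false]
    rw [e2, geo_simple, sg_ee, map_add, map_smul, h1, e3]
    module
  · have hk1 : Even (k + 1) := by simpa [Nat.even_add_one] using h
    have hk2 : ¬ Even (k + 2) := by simpa [Nat.even_add_one] using h
    simp only [h, if_false] at h1
    simp only [hk1, hk2, if_true, if_false] at e2
    have e3 : bt cs i j (k + 1) = geo cs (alt (cs.simple i) (cs.simple j) (k + 1)) (ee i) := by
      rw [bt]; simp only [hk1, if_true]
    rw [e2, geo_simple, sg_ee, map_add, map_smul, h1, e3, cc_symm M j i]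
    module

lemma bt_formula (i j : B) (k : ℕ) :
    bt cs i j k = qs (cc M i j) (k + 1) • (ee i : B → ℝ) + qs (cc M i j) k • (ee j : B → ℝ) := by
  induction k using Nat.strong_induction_on with
  | _ k ih =>
    match k with
    | 0 => simp [bt]
    | 1 =>
      have h : bt cs i j 1 = geo cs (cs.simple i) (ee j) := by simp [bt]
      rw [h, geo_simple, sg_ee, qs_add_two, cc_symm M j i]
      simp only [zero_add, qs_one, qs_zero]
      module
    | (k + 2) =>
      rw [bt_rec, ih (k + 1) (by omega), ih k (by omega), qs_add_two (cc M i j) (k + 1),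
        qs_add_two (cc M i j) k]
      module

lemma qs_at {i j : B} (h : i ≠ j) (h0 : M i j ≠ 0) :
    qs (cc M i j) (M i j) = 0 ∧ qs (cc M i j) (M i j + 1) = -1 := by
  have hs := sin_pos_of_ne M h h0
  have hm : (M i j : ℝ) ≠ 0 := by exact_mod_cast h0
  constructor
  · have h1 := qs_sin (Real.pi / (M i j : ℝ)) (M i j)
    have h2 : ((M i j : ℕ) : ℝ) * (Real.pi / (M i j : ℝ)) = Real.pi := by
      field_simp
    rw [h2, Real.sin_pi] at h1
    exact (mul_eq_zero.mp h1).resolve_right hs.ne'
  · have h1 := qs_sin (Real.pi / (M i j : ℝ)) (M i j + 1)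
    have h2 : ((M i j + 1 : ℕ) : ℝ) * (Real.pi / (M i j : ℝ)) =
        (Real.pi / (M i j : ℝ)) + Real.pi := by
      push_cast; field_simp; ring
    rw [h2, Real.sin_add_pi] at h1
    have : (qs (cc M i j) (M i j + 1) + 1) * Real.sin (Real.pi / (M i j : ℝ)) = 0 := by
      rw [add_mul, one_mul]
      have h3 : qs (cc M i j) (M i j + 1) = qs (Real.cos (Real.pi / (M i j : ℝ))) (M i j + 1) := rfl
      rw [h3, h1]; ring
    have := (mul_eq_zero.mp this).resolve_right hs.ne'
    linarith

lemma exists_step (Q : ℕ → Prop) (a b : ℕ) (hab : a ≤ b) (ha : ¬ Q a) (hb : Q b) :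
    ∃ k, a ≤ k ∧ ¬ Q k ∧ Q (k + 1) := by
  by_contra hcon
  push Not at hcon
  have : ∀ n, a ≤ n → n ≤ b → ¬ Q n := by
    intro n hn
    induction n, hn using Nat.le_induction with
    | base => intro _; exact ha
    | succ n hn ih => intro h; exact hcon n hn (ih (by omega))
  exact this b hab le_rfl hb

/-- a chamber of the residue in the positive system -/
lemma exists_chamber {P : (B → ℝ) → Prop} (hP : IsCone cs P) {i j : B} (hij : i ≠ j)
    (h0 : M i j ≠ 0) (x : W) :
    ∃ k : ℕ, P (geo cs (x * alt (cs.simple i) (cs.simple j) (k + 1)) (ee i)) ∧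
      P (geo cs (x * alt (cs.simple i) (cs.simple j) (k + 1)) (ee j)) := by
  set Q : ℕ → Prop := fun k => P (geo cs x (bt cs i j k)) with hQ
  have hroot : ∀ k, IsRt cs (geo cs x (bt cs i j k)) := fun k => ((isRt_ee cs _).geo _).geo _
  have b0 : bt cs i j 0 = ee i := by simp [bt]
  have bm : bt cs i j (M i j) = - bt cs i j 0 := by
    rw [bt_formula, (qs_at hij h0).1, (qs_at hij h0).2, b0]; module
  have b2m : bt cs i j (2 * M i j) = bt cs i j 0 := by
    rw [bt_formula, (qs_two_mul M hij h0).1, (qs_two_mul M hij h0).2, b0]; module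
  obtain ⟨k, _, hk1, hk2⟩ : ∃ k, 0 ≤ k ∧ ¬ Q k ∧ Q (k + 1) := by
    by_cases h : Q 0
    · have h1 : ¬ Q (M i j) := by
        simp only [hQ]
        rw [bm, map_neg, hP.neg _ (hroot 0)]
        exact not_not.mpr h
      have h2 : Q (2 * M i j) := by
        simp only [hQ]
        rw [b2m]; exact h
      obtain ⟨k, _, h3, h4⟩ := exists_step Q (M i j) (2 * M i j) (by omega) h1 h2
      exact ⟨k, Nat.zero_le _, h3, h4⟩
    · have h1 : Q (M i j) := by
        simp only [hQ]
        rw [bm, map_neg, hP.neg _ (hroot 0)]; exact h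
      exact exists_step Q 0 (M i j) (by omega) h h1
  refine ⟨k, ?_⟩
  have hprev : P (geo cs (x * alt (cs.simple i) (cs.simple j) (k + 1))
      (ee (if Even k then i else j))) := by
    rw [← geo_geo, bt_prev, map_neg, hP.neg _ (hroot k)]; exact hk1
  have hnext : P (geo cs (x * alt (cs.simple i) (cs.simple j) (k + 1))
      (ee (if Even (k + 1) then i else j))) := by
    rw [← geo_geo]; exact hk2
  by_cases h : Even k
  · have hk1 : ¬ Even (k + 1) := by simpa [Nat.even_add_one] using h
    simp only [h, if_true] at hprev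
    simp only [hk1, if_false] at hnext
    exact ⟨hprev, hnext⟩
  · have hk1 : Even (k + 1) := by simpa [Nat.even_add_one] using h
    simp only [h, if_false] at hprev
    simp only [hk1, if_true] at hnext
    exact ⟨hnext, hprev⟩

lemma inD_alt_inv (i j : B) (k : ℕ) : InD cs i j (alt (cs.simple i) (cs.simple j) k)⁻¹ := by
  refine ⟨(aw i j k).reverse, ?_, ?_⟩
  · intro l hl
    rw [List.mem_reverse] at hl
    have : ∀ (k : ℕ) (i j : B), ∀ l ∈ aw i j k, l = i ∨ l = j := by
      intro k
      induction k with
      | zero => intro i j l hl; simp [aw] at hl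
      | succ k ih =>
        intro i j l hl
        rw [aw_succ, List.mem_cons] at hl
        rcases hl with rfl | hl
        · left; rfl
        · exact (ih j i l hl).symm
    exact this k i j l hl
  · rw [wordProd_reverse, wordProd_aw]

lemma gal_rank_two {P : (B → ℝ) → Prop} (hP : IsCone cs P) {i j : B} (hij : i ≠ j)
    (h0 : M i j ≠ 0) (x : W) (ω : List B) (hω : ∀ k ∈ ω, k = i ∨ k = j)
    (h1 : cs.wordProd ω = 1) : gal cs P x ω = 1 := by
  obtain ⟨k, hi, hj⟩ := exists_chamber hP hij h0 x
  set u := x * alt (cs.simple i) (cs.simple j) (k + 1) with hu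
  have hx : x = u * (alt (cs.simple i) (cs.simple j) (k + 1))⁻¹ := by rw [hu]; group
  rw [hx, gal_sec hP hij hi hj ω hω _ (inD_alt_inv i j (k + 1)), h1, mul_one]
  group

/-- permutation attached to a letter -/
noncomputable def perm {P : (B → ℝ) → Prop} (hP : IsCone cs P) (i : B) : Equiv.Perm (W × Artin M) where
  toFun p := (p.1 * cs.simple i, p.2 * letter cs P p.1 i)
  invFun p := (p.1 * cs.simple i, p.2 * letter cs P p.1 i)
  left_inv p := by
    simp only
    rw [letter_flip hP, cs.simple_mul_simple_cancel_right, mul_inv_cancel_right]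
  right_inv p := by
    simp only
    rw [letter_flip hP, cs.simple_mul_simple_cancel_right, mul_inv_cancel_right]

lemma perm_apply {P : (B → ℝ) → Prop} (hP : IsCone cs P) (i : B) (p : W × Artin M) :
    perm hP i p = (p.1 * cs.simple i, p.2 * letter cs P p.1 i) := rfl

lemma perm_word {P : (B → ℝ) → Prop} (hP : IsCone cs P) (ω : List B) (x : W) (a : Artin M) :
    ((ω.map (perm hP)).prod : Equiv.Perm (W × Artin M)) (x, a) =
      (x * cs.wordProd ω.reverse, a * gal cs P x ω.reverse) := by
  induction ω with
  | nil => simp [gal]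
  | cons i ω ih =>
    rw [List.map_cons, List.prod_cons, Equiv.Perm.mul_apply, ih, perm_apply, List.reverse_cons,
      wordProd_append, gal_append, wordProd_singleton]
    simp only [gal, mul_one, mul_assoc]

lemma perm_liftable {P : (B → ℝ) → Prop} (hP : IsCone cs P) : M.IsLiftable (perm hP) := by
  intro i j
  by_cases hij : i = j
  · subst hij
    have : perm hP i * perm hP i = 1 := by
      apply Equiv.ext
      intro p
      exact (perm hP i).left_inv p
    rw [this, one_pow]
  by_cases h0 : M i j = 0
  · rw [h0, pow_zero]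
  have hw : ∀ m : ℕ, (perm hP i * perm hP j) ^ m = ((aw i j (2 * m)).map (perm hP)).prod := by
    intro m
    rw [aw_prod, alt_mul_two]
  rw [hw]
  apply Equiv.ext
  rintro ⟨x, a⟩
  rw [perm_word]
  have hp : cs.wordProd (aw i j (2 * M i j)).reverse = 1 := by
    rw [wordProd_reverse, wordProd_aw, alt_mul_two, cs.simple_mul_simple_pow, inv_one]
  have hmem : ∀ (k : ℕ) (i j : B), ∀ l ∈ aw i j k, l = i ∨ l = j := by
    intro k
    induction k with
    | zero => intro i j l hl; simp [aw] at hl
    | succ k ih =>
      intro i j l hl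
      rw [aw_succ, List.mem_cons] at hl
      rcases hl with rfl | hl
      · left; rfl
      · exact (ih j i l hl).symm
  rw [gal_rank_two hP hij h0 x _ (fun k hk => hmem _ i j k (List.mem_reverse.mp hk)) hp, hp]
  simp

/-- gallery elements only depend on the end points -/
theorem gal_wd {P : (B → ℝ) → Prop} (hP : IsCone cs P) (x : W) {ω ω' : List B}
    (h : cs.wordProd ω = cs.wordProd ω') : gal cs P x ω = gal cs P x ω' := by
  have key : ∀ ω : List B, cs.lift ⟨perm hP, perm_liftable hP⟩ (cs.wordProd ω) =
      (ω.map (perm hP)).prod := by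
    intro ω
    induction ω with
    | nil => simp
    | cons i ω ih =>
      rw [wordProd_cons, map_mul, ih, List.map_cons, List.prod_cons, cs.lift_apply_simple]
  have h1 : cs.wordProd ω.reverse = cs.wordProd ω'.reverse := by
    rw [wordProd_reverse, wordProd_reverse, h]
  have h2 := congrArg (fun y => (cs.lift ⟨perm hP, perm_liftable hP⟩ y) (x, 1)) h1
  simp only [key] at h2
  rw [perm_word, perm_word, List.reverse_reverse, List.reverse_reverse] at h2
  have h3 := congrArg Prod.snd h2
  simpa using h3

/-- gallery element between two group elements -/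
noncomputable def Gy (cs : CoxeterSystem M W) (P : (B → ℝ) → Prop) (x y : W) : Artin M :=
  gal cs P x (rword cs (x⁻¹ * y))

lemma Gy_word {P : (B → ℝ) → Prop} (hP : IsCone cs P) (x : W) (ω : List B) :
    Gy cs P x (x * cs.wordProd ω) = gal cs P x ω := by
  apply gal_wd hP
  rw [rword_prod, inv_mul_cancel_left]

lemma Gy_trans {P : (B → ℝ) → Prop} (hP : IsCone cs P) (x y z : W) :
    Gy cs P x y * Gy cs P y z = Gy cs P x z := by
  have hy : y = x * cs.wordProd (rword cs (x⁻¹ * y)) := by rw [rword_prod]; group
  have hz : z = y * cs.wordProd (rword cs (y⁻¹ * z)) := by rw [rword_prod]; group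
  have hz2 : z = x * cs.wordProd (rword cs (x⁻¹ * y) ++ rword cs (y⁻¹ * z)) := by
    rw [wordProd_append, ← mul_assoc, ← hy]; exact hz
  conv_rhs => rw [hz2]
  rw [Gy_word hP, gal_append, ← hy]
  rfl

lemma gal_translate (P : (B → ℝ) → Prop) (u : W) (ω : List B) : ∀ x : W,
    gal cs (fun v => P (geo cs u⁻¹ v)) (u * x) ω = gal cs P x ω := by
  induction ω with
  | nil => intro x; rfl
  | cons i ω ih =>
    intro x
    rw [gal, gal, mul_assoc u x, ih]
    congr 1
    have h1 : geo cs u⁻¹ (geo cs (u * x) (ee i)) = geo cs x (ee i) := by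
      rw [← geo_geo u x, geo_inv_apply]
    unfold letter
    beta_reduce
    rw [h1]

lemma Gy_translate (P : (B → ℝ) → Prop) (u x y : W) :
    Gy cs (fun v => P (geo cs u⁻¹ v)) (u * x) (u * y) = Gy cs P x y := by
  unfold Gy
  rw [gal_translate]
  congr 2
  group

lemma IsCone.translate {P : (B → ℝ) → Prop} (hP : IsCone cs P) (u : W) :
    IsCone cs (fun v => P (geo cs u v)) where
  neg v hv := by rw [map_neg]; exact hP.neg _ (hv.geo u)
  comb x y a b hx hy ha hb hr := by
    have := hr.geo u
    rw [map_add, map_smul, map_smul] at this ⊢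
    exact hP.comb _ _ a b hx hy ha hb this

lemma gal_agree (P P' : (B → ℝ) → Prop) (ω : List B) : cs.IsReduced ω →
    (∀ β, PR cs β → geo cs (cs.wordProd ω)⁻¹ β ≤ 0 → (P β ↔ P' β)) →
    gal cs P 1 ω = gal cs P' 1 ω := by
  induction ω using List.reverseRecOn with
  | nil => intro _ _; rfl
  | append_singleton ω i ih =>
    intro hred h
    have hred' : cs.IsReduced ω := by
      have := hred.take ω.length
      simpa using this
    have hlen : cs.length (cs.wordProd ω) < cs.length (cs.wordProd ω * cs.simple i) := by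
      have h1 := hred.eq
      have h2 := hred'.eq
      rw [wordProd_append, wordProd_singleton, List.length_append, List.length_singleton] at h1
      omega
    have hpos : 0 ≤ geo cs (cs.wordProd ω) (ee i) := (geo_nonneg_iff cs _ i).mpr hlen
    have hroot : PR cs (geo cs (cs.wordProd ω) (ee i)) := ⟨(isRt_ee cs i).geo _, hpos⟩
    rw [gal_append, gal_append, one_mul]
    have e1 : (cs.wordProd (ω ++ [i]))⁻¹ = cs.simple i * (cs.wordProd ω)⁻¹ := by
      rw [wordProd_append, wordProd_singleton, mul_inv_rev, cs.inv_simple]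
    congr 1
    · apply ih hred'
      intro β hβ hneg
      apply h β hβ
      rw [e1, ← geo_geo]
      by_contra hcon
      have hr1 := hβ.root.geo (cs.wordProd ω)⁻¹
      have h2 : 0 ≤ geo cs (cs.simple i) (geo cs (cs.wordProd ω)⁻¹ β) :=
        ((hr1.geo _).not_nonpos).mp hcon
      have h3 : - geo cs (cs.wordProd ω)⁻¹ β = ee i := by
        apply PR.eq_ee (cs := cs) ⟨hr1.neg, neg_nonneg.mpr hneg⟩
        rw [map_neg]; exact neg_nonpos.mpr h2
      have h4 : β = - geo cs (cs.wordProd ω) (ee i) := by
        rw [← h3, map_neg, neg_neg, geo_apply_inv]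
      exact hβ.root.not_both hβ.pos (by rw [h4]; exact neg_nonpos.mpr hpos)
    · simp only [gal, mul_one]
      unfold letter
      have h2 : P (geo cs (cs.wordProd ω) (ee i)) ↔ P' (geo cs (cs.wordProd ω) (ee i)) := by
        apply h _ hroot
        rw [e1, ← geo_geo, geo_inv_apply, geo_simple, sg_ee_self]
        exact neg_nonpos.mpr (ee_nonneg i)
      by_cases h3 : P (geo cs (cs.wordProd ω) (ee i))
      · rw [if_pos h3, if_pos (h2.mp h3)]
      · rw [if_neg h3, if_neg (fun h4 => h3 (h2.mpr h4))]

lemma Gy_agree (P P' : (B → ℝ) → Prop) (y : W)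
    (h : ∀ β, PR cs β → geo cs y⁻¹ β ≤ 0 → (P β ↔ P' β)) : Gy cs P 1 y = Gy cs P' 1 y := by
  unfold Gy
  apply gal_agree P P' _ (rword_reduced cs _)
  rw [rword_prod, inv_one, one_mul]
  exact h

end Pool.Agent.TH107
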