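import Pool.Agent.TH107.EX
import Pool.Agent.TH107.Gal

set_option autoImplicit false

namespace Pool.Agent.TH107

open Pool.Agent.Helper741 CoxeterSystem

variable {B : Type*} {M : CoxeterMatrix B} [Fintype B] [DecidableEq B]
variable {W : Type*} [Group W] {cs : CoxeterSystem M W}

/-- height -/
noncomputable def hgt (v : B → ℝ) : ℝ := ∑ i, v i

lemma hgt_add (v w : B → ℝ) : hgt (v + w) = hgt v + hgt w := by
  simp [hgt, Finset.sum_add_distrib]

lemma hgt_smul (a : ℝ) (v : B → ℝ) : hgt (a • v) = a * hgt v := by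
  simp [hgt, Finset.mul_sum]

lemma hgt_pos {v : B → ℝ} (h : IsRt cs v) (h0 : 0 ≤ v) : 0 < hgt v := by
  have h1 : 0 ≤ hgt v := Finset.sum_nonneg (fun i _ => h0 i)
  rcases h1.lt_or_eq with h2 | h2
  · exact h2
  · exfalso
    apply h.ne_zero
    ext i
    have := (Finset.sum_eq_zero_iff_of_nonneg (fun i _ => h0 i)).mp h2.symm i (Finset.mem_univ i)
    exact this

/-- base predicate -/
def R0 (v : B → ℝ) : Prop := hgt v < 0

/-- lexicographic refinement -/
def lexP (f : (B → ℝ) →ₗ[ℝ] ℝ) (R : (B → ℝ) → Prop) (v : B → ℝ) : Prop :=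
  0 < f v ∨ (f v = 0 ∧ R v)

/-- the two closure properties and the dichotomy -/
structure IsC (cs : CoxeterSystem M W) (P : (B → ℝ) → Prop) : Prop where
  neg : ∀ v, IsRt cs v → (P (-v) ↔ ¬ P v)
  add : ∀ x y, P x → P y → P (x + y)
  smul : ∀ x (a : ℝ), 0 < a → P x → P (a • x)

lemma IsC.cone {P : (B → ℝ) → Prop} (h : IsC cs P) : IsCone cs P where
  neg := h.neg
  comb x y a b hx hy ha hb hr := by
    rcases ha.lt_or_eq with ha | ha
    · rcases hb.lt_or_eq with hb | hb
      · exact h.add _ _ (h.smul _ _ ha hx) (h.smul _ _ hb hy)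
      · rw [← hb, zero_smul, add_zero]; exact h.smul _ _ ha hx
    · rcases hb.lt_or_eq with hb | hb
      · rw [← ha, zero_smul, zero_add]; exact h.smul _ _ hb hy
      · exfalso
        rw [← ha, ← hb] at hr
        exact hr.ne_zero (by simp)

lemma isC_R0 : IsC cs (R0 : (B → ℝ) → Prop) where
  neg v hv := by
    unfold R0
    have h1 : hgt (-v) = - hgt v := by
      have := hgt_smul (-1) v
      rw [neg_one_smul] at this; rw [this]; ring
    rw [h1]
    rcases hv.cases with h | h
    · have := hgt_pos hv h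
      constructor
      · intro _; linarith
      · intro _; linarith
    · have := hgt_pos hv.neg (neg_nonneg.mpr h)
      rw [h1] at this
      constructor
      · intro _; linarith
      · intro _; linarith
  add x y hx hy := by unfold R0 at *; rw [hgt_add]; linarith
  smul x a ha hx := by unfold R0 at *; rw [hgt_smul]; exact mul_neg_of_pos_of_neg ha hx

lemma IsC.lex {R : (B → ℝ) → Prop} (h : IsC cs R) (f : (B → ℝ) →ₗ[ℝ] ℝ) : IsC cs (lexP f R) where
  neg v hv := by
    unfold lexP
    rw [map_neg, h.neg v hv]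
    constructor
    · rintro (h1 | ⟨h1, h2⟩) (h3 | ⟨h3, h4⟩)
      · linarith
      · linarith
      · linarith
      · exact h2 h4
    · intro h1
      push Not at h1
      rcases lt_trichotomy (f v) 0 with h2 | h2 | h2
      · left; linarith
      · right; exact ⟨by rw [h2]; simp, h1.2 h2⟩
      · exact absurd h2 (not_lt.mpr h1.1)
  add x y hx hy := by
    unfold lexP at *
    rw [map_add]
    rcases hx with hx | ⟨hx, hx'⟩ <;> rcases hy with hy | ⟨hy, hy'⟩
    · left; linarith
    · left; linarith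
    · left; linarith
    · right; exact ⟨by rw [hx, hy]; simp, h.add _ _ hx' hy'⟩
  smul x a ha hx := by
    unfold lexP at *
    rw [map_smul, smul_eq_mul]
    rcases hx with hx | ⟨hx, hx'⟩
    · left; positivity
    · right; exact ⟨by rw [hx]; simp, h.smul _ _ ha hx'⟩

/-- the lift of a reflection to the Artin group -/
noncomputable def tl (cs : CoxeterSystem M W) (L : Bil B) (t : W) : Artin M :=
  Gy cs (lexP (L (rt cs t)) R0) 1 t

lemma lexP_R0_iff {f : (B → ℝ) →ₗ[ℝ] ℝ} {β : B → ℝ} (hβ : PR cs β) : lexP f R0 β ↔ 0 < f β := by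
  unfold lexP
  constructor
  · rintro (h | ⟨_, h⟩)
    · exact h
    · have := hgt_pos hβ.root hβ.pos
      unfold R0 at h; linarith
  · intro h; left; exact h

section pair
variable {L : Bil B} (hL : Sym M L) {t r : W} (ht : cs.IsReflection t) (hr : cs.IsReflection r)
  (ho : L (rt cs r) (rt cs t) = 0)
  (E1 : EE cs L t (rt cs t) (L (rt cs r)))
  (E2 : EE cs L r (rt cs r) (-(L.flip (rt cs t))))
  (hEX : ∀ β, PR cs β → geo cs t β ≤ 0 → geo cs r β ≤ 0 → L (rt cs r) β = 0 →
    L β (rt cs t) = 0 → False)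
include hL ht hr ho

include E1 in
lemma agree1 {β : B → ℝ} (hβ : PR cs β) (hz : geo cs t β ≤ 0) :
    lexP (L (rt cs r)) (lexP (L (rt cs t)) R0) β ↔ 0 < L (rt cs t) β := by
  by_cases hb : β = rt cs t
  · subst hb
    have h1 : L (rt cs t) (rt cs t) = 1 := hL.root (bil_rt_self ht)
    constructor
    · intro _; rw [h1]; norm_num
    · intro _; right; exact ⟨ho, Or.inl (by rw [h1]; norm_num)⟩
  obtain ⟨e1, e2⟩ := E1 β hβ hz hb
  constructor
  · intro h
    by_contra hcon
    push Not at hcon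
    have h1 := e2 hcon
    rcases h with h | ⟨_, h⟩
    · linarith
    · rw [lexP_R0_iff hβ] at h; linarith
  · intro h
    have h1 := e1 h
    rcases h1.lt_or_eq with h2 | h2
    · left; exact h2
    · right; exact ⟨h2.symm, Or.inl h⟩

include E2 hEX in
lemma agree2 {β : B → ℝ} (hβ : PR cs β) (hz : geo cs r β ≤ 0) :
    lexP (L (rt cs r)) (lexP (L (rt cs t)) R0) (geo cs t β) ↔ 0 < L (rt cs r) β := by
  have h1 : L (rt cs r) (geo cs t β) = L (rt cs r) β := inv_right ht ho β
  have h2 : L (rt cs t) (geo cs t β) = - L β (rt cs t) := hL.refl_right ht β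
  unfold lexP
  rw [h1, h2]
  constructor
  · rintro (h | ⟨h, h3⟩)
    · exact h
    · exfalso
      have hb : β ≠ rt cs r := by
        rintro rfl
        rw [hL.root (bil_rt_self hr)] at h; norm_num at h
      have h4 := (E2 β hβ hz hb).2 h.le
      rw [LinearMap.neg_apply, LinearMap.flip_apply] at h4
      rcases h3 with h3 | ⟨h3, h5⟩
      · linarith
      · have h6 : L β (rt cs t) = 0 := by linarith
        unfold R0 at h5
        have h7 : geo cs t β ≤ 0 := by
          rcases (hβ.root.geo t).cases with h8 | h8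
          · have := hgt_pos (hβ.root.geo t) h8; linarith
          · exact h8
        exact hEX β hβ h7 hz h h6
  · intro h; left; exact h

include E1 E2 hEX in
/-- the product of two consecutive lifts -/
lemma tl_mul : tl cs L t * tl cs L r =
    Gy cs (lexP (L (rt cs r)) (lexP (L (rt cs t)) R0)) 1 (t * r) := by
  set P1 := lexP (L (rt cs r)) (lexP (L (rt cs t)) R0) with hP1
  have hP1c : IsCone cs P1 := ((isC_R0.lex _).lex _).cone
  have e1 : tl cs L t = Gy cs P1 1 t := by
    apply Gy_agree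
    intro β hβ hz
    rw [ht.inv] at hz
    rw [lexP_R0_iff hβ]
    exact (agree1 hL ht hr ho E1 hβ hz).symm
  have e2 : tl cs L r = Gy cs P1 t (t * r) := by
    have h1 : tl cs L r = Gy cs (fun v => P1 (geo cs t v)) 1 r := by
      apply Gy_agree
      intro β hβ hz
      rw [hr.inv] at hz
      rw [lexP_R0_iff hβ]
      exact (agree2 hL ht hr ho E2 hEX hβ hz).symm
    rw [h1]
    have h2 := Gy_translate (cs := cs) (fun v => P1 (geo cs t v)) t 1 r
    rw [← h2, mul_one]
    congr 1
    funext v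
    rw [geo_apply_inv]
  rw [e1, e2, Gy_trans hP1c]

end pair

namespace DSeq

variable {L : Bil B} {v : W} {c : ℝ} {z : ℤ → W} {ξ : ℤ → B → ℝ}

lemma rt_orth (D : DSeq cs L v c z ξ) (j : ℤ) : L (rt cs (z (j + 1))) (rt cs (z j)) = 0 := by
  have h := D.orth j
  rcases pm_root (D.refl j) (D.root j) (D.act j) with ⟨_, h1⟩ | ⟨_, h1⟩ <;>
    rcases pm_root (D.refl (j + 1)) (D.root (j + 1)) (D.act (j + 1)) with ⟨_, h2⟩ | ⟨_, h2⟩ <;>
      rw [h1, h2] at h <;> simpa using h

lemma rt_EX (D : DSeq cs L v c z ξ) (hc : 0 ≤ c) (hF : Full cs L z) (j : ℤ) :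
    ∀ β, PR cs β → geo cs (z j) β ≤ 0 → geo cs (z (j + 1)) β ≤ 0 →
      L (rt cs (z (j + 1))) β = 0 → L β (rt cs (z j)) = 0 → False := by
  intro β hβ h1 h2 h3 h4
  refine D.EX_all hc hF j β hβ h1 h2 ?_ ?_
  · rcases pm_root (D.refl (j + 1)) (D.root (j + 1)) (D.act (j + 1)) with ⟨_, h5⟩ | ⟨_, h5⟩ <;>
      rw [h5] <;> simp [h3]
  · rcases pm_root (D.refl j) (D.root j) (D.act j) with ⟨_, h5⟩ | ⟨_, h5⟩ <;>
      rw [h5] <;> simp [h4]

lemma tl_prod (D : DSeq cs L v c z ξ) (hc : 0 ≤ c) (hF : Full cs L z) (j : ℤ) :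
    tl cs L (z j) * tl cs L (z (j + 1)) =
      Gy cs (lexP (L (rt cs (z (j + 1)))) (lexP (L (rt cs (z j))) R0)) 1 v := by
  have F1 := hF (j + 1)
  have e : j + 1 - 1 = j := by ring
  rw [e] at F1
  rw [tl_mul D.sym (D.refl j) (D.refl (j + 1)) (D.rt_orth j) (hF j).2.1 F1.2.2
    (D.rt_EX hc hF j), D.mul]

/-- comparison of the two descriptions -/
lemma compare (D : DSeq cs L v c z ξ) (hc : 0 ≤ c) (hF : Full cs L z) (h0 : 0 ≤ ξ 0)
    {β : B → ℝ} (hβ : PR cs β) (hz : geo cs v⁻¹ β ≤ 0) :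
    lexP (L (rt cs (z 1))) (lexP (L (rt cs (z 0))) R0) β ↔
      lexP (L (rt cs (z 0))) (lexP (L (rt cs (z (-1)))) R0) β := by
  have e1 : (0 : ℤ) + 1 = 1 := by norm_num
  have e2 : (0 : ℤ) - 1 = -1 := by norm_num
  have e3 : (-1 : ℤ) + 1 = 0 := by norm_num
  have e4 : (1 : ℤ) - 1 = 0 := by norm_num
  have F0 := hF 0
  have F1 := hF 1
  have Fm := hF (-1)
  rw [e1, e2] at F0
  rw [e4] at F1
  rw [e3] at Fm
  have o0 := D.rt_orth 0
  rw [e1] at o0
  have om := D.rt_orth (-1)
  rw [e3] at om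
  have x0 := D.rt_EX hc hF 0
  rw [e1] at x0
  have xm := D.rt_EX hc hF (-1)
  rw [e3] at xm
  set t := z 0 with ht
  set r := z 1 with hr
  set s := z (-1) with hs
  set τ := rt cs t with hτ
  set ρ := rt cs r with hρ
  set σ := rt cs s with hσ
  have rt0 : τ = ξ 0 := D.rt_of_pos h0
  have htr : cs.IsReflection t := D.refl 0
  have hrr : cs.IsReflection r := D.refl 1
  have hsr : cs.IsReflection s := D.refl (-1)
  have vinv1 : v⁻¹ = r * t := by
    have := D.mul 0
    rw [e1] at this
    rw [← this, mul_inv_rev, htr.inv, hrr.inv]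
  have vinv2 : v⁻¹ = t * s := by
    have := D.mul (-1)
    rw [e3] at this
    rw [← this, mul_inv_rev, htr.inv, hsr.inv]
  have bp : ∀ {u : W}, cs.IsReflection u → ∀ β, PR cs β → geo cs u β ≤ 0 →
      0 < L (rt cs u) β + L β (rt cs u) := by
    intro u hu β hβ h
    rw [D.sym]
    exact bil_pos_of_inv (geo_refl hu) (rt_pos hu) hβ h
  have Lττ : L τ τ = 1 := D.sym.root (bil_rt_self htr)
  have Lρρ : L ρ ρ = 1 := D.sym.root (bil_rt_self hrr)
  have Lσσ : L σ σ = 1 := D.sym.root (bil_rt_self hsr)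
  -- relation between the three roots
  have rel : (ρ = ξ 1 ∧ σ = ξ (-1) ∧ 0 ≤ ξ 1 ∧ 0 ≤ ξ (-1)) ∨
      (ρ = ξ 1 ∧ σ = - ξ (-1)) ∨ (ρ = - ξ 1 ∧ σ = ξ (-1)) := by
    rcases pm_root hrr (D.root 1) (D.act 1) with ⟨p1, q1⟩ | ⟨p1, q1⟩ <;>
      rcases pm_root hsr (D.root (-1)) (D.act (-1)) with ⟨p2, q2⟩ | ⟨p2, q2⟩
    · left; exact ⟨q1.symm, q2.symm, p1, p2⟩
    · right; left; exact ⟨q1.symm, by rw [q2, neg_neg]⟩
    · right; right; exact ⟨by rw [q1, neg_neg], q2.symm⟩
    · exfalso
      have h1 := D.recu 0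
      rw [e1, e2] at h1
      have h2 : 0 ≤ ξ 1 := by
        rw [h1]
        exact sub_nonneg_of_le (p2.trans (smul_nonneg hc h0))
      exact (D.root 1).not_both h2 p1
  have hL1m : L (ξ 1) (ξ (-1)) = -1 := by
    have := D.L_down' (-1) 1 1 (by norm_num)
    simpa using this
  have A1 : ∀ β, PR cs β → geo cs t β ≤ 0 → (lexP (L ρ) (lexP (L τ) R0) β ↔ 0 < L τ β) :=
    fun β hβ h => agree1 D.sym htr hrr o0 F0.2.1 hβ h
  have A2 : ∀ β, PR cs β → geo cs r β ≤ 0 →
      (lexP (L ρ) (lexP (L τ) R0) (geo cs t β) ↔ 0 < L ρ β) :=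
    fun β hβ h => agree2 D.sym htr hrr o0 F1.2.2 x0 hβ h
  have B1 : ∀ β, PR cs β → geo cs s β ≤ 0 → (lexP (L τ) (lexP (L σ) R0) β ↔ 0 < L σ β) :=
    fun β hβ h => agree1 D.sym hsr htr om Fm.2.1 hβ h
  have B2 : ∀ β, PR cs β → geo cs t β ≤ 0 →
      (lexP (L τ) (lexP (L σ) R0) (geo cs s β) ↔ 0 < L τ β) :=
    fun β hβ h => agree2 D.sym hsr htr om F0.2.2 xm hβ h
  have inv2 : ∀ {u : W}, cs.IsReflection u → ∀ β : B → ℝ, geo cs u (geo cs u β) = β := by
    intro u hu β
    rw [geo_geo, hu.mul_self, map_one, Module.End.one_apply]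
  have P1iff : (lexP (L ρ) (lexP (L τ) R0) β ↔ 0 < L τ β) ∨
      (0 ≤ geo cs t β ∧ geo cs r (geo cs t β) ≤ 0 ∧
        (lexP (L ρ) (lexP (L τ) R0) β ↔ 0 < L ρ β)) := by
    rcases (hβ.root.geo t).cases with h | h
    · right
      have h1 : geo cs r (geo cs t β) ≤ 0 := by rw [geo_geo, ← vinv1]; exact hz
      refine ⟨h, h1, ?_⟩
      have h2 := A2 (geo cs t β) ⟨hβ.root.geo _, h⟩ h1
      rw [inv2 htr] at h2
      rw [h2]
      have h3 : L ρ (geo cs t β) = L ρ β := inv_right htr o0 β
      rw [h3]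
    · left; exact A1 β hβ h
  have hser : ∀ j, L (ξ j) β = - L (geo cs v⁻¹ β) (ξ j) := by
    intro j
    have := D.serre j (geo cs v⁻¹ β)
    rw [geo_apply_inv] at this
    exact this
  set γ := - geo cs v⁻¹ β with hγ
  have hγr : PR cs γ := ⟨(hβ.root.geo _).neg, neg_nonneg.mpr hz⟩
  have hserτ : L τ β = L γ τ := by
    rw [rt0, hser, hγ, map_neg, LinearMap.neg_apply]
  have hserρ : L ρ β = L γ ρ := by
    rcases pm_root hrr (D.root 1) (D.act 1) with ⟨_, q1⟩ | ⟨_, q1⟩
    · rw [hρ, ← q1, hser, hγ, map_neg, LinearMap.neg_apply]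
    · have q1' : rt cs r = - ξ 1 := by rw [q1, neg_neg]
      rw [hρ, q1', map_neg, LinearMap.neg_apply, hser, hγ]
      simp
  rcases (hβ.root.geo t).cases with hta | hta <;> rcases (hβ.root.geo s).cases with hsa | hsa
  · -- case (21)
    have h1 : geo cs r (geo cs t β) ≤ 0 := by rw [geo_geo, ← vinv1]; exact hz
    have h2 : geo cs t (geo cs s β) ≤ 0 := by rw [geo_geo, ← vinv2]; exact hz
    have p1 := A2 (geo cs t β) ⟨hβ.root.geo _, hta⟩ h1
    rw [inv2 htr, inv_right htr o0 β] at p1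
    have p2 := B2 (geo cs s β) ⟨hβ.root.geo _, hsa⟩ h2
    rw [inv2 hsr, inv_right hsr om β] at p2
    rw [p1, p2, hserτ, hserρ]
    have hγr1 : geo cs r γ ≤ 0 := by
      have : geo cs r γ = - geo cs t β := by
        rw [hγ, map_neg, vinv1, ← geo_geo, inv2 hrr]
      rw [this]; exact neg_nonpos.mpr hta
    have hγt : geo cs t γ ≤ 0 := by
      have : geo cs t γ = - geo cs s β := by
        rw [hγ, map_neg, vinv2, ← geo_geo, inv2 htr]
      rw [this]; exact neg_nonpos.mpr hsa
    have b1 := bp hrr γ hγr hγr1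
    have b2 := bp htr γ hγr hγt
    rw [← hρ] at b1
    rw [← hτ] at b2
    have hnρ : γ ≠ ρ := by
      intro h
      -- then β = t ρ would be negative
      have h3 : geo cs v⁻¹ β = - ρ := by rw [← h, hγ, neg_neg]
      have h4 : β = geo cs t ρ := by
        apply geo_injective_apply cs v⁻¹
        rw [h3, vinv1, ← geo_geo, inv2 htr, hρ, geo_rt_self hrr]
      rw [h] at hγt
      rw [← h4] at hγt
      exact hβ.root.not_both hβ.pos hγt
    constructor
    · intro h
      by_contra hcon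
      push Not at hcon
      have h3 : 0 < L τ γ := by linarith
      have hnτ : γ ≠ τ := by
        intro h4; rw [h4, Lττ] at hcon; linarith
      have h4 := (F0.2.1 γ hγr hγt hnτ).1 h3
      have h5 : L ρ γ ≤ 0 := by
        rcases F1.1 γ hγr hγr1 hnρ with h6 | h6
        · exact h6
        · linarith
      have h6 := (F1.2.2 γ hγr hγr1 hnρ).2 h5
      rw [LinearMap.neg_apply, LinearMap.flip_apply] at h6
      exact x0 γ hγr hγt hγr1 (le_antisymm h5 h4) (by linarith)
    · intro h
      by_contra hcon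
      push Not at hcon
      have h3 : 0 < L ρ γ := by linarith
      have h4 := (F1.2.2 γ hγr hγr1 hnρ).1 h3
      rw [LinearMap.neg_apply, LinearMap.flip_apply] at h4
      linarith
  · -- case (22)
    have h1 : geo cs r (geo cs t β) ≤ 0 := by rw [geo_geo, ← vinv1]; exact hz
    have p1 := A2 (geo cs t β) ⟨hβ.root.geo _, hta⟩ h1
    rw [inv2 htr, inv_right htr o0 β] at p1
    have p2 := B1 β hβ hsa
    rw [p1, p2]
    have bs := bil_pos_of_inv (geo_refl hsr) (rt_pos hsr) hβ hsa
    have br := bil_pos_of_inv (geo_refl hrr) (rt_pos hrr) ⟨hβ.root.geo t, hta⟩ h1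
    rcases rel with ⟨q1, q2, _, _⟩ | rel
    · exfalso
      rw [← hρ, q1, ← bil_geo cs t, inv2 htr] at br
      have h3 : geo cs t (ξ 1) = - ξ (-1) := by
        rw [ht, D.refl_act]; congr 1
      rw [h3, bil_neg_left] at br
      rw [← hσ, q2] at bs
      linarith
    · have key : ∃ e : ℝ, L ρ β = L σ β + e * L τ β := by
        have h4 := D.recu 0
        rw [e1, e2] at h4
        rcases rel with ⟨q1, q2⟩ | ⟨q1, q2⟩
        · refine ⟨c, ?_⟩
          rw [q1, q2, h4, rt0]
          simp only [map_sub, map_smul, map_neg, LinearMap.sub_apply, LinearMap.smul_apply,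
            LinearMap.neg_apply, smul_eq_mul]
          ring
        · refine ⟨-c, ?_⟩
          rw [q1, q2, h4, rt0]
          simp only [map_sub, map_smul, map_neg, LinearMap.sub_apply, LinearMap.smul_apply,
            LinearMap.neg_apply, smul_eq_mul]
          ring
      obtain ⟨e, he⟩ := key
      have hρσ : L ρ σ = 1 := by
        rcases rel with ⟨q1, q2⟩ | ⟨q1, q2⟩
        · rw [q1, q2, map_neg, hL1m]; ring
        · rw [q1, q2, map_neg, LinearMap.neg_apply, hL1m]; ring
      by_cases hbσ : β = σ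
      · rw [hbσ, hρσ, Lσσ]
      have hγr1 : geo cs r γ ≤ 0 := by
        have : geo cs r γ = - geo cs t β := by
          rw [hγ, map_neg, vinv1, ← geo_geo, inv2 hrr]
        rw [this]; exact neg_nonpos.mpr hta
      have b1 := bp hrr γ hγr hγr1
      rw [← hρ] at b1
      have hnρ : γ ≠ ρ := by
        intro h
        apply hbσ
        have h3 : geo cs v⁻¹ β = - ρ := by rw [← h, hγ, neg_neg]
        apply geo_injective_apply cs v⁻¹
        rw [h3]
        rcases rel with ⟨q1, q2⟩ | ⟨q1, q2⟩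
        · rw [q1, q2, map_neg, D.vinv_act]; congr 1
        · rw [q1, q2, neg_neg, D.vinv_act]; congr 1
      have s1 := F1.2.2 γ hγr hγr1 hnρ
      rw [LinearMap.neg_apply, LinearMap.flip_apply, ← hserτ] at s1
      have s2 := F1.1 γ hγr hγr1 hnρ
      have s3 := Fm.2.1 β hβ hsa hbσ
      have t1 : 0 < L ρ β → 0 ≤ L τ β := by
        intro h
        rw [hserρ] at h
        have h5 : L ρ γ ≤ 0 := by
          rcases s2 with h6 | h6
          · exact h6
          · linarith
        have := s1.2 h5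
        linarith
      have t2 : L ρ β ≤ 0 → L τ β ≤ 0 := by
        intro h
        rw [hserρ] at h
        have := s1.1 (by linarith)
        linarith
      constructor
      · intro h
        by_contra hcon
        push Not at hcon
        have h5 := t1 h
        have h6 := s3.2 hcon
        have h7 : L τ β = 0 := le_antisymm h6 h5
        rw [h7, mul_zero, add_zero] at he
        linarith
      · intro h
        by_contra hcon
        push Not at hcon
        have h5 := t2 hcon
        have h6 := s3.1 h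
        have h7 : L τ β = 0 := le_antisymm h5 h6
        rw [h7, mul_zero, add_zero] at he
        linarith
  · -- case (11)
    have h2 : geo cs t (geo cs s β) ≤ 0 := by rw [geo_geo, ← vinv2]; exact hz
    have p1 := A1 β hβ hta
    have p2 := B2 (geo cs s β) ⟨hβ.root.geo _, hsa⟩ h2
    rw [inv2 hsr, inv_right hsr om β] at p2
    rw [p1, p2]
  · -- case (12)
    have p1 := A1 β hβ hta
    have p2 := B1 β hβ hsa
    rw [p1, p2]
    have b1 := bp hsr β hβ hsa
    have b2 := bp htr β hβ hta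
    rw [← hσ] at b1
    rw [← hτ] at b2
    have hnσ : β ≠ σ := by
      intro h
      rw [h, hσ, vinv2, ← geo_geo, geo_rt_self hsr, map_neg, ← hσ] at hz
      rw [h] at hta
      exact ((rt_isRt hsr).geo t).not_both (neg_nonpos.mp hz) hta
    constructor
    · intro h
      by_cases hbτ : β = τ
      · rw [hbτ] at b1 ⊢
        rw [om] at b1; linarith
      · have h3 := (F0.2.2 β hβ hta hbτ).1 h
        rw [LinearMap.neg_apply, LinearMap.flip_apply] at h3
        linarith
    · intro h
      by_contra hcon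
      push Not at hcon
      have hbτ : β ≠ τ := by
        intro h3; rw [h3, Lττ] at hcon; linarith
      have h3 := (F0.2.2 β hβ hta hbτ).2 hcon
      rw [LinearMap.neg_apply, LinearMap.flip_apply] at h3
      have h4 : L β σ ≤ 0 := by
        rcases Fm.1 β hβ hsa hnσ with h5 | h5
        · linarith
        · exact h5
      have h5 := (Fm.2.1 β hβ hsa hnσ).1 h
      exact xm β hβ hsa hta (le_antisymm hcon h5) (by linarith)

theorem dual_braid0 (D : DSeq cs L v c z ξ) (hc : 0 ≤ c) (hF : Full cs L z) (h0 : 0 ≤ ξ 0) :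
    tl cs L (z 0) * tl cs L (z 1) = tl cs L (z (-1)) * tl cs L (z 0) := by
  have e1 : (0 : ℤ) + 1 = 1 := by norm_num
  have e3 : (-1 : ℤ) + 1 = 0 := by norm_num
  have h1 := D.tl_prod hc hF 0
  have h2 := D.tl_prod hc hF (-1)
  rw [e1] at h1
  rw [e3] at h2
  rw [h1, h2]
  apply Gy_agree
  intro β hβ hz
  exact D.compare hc hF h0 hβ hz

end DSeq

end Pool.Agent.TH107
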