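import Pool.Agent.TH107.DB

set_option autoImplicit false

namespace Pool.Agent.TH107

open Pool.Agent.Helper741 CoxeterSystem

variable {B : Type*} {M : CoxeterMatrix B} [Fintype B] [DecidableEq B]
variable {W : Type*} [Group W] {cs : CoxeterSystem M W}

lemma full_of_fac {L : Bil B} {l : List B} (hL : Adapted M L l) {t u : W} {g : List W}
    (h : Fac cs l (t :: u :: g)) : Full cs L (fun j => (t * u) ^ (-j) * t) := by
  intro j
  have f1 := h.dihedral j
  have p1 := signE l.length _ L l rfl hL _ _ f1 rfl
  refine ⟨p1.1, p1.2 _ _ f1, ?_⟩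
  have f2 := h.dihedral (j - 1)
  have e : j - 1 + 1 = j := by ring
  rw [e] at f2
  obtain ⟨g', f3⟩ := f2.swap_rev
  have p3 := signE l.length _ L.flip l.reverse (by simp) hL.flip _ _ f3 rfl
  have hz : cs.IsReflection ((t * u) ^ (-j) * t) := f1.1 _ (by simp)
  exact EE.of_flip hL.sym (geo_refl hz) (rt_pos hz) p1.1 (p3.2 _ _ f3)

/-- the dual braid relation for consecutive reflections -/
theorem dual_braid {L : Bil B} {l : List B} (hL : Adapted M L l) {t r : W} {g : List W}
    (h : Fac cs l (t :: r :: g)) :
    tl cs L t * tl cs L r = tl cs L (t * r * t⁻¹) * tl cs L t := by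
  have ht : cs.IsReflection t := h.1 t (by simp)
  have hr : cs.IsReflection r := h.1 r (by simp)
  have hF := full_of_fac hL h
  obtain ⟨x1, hx1, hact, hc⟩ : ∃ x1, IsRt cs x1 ∧ (∀ y, geo cs r y = y - bil M x1 y • x1) ∧
      0 ≤ bil M (rt cs t) x1 := by
    rcases le_total 0 (bil M (rt cs t) (rt cs r)) with h1 | h1
    · exact ⟨rt cs r, rt_isRt hr, geo_refl hr, h1⟩
    · refine ⟨- rt cs r, (rt_isRt hr).neg, fun y => ?_, ?_⟩
      · rw [geo_refl hr, bil_neg_left]; module
      · rw [bil_neg_right]; linarith
  have D := h.dseq hL (rt_isRt ht) hx1 (geo_refl ht) hact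
  have h1 := D.dual_braid0 hc hF (by rw [xiSeq_zero]; exact rt_pos ht)
  beta_reduce at h1
  have e0 : (t * r) ^ (-(0 : ℤ)) * t = t := zzero
  have e1 : (t * r) ^ (-(1 : ℤ)) * t = r := zone ht hr
  have e2 : (t * r) ^ (-(-1 : ℤ)) * t = t * r * t⁻¹ := by
    rw [neg_neg, zpow_one, ht.inv]
  rw [e0, e1, e2] at h1
  exact h1

lemma Fac.front {l : List B} {a b : List W} {t r : W} (h : Fac cs l (a ++ t :: r :: b)) :
    ∃ g, Fac cs l (t :: r :: g) := by
  have h1 : Fac cs l (t :: (a.map (fun x => t⁻¹ * x * t) ++ r :: b)) := by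
    apply h.hur
    have := (hur_move2 a t).right (r :: b)
    simpa using this
  exact h1.move_second

lemma tl_simple {L : Bil B} (hL : Sym M L) (i : B) : tl cs L (cs.simple i) = Artin.gen M i := by
  unfold tl
  have hc : IsCone cs (lexP (L (rt cs (cs.simple i))) R0) := (isC_R0.lex _).cone
  have h1 := Gy_word hc 1 [i]
  rw [wordProd_singleton, one_mul] at h1
  rw [h1]
  simp only [gal, mul_one]
  unfold letter
  rw [if_pos]
  rw [map_one, Module.End.one_apply, rt_simple]
  left
  rw [hL.root]
  · norm_num
  · rw [bil_ee_left, coroot_ee, cc_self]; norm_num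

/-- all lifted factorisations have the same product -/
theorem lift_prod {L : Bil B} {l : List B} (hL : Adapted M L l) {f f' : List W} (hH : Hur f f')
    (h : Fac cs l f) : (f.map (tl cs L)).prod = (f'.map (tl cs L)).prod := by
  induction hH with
  | refl => rfl
  | tail h1 h2 ih =>
    rw [ih]
    have hf := h.hur h1
    clear ih h1
    cases h2 with
    | fwd a b t r =>
      obtain ⟨g, hg⟩ := hf.front
      have hd := dual_braid hL hg
      simp only [List.map_append, List.map_cons, List.prod_append, List.prod_cons]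
      rw [← mul_assoc (tl cs L t), hd, mul_assoc]
    | bwd a b t r =>
      have hf' := hf.hur (Hur.of_step (HStep.bwd a b t r))
      obtain ⟨g, hg⟩ := hf'.front
      have hd := dual_braid hL hg
      simp only [List.map_append, List.map_cons, List.prod_append, List.prod_cons]
      rw [← mul_assoc (tl cs L (t * r * t⁻¹)), ← hd, mul_assoc]

lemma Fac.le_length {l : List B} (hl : l.Nodup) {A C : List W} (h : Fac cs l (A ++ C))
    {A' : List W} (hA' : ∀ t ∈ A', cs.IsReflection t) (hp : A'.prod = A.prod) :
    A.length ≤ A'.length := by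
  have h1 := (hurH l.length l rfl hl (A' ++ C) (by
    intro t ht
    rcases List.mem_append.mp ht with h2 | h2
    · exact hA' t h2
    · exact h.1 t (by simp [h2])) (by
    rw [List.prod_append, hp, ← List.prod_append]; exact h.2.1)).1
  have h2 := h.2.2
  simp only [List.length_append] at h1 h2
  omega

lemma Fac.replace {l : List B} (hl : l.Nodup) {A C : List W} (h : Fac cs l (A ++ C))
    {A' : List W} (hA' : ∀ t ∈ A', cs.IsReflection t) (hp : A'.prod = A.prod)
    (hlen : A'.length ≤ A.length) : Fac cs l (A' ++ C) := by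
  have h3 := h.le_length hl hA' hp
  refine ⟨?_, ?_, ?_⟩
  · intro t ht
    rcases List.mem_append.mp ht with h2 | h2
    · exact hA' t h2
    · exact h.1 t (by simp [h2])
  · rw [List.prod_append, hp, ← List.prod_append]; exact h.2.1
  · have h2 := h.2.2
    simp only [List.length_append] at h2 ⊢
    omega

lemma Fac.split_eq {L : Bil B} {l : List B} (hL : Adapted M L l) {A C A' C' : List W}
    (h : Fac cs l (A ++ C)) (h' : Fac cs l (A' ++ C')) (hp : A.prod = A'.prod) :
    (A.map (tl cs L)).prod = (A'.map (tl cs L)).prod := by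
  have hA : ∀ t ∈ A, cs.IsReflection t := fun t ht => h.1 t (by simp [ht])
  have hA' : ∀ t ∈ A', cs.IsReflection t := fun t ht => h'.1 t (by simp [ht])
  have l2 := h'.le_length hL.nodup hA hp
  have h2 := h.replace hL.nodup hA' hp.symm l2
  have e1 := lift_prod hL (h.to_simple hL.nodup) h
  have e2 := lift_prod hL (h2.to_simple hL.nodup) h2
  rw [← e2] at e1
  simp only [List.map_append, List.prod_append] at e1
  exact mul_right_cancel e1

lemma hur_swap {G : Type*} [Group G] (A C : List G) :
    ∃ A', Hur (A ++ C) (C ++ A') := by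
  induction C generalizing A with
  | nil => exact ⟨A, by simp; exact Hur.refl _⟩
  | cons c C ih =>
    obtain ⟨A', hA'⟩ := ih (A.map (fun a => c⁻¹ * a * c))
    refine ⟨A', ?_⟩
    have h1 := (hur_move2 A c).right C
    have e : A ++ [c] ++ C = A ++ c :: C := by simp
    rw [e] at h1
    exact h1.trans (hA'.cons c)

end Pool.Agent.TH107
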