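import Pool.Agent.TH107.SignE

set_option autoImplicit false

namespace Pool.Agent.TH107

open Pool.Agent.Helper741 CoxeterSystem

variable {B : Type*} {M : CoxeterMatrix B} [Fintype B] [DecidableEq B]
variable {W : Type*} [Group W] {cs : CoxeterSystem M W}

/-- all sign statements along a sequence -/
def Full (cs : CoxeterSystem M W) (L : Bil B) (z : ℤ → W) : Prop :=
  ∀ j, GG cs L (z j) (rt cs (z j)) ∧
    EE cs L (z j) (rt cs (z j)) (L (rt cs (z (j + 1)))) ∧
    EE cs L (z j) (rt cs (z j)) (-(L.flip (rt cs (z (j - 1)))))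

lemma Full.shift {L : Bil B} {z : ℤ → W} (h : Full cs L z) (a : ℤ) :
    Full cs L (fun j => z (j + a)) := by
  intro j
  have := h (j + a)
  have e1 : j + 1 + a = j + a + 1 := by ring
  have e2 : j - 1 + a = j + a - 1 := by ring
  beta_reduce
  rw [e1, e2]; exact this

lemma Full.rev {L : Bil B} {z : ℤ → W} (hL : Sym M L) (hz : ∀ j, cs.IsReflection (z j))
    (h : Full cs L z) : Full cs L.flip (fun j => z (-j)) := by
  intro j
  obtain ⟨h1, h2, h3⟩ := h (-j)
  have e1 : -(j + 1) = -j - 1 := by ring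
  have e2 : -(j - 1) = -j + 1 := by ring
  have hGf : GG cs L.flip (z (-j)) (rt cs (z (-j))) := by
    apply GG.of_flip (L := L.flip)
    rw [LinearMap.flip_flip]; exact h1
  beta_reduce
  rw [e1, e2]
  refine ⟨hGf, ?_, ?_⟩
  · have := EE.of_flip (L := L.flip) hL.flip (fun x => geo_refl (hz _) x) (rt_pos (hz (-j))) hGf
      (lam := -(L.flip (rt cs (z (-j - 1))))) (by rw [LinearMap.flip_flip]; exact h3)
    rw [neg_neg] at this
    exact this
  · rw [LinearMap.flip_flip]
    exact EE.of_flip (L := L.flip) hL.flip (fun x => geo_refl (hz _) x) (rt_pos (hz (-j))) hGf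
      (lam := L (rt cs (z (-j + 1)))) (by rw [LinearMap.flip_flip]; exact h2)

/-- the exclusion statement -/
def EX (cs : CoxeterSystem M W) (L : Bil B) (z : ℤ → W) (ξ : ℤ → B → ℝ) (j : ℤ) : Prop :=
  ∀ β, PR cs β → geo cs (z j) β ≤ 0 → geo cs (z (j + 1)) β ≤ 0 → L (ξ (j + 1)) β = 0 →
    L β (ξ j) = 0 → False

namespace DSeq

variable {L : Bil B} {v : W} {c : ℝ} {z : ℤ → W} {ξ : ℤ → B → ℝ}

lemma negate (D : DSeq cs L v c z ξ) : DSeq cs L v c z (fun j => - ξ j) where
  sym := D.sym
  refl := D.refl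
  act j x := by rw [D.act, bil_neg_left]; module
  root j := (D.root j).neg
  recu j := by rw [D.recu]; module
  mul := D.mul
  orth j := by rw [map_neg, map_neg, LinearMap.neg_apply, D.orth]; simp

lemma EXL (D : DSeq cs L v c z ξ) (hc : 0 ≤ c) (hF : Full cs L z) (hneg : ξ (-1) ≤ 0) (K : ℕ)
    (hpos : ∀ j : ℕ, j ≤ K → 0 ≤ ξ (j : ℤ)) : ∀ k : ℕ, k + 1 ≤ K → EX cs L z ξ k := by
  have e3 : (-1 : ℤ) + 1 = 0 := by norm_num
  have e4 : (0 : ℤ) - 1 = -1 := by norm_num
  have h0 : 0 ≤ ξ 0 := by simpa using hpos 0 (by omega)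
  have r0 := D.rt_of_pos h0
  have rp := D.rt_of_neg hneg
  have F0 := hF 0
  have Fp := hF (-1)
  rw [e4, r0, rp] at F0
  rw [e3, r0, rp] at Fp
  obtain ⟨Gq, _, Eq⟩ := F0
  obtain ⟨Gp, Ep, _⟩ := Fp
  rw [map_neg, neg_neg] at Eq
  obtain ⟨hS1, hS2⟩ := D.Spos hc hneg Gp K hpos
  have bilpos : ∀ (j : ℤ), 0 ≤ ξ j → ∀ β, PR cs β → geo cs (z j) β ≤ 0 →
      0 < L (ξ j) β + L β (ξ j) := by
    intro j hj β hβ h
    rw [D.sym]
    exact bil_pos_of_inv (D.act j) hj hβ h
  intro k
  induction k with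
  | zero =>
    intro hK β hβ hz0 hz1 hx hy
    rw [Nat.cast_zero] at *
    have h1 : 0 ≤ ξ (0 + 1) := by simpa using hpos 1 hK
    have b0 := bilpos 0 h0 β hβ hz0
    have b1 := bilpos (0 + 1) h1 β hβ hz1
    have hne : β ≠ ξ 0 := by
      rintro rfl
      rw [D.L_self] at hy; norm_num at hy
    have h2 := (Eq β hβ hz0 hne).1 (by linarith)
    rw [LinearMap.flip_apply] at h2
    have h3 : L β (ξ (0 + 1)) = c * L β (ξ 0) - L β (ξ (-1)) := by
      rw [D.recu 0, e4, map_sub, map_smul, smul_eq_mul]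
    rw [hy, mul_zero] at h3
    linarith
  | succ k ih =>
    intro hK β hβ hz0 hz1 hx hy
    have e5 : ((k + 1 : ℕ) : ℤ) + 1 = ((k + 2 : ℕ) : ℤ) := by push_cast; ring
    rw [e5] at hz1 hx
    have h1 : 0 ≤ ξ ((k + 1 : ℕ) : ℤ) := hpos _ (by omega)
    have h2 : 0 ≤ ξ ((k + 2 : ℕ) : ℤ) := hpos _ (by omega)
    have b1 := bilpos _ h1 β hβ hz0
    have b2 := bilpos _ h2 β hβ hz1
    have s1 : 0 < Sn c (k + 1) := hS2 k (by omega)
    have s2 : 0 < Sn c (k + 2) := hS2 (k + 1) (by omega)
    have s3 : 0 ≤ Sn c (k + 3) := hS1 (k + 2) (by omega)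
    have l1 := D.Lr β (k + 1)
    have l2 := D.Lr β (k + 2)
    by_cases hq : geo cs (z 0) β ≤ 0
    · by_cases hb0 : β = ξ 0
      · rw [hb0, D.L_down' 0 _ (k + 1) (by push_cast; ring)] at hx
        linarith
      · have b0 := bilpos 0 h0 β hβ hq
        by_cases ht : 0 < L (ξ 0) β
        · have g1 : L β (ξ 0) ≤ 0 := by
            rcases Gq β hβ hq hb0 with h | h
            · linarith
            · exact h
          have g2 := (Eq β hβ hq hb0).1 ht
          rw [LinearMap.flip_apply] at g2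
          have g3 := mul_nonpos_of_nonneg_of_nonpos s3 g1
          have g4 := mul_nonneg s2.le g2
          have : L β (ξ ((k + 2 : ℕ) : ℤ)) ≤ 0 := by rw [l2]; linarith
          linarith
        · push Not at ht
          have g1 : 0 < L β (ξ 0) := by linarith
          have g2 := (Eq β hβ hq hb0).2 ht
          rw [LinearMap.flip_apply] at g2
          have g3 := mul_pos s2 g1
          have g4 := mul_nonpos_of_nonneg_of_nonpos s1.le g2
          have : 0 < L β (ξ ((k + 1 : ℕ) : ℤ)) := by rw [l1]; linarith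
          linarith
    · have hqpos : 0 ≤ geo cs (z 0) β := ((hβ.root.geo _).not_nonpos).mp hq
      by_cases hv : geo cs v β ≤ 0
      · set β₁ := geo cs (z 0) β with hβ₁
        have hβ₁r : PR cs β₁ := ⟨hβ.root.geo _, hqpos⟩
        have hβe : β = geo cs (z 0) β₁ := by
          rw [hβ₁, geo_geo, (D.refl 0).mul_self, map_one, Module.End.one_apply]
        have hp1 : geo cs (z (-1)) β₁ ≤ 0 := by
          rw [hβ₁, geo_geo]
          have := D.mul (-1)
          rw [e3] at this
          rw [this]; exact hv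
        by_cases hb1 : β₁ = - ξ (-1)
        · have hb : β = ξ 1 := by
            rw [hβe, hb1, map_neg, D.refl_act, neg_neg]; congr 1
          rw [hb, D.L_up' 1 _ k (by push_cast; ring)] at hy
          linarith
        · have hπ : 0 ≤ - ξ (-1) := neg_nonneg.mpr hneg
          have hact : ∀ x, geo cs (z (-1)) x = x - bil M (-ξ (-1)) x • (-ξ (-1)) := by
            intro x; rw [D.act, bil_neg_left]; module
          have hbp := bil_pos_of_inv hact hπ hβ₁r hp1
          rw [← D.sym] at hbp
          simp only [map_neg, LinearMap.neg_apply] at hbp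
          have hL0 : L β (ξ 0) = - L (ξ 0) β₁ := by
            rw [hβe, D.act, map_sub, map_smul, LinearMap.sub_apply, LinearMap.smul_apply,
              D.L_self, smul_eq_mul, ← D.sym]; ring
          have hL1 : L β (ξ (-1)) = L β₁ (ξ (-1)) := by
            have ho := D.orth (-1)
            rw [e3] at ho
            rw [hβe, D.act, map_sub, map_smul, LinearMap.sub_apply, LinearMap.smul_apply, ho,
              smul_zero, sub_zero]
          rw [hL0, hL1] at l1 l2
          have hg := Gp β₁ hβ₁r hp1 hb1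
          simp only [map_neg, LinearMap.neg_apply] at hg
          by_cases ht : 0 < L (-ξ (-1)) β₁
          · have ht' := ht
            simp only [map_neg, LinearMap.neg_apply] at ht'
            have g1 : 0 ≤ L β₁ (ξ (-1)) := by rcases hg with hg | hg <;> linarith
            have g2 := (Ep β₁ hβ₁r hp1 hb1).1 ht
            have g3 := mul_nonneg s3 g2
            have g4 := mul_nonneg s2.le g1
            have : L β (ξ ((k + 2 : ℕ) : ℤ)) ≤ 0 := by
              rw [l2]
              have : Sn c (k + 2 + 1) * -(L (ξ 0)) β₁ = -(Sn c (k + 3) * (L (ξ 0)) β₁) := by ring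
              rw [this]; linarith
            linarith
          · push Not at ht
            have ht' := ht
            simp only [map_neg, LinearMap.neg_apply] at ht'
            have g1 : L β₁ (ξ (-1)) < 0 := by linarith
            have g2 := (Ep β₁ hβ₁r hp1 hb1).2 ht
            have g3 := mul_nonpos_of_nonneg_of_nonpos s2.le g2
            have g4 := mul_neg_of_pos_of_neg s1 g1
            have : 0 < L β (ξ ((k + 1 : ℕ) : ℤ)) := by
              rw [l1]
              have : Sn c (k + 1 + 1) * -(L (ξ 0)) β₁ = -(Sn c (k + 2) * (L (ξ 0)) β₁) := by ring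
              rw [this]; linarith
            linarith
      · have hvpos : 0 ≤ geo cs v β := ((hβ.root.geo _).not_nonpos).mp hv
        have e6 : ((k + 1 : ℕ) : ℤ) = (k : ℤ) + 1 := by push_cast; ring
        have e7 : ((k + 2 : ℕ) : ℤ) = (k : ℤ) + 1 + 1 := by push_cast; ring
        apply ih (by omega) (geo cs v β) ⟨hβ.root.geo _, hvpos⟩
        · rw [geo_geo, ← D.z_succ, ← e6]; exact hz0
        · rw [geo_geo, ← D.z_succ, ← e7]; exact hz1
        · rw [D.serre, ← e6, hy, neg_zero]
        · have h4 := D.sym (geo cs v β) (ξ (k : ℤ))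
          rw [D.serre, D.bil_v] at h4
          have e8 : (k : ℤ) + 2 = ((k + 2 : ℕ) : ℤ) := by push_cast; ring
          rw [e8, ← D.sym, hx] at h4
          have h5 : L β (ξ ((k + 2 : ℕ) : ℤ)) = c * L β (ξ ((k + 1 : ℕ) : ℤ)) - L β (ξ (k : ℤ)) := by
            have e9 : (k : ℤ) + 1 - 1 = k := by ring
            rw [e7, D.recu, e9, map_sub, map_smul, smul_eq_mul, ← e6]
          rw [hy, mul_zero] at h5
          linarith

/-- exclusion when the signs differ -/
lemma EX_opp (D : DSeq cs L v c z ξ) (hc : 0 ≤ c) (hF : Full cs L z) (j : ℤ) (h1 : ξ j ≤ 0)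
    (h2 : 0 ≤ ξ (j + 1)) : EX cs L z ξ j := by
  intro β hβ hz0 hz1 hx hy
  have r0 := D.rt_of_neg h1
  have r1 := D.rt_of_pos h2
  have hm : ξ (j - 1) ≤ 0 := by
    rw [D.recd]
    have : c • ξ j ≤ 0 := smul_nonpos_of_nonneg_of_nonpos hc h1
    exact sub_nonpos_of_le (this.trans h2)
  have rm := D.rt_of_neg hm
  have F := hF j
  rw [r0, rm] at F
  obtain ⟨_, _, E2⟩ := F
  rw [map_neg, neg_neg] at E2
  have hact : ∀ x, geo cs (z j) x = x - bil M (-ξ j) x • (-ξ j) := by
    intro x; rw [D.act, bil_neg_left]; module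
  have b0 := bil_pos_of_inv hact (neg_nonneg.mpr h1) hβ hz0
  have b1 := bil_pos_of_inv (D.act (j + 1)) h2 hβ hz1
  rw [← D.sym] at b0 b1
  simp only [map_neg, LinearMap.neg_apply] at b0
  have hne : β ≠ - ξ j := by
    rintro rfl
    rw [map_neg, LinearMap.neg_apply, D.L_self] at hy
    norm_num at hy
  have g := (E2 β hβ hz0 hne).1 (by simp only [map_neg, LinearMap.neg_apply]; linarith)
  rw [LinearMap.flip_apply, D.recd, map_sub, map_smul, hy, smul_zero, zero_sub] at g
  linarith

lemma EX_pos (D : DSeq cs L v c z ξ) (hc : 0 ≤ c) (hF : Full cs L z) (j : ℤ) (h1 : 0 ≤ ξ j)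
    (h2 : 0 ≤ ξ (j + 1)) : EX cs L z ξ j := by
  classical
  have left : ∀ (L : Bil B) (v : W) (z : ℤ → W) (ξ : ℤ → B → ℝ) (_ : DSeq cs L v c z ξ)
      (_ : Full cs L z) (j : ℤ), 0 ≤ ξ j → 0 ≤ ξ (j + 1) → (∃ n : ℕ, ξ (j - 1 - n) ≤ 0) →
      EX cs L z ξ j := by
    intro L v z ξ D hF j h1 h2 hex
    have hspec := Nat.find_spec hex
    set n := Nat.find hex with hn
    have hmin : ∀ i : ℕ, i < n → 0 ≤ ξ (j - 1 - i) := by
      intro i hi
      have := Nat.find_min hex hi
      exact ((D.root _).not_nonpos).mp this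
    have D' := D.shift (j - n)
    have hF' := hF.shift (j - n)
    have e1 : (-1 : ℤ) + (j - n) = j - 1 - n := by ring
    have h := D'.EXL hc hF' (by rw [e1]; exact hspec) (n + 1) (by
      intro i hi
      rcases Nat.lt_or_ge i n with h | h
      · have e : (i : ℤ) + (j - n) = j - 1 - ((n - 1 - i : ℕ) : ℤ) := by omega
        rw [e]; exact hmin _ (by omega)
      · rcases Nat.lt_or_ge i (n + 1) with h' | h'
        · have e : (i : ℤ) + (j - n) = j := by omega
          rw [e]; exact h1
        · have e : (i : ℤ) + (j - n) = j + 1 := by omega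
          rw [e]; exact h2) n le_rfl
    unfold EX at h ⊢
    have e2 : (n : ℤ) + (j - n) = j := by ring
    have e3 : (n : ℤ) + 1 + (j - n) = j + 1 := by ring
    beta_reduce at h
    rw [e2, e3] at h
    exact h
  have D0 := D.shift j
  obtain ⟨i, hi⟩ := D0.exists_end (by rw [zero_add]; exact h1)
  have hi1 : i + j ≠ j := by
    intro h; rw [h] at hi; exact (D.root j).not_both h1 hi
  have hi2 : i + j ≠ j + 1 := by
    intro h; rw [h] at hi; exact (D.root _).not_both h2 hi
  rcases lt_or_ge (i + j) j with h | h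
  · apply left L v z ξ D hF j h1 h2
    refine ⟨(j - 1 - (i + j)).toNat, ?_⟩
    have e : j - 1 - ((j - 1 - (i + j)).toNat : ℤ) = i + j := by omega
    rw [e]; exact hi
  · have hr := left L.flip v⁻¹ (fun j => z (-j)) (fun j => ξ (-j)) D.rev
      (hF.rev D.sym D.refl) (-j - 1) (by
        have e : -(-j - 1) = j + 1 := by ring
        rw [e]; exact h2) (by
        have e : -(-j - 1 + 1) = j := by ring
        rw [e]; exact h1) (by
        refine ⟨(i + j - (j + 2)).toNat, ?_⟩
        have e : -(-j - 1 - 1 - ((i + j - (j + 2)).toNat : ℤ)) = i + j := by omega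
        rw [e]; exact hi)
    intro β hβ hz0 hz1 hx hy
    have e1 : -(-j - 1) = j + 1 := by ring
    have e2 : -(-j - 1 + 1) = j := by ring
    unfold EX at hr
    beta_reduce at hr
    rw [e1, e2] at hr
    exact hr β hβ hz1 hz0 (by rw [LinearMap.flip_apply]; exact hy)
      (by rw [LinearMap.flip_apply]; exact hx)

theorem EX_all (D : DSeq cs L v c z ξ) (hc : 0 ≤ c) (hF : Full cs L z) (j : ℤ) :
    EX cs L z ξ j := by
  have neg : EX cs L z (fun j => - ξ j) j → EX cs L z ξ j := by
    intro h β hβ hz0 hz1 hx hy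
    exact h β hβ hz0 hz1 (by simp [hx]) (by simp [hy])
  rcases (D.root j).cases with h1 | h1 <;> rcases (D.root (j + 1)).cases with h2 | h2
  · exact D.EX_pos hc hF j h1 h2
  · exact neg (D.negate.EX_opp hc hF j (neg_nonpos.mpr h1) (neg_nonneg.mpr h2))
  · exact D.EX_opp hc hF j h1 h2
  · exact neg (D.negate.EX_pos hc hF j (neg_nonneg.mpr h1) (neg_nonneg.mpr h2))

end DSeq

end Pool.Agent.TH107
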