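import Pool.Agent.TH107.Canon

set_option autoImplicit false

namespace Pool.Agent.TH107

open Pool.Agent.Helper741 CoxeterSystem

/-- one Hurwitz move -/
inductive HStep {G : Type*} [Group G] : List G → List G → Prop
  | fwd (a b : List G) (t r : G) : HStep (a ++ t :: r :: b) (a ++ (t * r * t⁻¹) :: t :: b)
  | bwd (a b : List G) (t r : G) : HStep (a ++ (t * r * t⁻¹) :: t :: b) (a ++ t :: r :: b)

/-- Hurwitz equivalence -/
def Hur {G : Type*} [Group G] (l l' : List G) : Prop := Relation.ReflTransGen HStep l l'

section group
variable {G : Type*} [Group G]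

lemma HStep.symm {l l' : List G} (h : HStep l l') : HStep l' l := by
  cases h with
  | fwd a b t r => exact HStep.bwd a b t r
  | bwd a b t r => exact HStep.fwd a b t r

lemma Hur.refl (l : List G) : Hur l l := Relation.ReflTransGen.refl

lemma Hur.trans {l l' l'' : List G} (h : Hur l l') (h' : Hur l' l'') : Hur l l'' :=
  Relation.ReflTransGen.trans h h'

lemma Hur.of_step {l l' : List G} (h : HStep l l') : Hur l l' := Relation.ReflTransGen.single h

lemma Hur.symm {l l' : List G} (h : Hur l l') : Hur l' l := by
  induction h with
  | refl => exact Hur.refl _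
  | tail _ h2 ih => exact (Hur.of_step h2.symm).trans ih

lemma HStep.append {l l' : List G} (h : HStep l l') (c d : List G) :
    HStep (c ++ l ++ d) (c ++ l' ++ d) := by
  cases h with
  | fwd a b t r =>
    have := HStep.fwd (c ++ a) (b ++ d) t r
    simpa using this
  | bwd a b t r =>
    have := HStep.bwd (c ++ a) (b ++ d) t r
    simpa using this

lemma Hur.append {l l' : List G} (h : Hur l l') (c d : List G) :
    Hur (c ++ l ++ d) (c ++ l' ++ d) := by
  induction h with
  | refl => exact Hur.refl _
  | tail _ h2 ih => exact ih.trans (Hur.of_step (h2.append c d))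

lemma Hur.left {l l' : List G} (h : Hur l l') (c : List G) : Hur (c ++ l) (c ++ l') := by
  have := h.append c []
  simpa using this

lemma Hur.right {l l' : List G} (h : Hur l l') (d : List G) : Hur (l ++ d) (l' ++ d) := by
  have := h.append [] d
  simpa using this

lemma Hur.cons {l l' : List G} (h : Hur l l') (c : G) : Hur (c :: l) (c :: l') := by
  have := h.left [c]
  simpa using this

lemma Hur.prod {l l' : List G} (h : Hur l l') : l.prod = l'.prod := by
  induction h with
  | refl => rfl
  | tail _ h2 ih =>
    rw [ih]
    cases h2 with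
    | fwd a b t r => simp [mul_assoc]
    | bwd a b t r => simp [mul_assoc]

lemma Hur.length {l l' : List G} (h : Hur l l') : l.length = l'.length := by
  induction h with
  | refl => rfl
  | tail _ h2 ih =>
    rw [ih]
    cases h2 <;> simp

lemma hur_fwd (t r : G) (b : List G) : Hur (t :: r :: b) ((t * r * t⁻¹) :: t :: b) :=
  Hur.of_step (HStep.fwd [] b t r)

lemma hur_move (L : List G) : ∀ x : G, Hur (L ++ [L.prod⁻¹ * x * L.prod]) (x :: L) := by
  induction L with
  | nil => intro x; simp; exact Hur.refl _
  | cons a L ih =>
    intro x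
    have h1 : (a :: L) ++ [(a :: L).prod⁻¹ * x * (a :: L).prod] =
        a :: (L ++ [L.prod⁻¹ * (a⁻¹ * x * a) * L.prod]) := by
      simp [mul_assoc]
    rw [h1]
    refine ((ih (a⁻¹ * x * a)).cons a).trans ?_
    have h2 := hur_fwd a (a⁻¹ * x * a) L
    have h3 : a * (a⁻¹ * x * a) * a⁻¹ = x := by group
    rw [h3] at h2
    exact h2

lemma hur_move2 (L : List G) (r : G) : Hur (L ++ [r]) (r :: L.map (fun a => r⁻¹ * a * r)) := by
  induction L with
  | nil => exact Hur.refl _
  | cons a L ih =>
    have h1 := ih.cons a
    refine h1.trans ?_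
    have h2 := (hur_fwd r (r⁻¹ * a * r) (L.map (fun a => r⁻¹ * a * r))).symm
    have h3 : r * (r⁻¹ * a * r) * r⁻¹ = a := by group
    rw [h3] at h2
    exact h2

lemma hur_move3 (L : List G) (t : G) : Hur (t :: L) (L.map (fun a => t * a * t⁻¹) ++ [t]) := by
  induction L with
  | nil => exact Hur.refl _
  | cons a L ih =>
    have h2 := hur_fwd t a L
    refine h2.trans ?_
    exact ih.cons (t * a * t⁻¹)

lemma hur_pair {t u : G} (ht : t * t = 1) (hu : u * u = 1) (k : ℤ) :
    Hur [t, u] [(t * u) ^ k * t, (t * u) ^ (k - 1) * t] := by
  have step : ∀ k : ℤ, Hur [(t * u) ^ k * t, (t * u) ^ (k - 1) * t]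
      [(t * u) ^ (k + 1) * t, (t * u) ^ k * t] := by
    intro k
    have h := hur_fwd ((t * u) ^ k * t) ((t * u) ^ (k - 1) * t) []
    have e : (t * u) ^ k * t * ((t * u) ^ (k - 1) * t) * ((t * u) ^ k * t)⁻¹ =
        (t * u) ^ (k + 1) * t := by
      have e1 := inv_conj_zpow ht hu (k - 1)
      have ht' : t⁻¹ = t := inv_eq_of_mul_eq_one_left ht
      have e2 := inv_conj_zpow ht hu (-k)
      rw [mul_inv_rev, ← zpow_neg, ht']
      calc (t * u) ^ k * t * ((t * u) ^ (k - 1) * t) * (t * (t * u) ^ (-k))
          = (t * u) ^ k * (t * (t * u) ^ (k - 1)) * (t * t) * (t * u) ^ (-k) := by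
            simp only [mul_assoc]
        _ = (t * u) ^ k * ((t * u) ^ (-(k - 1)) * t) * (t * u) ^ (-k) := by rw [ht, e1, mul_one]
        _ = (t * u) ^ k * (t * u) ^ (-(k - 1)) * (t * (t * u) ^ (-k)) := by simp only [mul_assoc]
        _ = (t * u) ^ (k + 1) * t := by
            rw [e2, ← mul_assoc, ← zpow_add, ← zpow_add]
            congr 2
            ring
    rw [e] at h
    exact h
  have base : Hur [t, u] [(t * u) ^ (0 : ℤ) * t, (t * u) ^ ((0 : ℤ) - 1) * t] := by
    have ht' : t⁻¹ = t := inv_eq_of_mul_eq_one_left ht
    have hu' : u⁻¹ = u := inv_eq_of_mul_eq_one_left hu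
    have e : (t * u) ^ ((0 : ℤ) - 1) * t = u := by
      rw [zero_sub, zpow_neg, zpow_one, mul_inv_rev, ht', hu', mul_assoc, ht, mul_one]
    rw [e, zpow_zero, one_mul]
    exact Hur.refl _
  induction k using Int.induction_on with
  | zero => exact base
  | succ n ih =>
    have := ih.trans (step n)
    rw [add_sub_cancel_right]
    exact this
  | pred n ih =>
    have h1 := (step (-(n : ℤ) - 1)).symm
    rw [sub_add_cancel] at h1
    exact ih.trans h1

end group

variable {B : Type*} {M : CoxeterMatrix B}
variable {W : Type*} [Group W] {cs : CoxeterSystem M W}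

lemma Hur.refls {l l' : List W} (h : Hur l l') (hl : ∀ t ∈ l, cs.IsReflection t) :
    ∀ t ∈ l', cs.IsReflection t := by
  induction h with
  | refl => exact hl
  | tail _ h2 ih =>
    cases h2 with
    | fwd a b t r =>
      intro x hx
      simp only [List.mem_append, List.mem_cons] at hx ih
      rcases hx with hx | hx | hx | hx
      · exact ih x (Or.inl hx)
      · rw [hx]; exact (ih r (by simp)).conj t
      · rw [hx]; exact ih t (by simp)
      · exact ih x (by simp [hx])
    | bwd a b t r =>
      intro x hx
      simp only [List.mem_append, List.mem_cons] at hx ih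
      rcases hx with hx | hx | hx | hx
      · exact ih x (Or.inl hx)
      · rw [hx]; exact ih t (by simp)
      · rw [hx]
        have := (ih (t * r * t⁻¹) (by simp)).conj t⁻¹
        have e : t⁻¹ * (t * r * t⁻¹) * t⁻¹⁻¹ = r := by group
        rwa [e] at this
      · exact ih x (by simp [hx])

variable (cs)

/-- the sum of lengths along a path -/
noncomputable def plen : W → List W → ℕ
  | x, [] => cs.length x
  | x, t :: g => cs.length x + plen (x * t) g

/-- no peak along the path -/
def nopeak : W → List W → Prop
  | _, [] => True
  | _, [_] => True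
  | x, t :: u :: g => ¬ (cs.length x < cs.length (x * t) ∧ cs.length (x * t * u) < cs.length (x * t)) ∧
      nopeak (x * t) (u :: g)

/-- increasing path -/
def upp : W → List W → Prop
  | _, [] => True
  | x, t :: g => cs.length x < cs.length (x * t) ∧ upp (x * t) g

variable {cs}

lemma exists_peak (f : List W) : ∀ x, ¬ nopeak cs x f →
    ∃ a t u b, f = a ++ t :: u :: b ∧ cs.length (x * a.prod) < cs.length (x * a.prod * t) ∧
      cs.length (x * a.prod * t * u) < cs.length (x * a.prod * t) := by
  induction f with
  | nil => intro x h; simp [nopeak] at h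
  | cons t f ih =>
    intro x h
    match f with
    | [] => simp [nopeak] at h
    | u :: g =>
      rw [nopeak] at h
      by_cases h1 : cs.length x < cs.length (x * t) ∧ cs.length (x * t * u) < cs.length (x * t)
      · exact ⟨[], t, u, g, rfl, by simpa using h1.1, by simpa using h1.2⟩
      · have h2 : ¬ nopeak cs (x * t) (u :: g) := fun h3 => h ⟨h1, h3⟩
        obtain ⟨a, t', u', b, e, h3, h4⟩ := ih (x * t) h2
        refine ⟨t :: a, t', u', b, by rw [e]; rfl, ?_, ?_⟩
        · simpa [mul_assoc] using h3
        · simpa [mul_assoc] using h4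

lemma plen_lt (a : List W) : ∀ (x : W) (f f' : List W), plen cs (x * a.prod) f < plen cs (x * a.prod) f' →
    plen cs x (a ++ f) < plen cs x (a ++ f') := by
  induction a with
  | nil => intro x f f' h; simpa using h
  | cons t a ih =>
    intro x f f' h
    simp only [List.cons_append, plen]
    have := ih (x * t) f f' (by simpa [mul_assoc] using h)
    omega

lemma upp_last (g : List W) : ∀ (x r : W), upp cs x (g ++ [r]) →
    cs.length (x * g.prod) < cs.length (x * g.prod * r) := by
  induction g with
  | nil => intro x r h; simpa [upp] using h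
  | cons t g ih =>
    intro x r h
    have := ih (x * t) r h.2
    simpa [mul_assoc] using this

lemma upp_count (g : List W) : ∀ (x : W), upp cs x g → cs.length x + g.length ≤ cs.length (x * g.prod) := by
  induction g with
  | nil => intro x _; simp
  | cons t g ih =>
    intro x h
    have h1 := ih (x * t) h.2
    have h2 := h.1
    simp only [List.length_cons, List.prod_cons]
    rw [← mul_assoc]
    omega

lemma nopeak_up (g : List W) : ∀ (x t : W), (∀ u ∈ g, cs.IsReflection u) → nopeak cs x (t :: g) →
    cs.length x < cs.length (x * t) → upp cs x (t :: g) := by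
  induction g with
  | nil => intro x t _ _ h; exact ⟨h, trivial⟩
  | cons u g ih =>
    intro x t hg h hx
    rw [nopeak] at h
    have h1 : cs.length (x * t) < cs.length (x * t * u) := by
      have h2 : ¬ cs.length (x * t * u) < cs.length (x * t) := fun h3 => h.1 ⟨hx, h3⟩
      have h3 := (hg u (by simp)).length_mul_left_ne (x * t)
      omega
    exact ⟨hx, ih (x * t) u (fun v hv => hg v (by simp [hv])) h.2 h1⟩

variable [Fintype B] [DecidableEq B]

/-- peaks can be eliminated -/
lemma valley (x : W) (f : List W) (hf : ∀ t ∈ f, cs.IsReflection t) :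
    (∃ f', Hur f f' ∧ nopeak cs x f') ∨ ∃ a t b, Hur f (a ++ t :: t :: b) := by
  induction hn : plen cs x f using Nat.strong_induction_on generalizing f with
  | _ n ih =>
  by_cases hp : nopeak cs x f
  · left; exact ⟨f, Hur.refl f, hp⟩
  obtain ⟨a, t, u, b, rfl, h1, h2⟩ := exists_peak f x hp
  have ht : cs.IsReflection t := hf t (by simp)
  have hu : cs.IsReflection u := hf u (by simp)
  by_cases htu : t = u
  · right; subst htu; exact ⟨a, t, b, Hur.refl _⟩
  obtain ⟨k, hk⟩ := peak_elim ht hu htu (x * a.prod)
  have hpair := hur_pair ht.mul_self hu.mul_self k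
  have hH : Hur (a ++ t :: u :: b)
      (a ++ ((t * u) ^ k * t) :: ((t * u) ^ (k - 1) * t) :: b) := by
    have := hpair.append a b
    simpa using this
  have hprod := hpair.prod
  simp only [List.prod_cons, List.prod_nil, mul_one] at hprod
  have hlt : plen cs x (a ++ ((t * u) ^ k * t) :: ((t * u) ^ (k - 1) * t) :: b) < n := by
    rw [← hn]
    apply plen_lt
    simp only [plen]
    rw [mul_assoc (x * a.prod) ((t * u) ^ k * t), ← hprod]
    rw [← mul_assoc] at hk
    rw [← mul_assoc]
    rw [← mul_assoc] at hk
    rw [← mul_assoc]
    have h3 : cs.length (x * a.prod * ((t * u) ^ k) * t) < cs.length (x * a.prod * t) := by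
      rcases hk with hk | hk <;> omega
    omega
  rcases ih _ hlt _ (hH.refls hf) rfl with ⟨f', h3, h4⟩ | ⟨a', t', b', h3⟩
  · left; exact ⟨f', hH.trans h3, h4⟩
  · right; exact ⟨a', t', b', hH.trans h3⟩

lemma geo_wordProd_coord (ω : List B) (v : B → ℝ) {j : B} (hj : j ∉ ω) :
    geo cs (cs.wordProd ω) v j = v j := by
  induction ω with
  | nil => simp
  | cons i ω ih =>
    simp only [List.mem_cons, not_or] at hj
    rw [wordProd_cons, ← geo_geo, geo_simple, sg_apply]
    simp only [Pi.sub_apply, Pi.smul_apply, ee, Pi.single_apply, hj.1, if_false, smul_eq_mul,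
      mul_zero, sub_zero]
    exact ih hj.2

lemma wordProd_ne_one {i : B} {l : List B} (h : (i :: l).Nodup) : cs.wordProd (i :: l) ≠ 1 := by
  intro h1
  rw [wordProd_cons] at h1
  have h2 : cs.wordProd l = cs.simple i := by
    have := congrArg (fun z => cs.simple i * z) h1
    simpa using this
  have h3 := geo_wordProd_coord (cs := cs) l (ee i) (List.nodup_cons.mp h).1
  rw [h2, geo_simple, sg_ee_self] at h3
  simp [ee] at h3
  norm_num at h3

/-- Hurwitz transitivity and reflection length of Coxeter elements -/
theorem hurH (n : ℕ) : ∀ l : List B, l.length = n → l.Nodup → ∀ f : List W,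
    (∀ t ∈ f, cs.IsReflection t) → f.prod = cs.wordProd l →
    l.length ≤ f.length ∧ (f.length = l.length → Hur f (l.map cs.simple)) := by
  induction n using Nat.strong_induction_on with
  | _ n ihn =>
  intro l hln hl f
  induction hm : f.length using Nat.strong_induction_on generalizing f with
  | _ m ihm =>
  intro hf hprod
  rcases valley 1 f hf with ⟨f', hH, hnp⟩ | ⟨a, t, b, hH⟩
  · have hf' := hH.refls hf
    rw [hH.prod] at hprod
    rw [hH.length] at hm
    have key : l.length ≤ f'.length ∧ (f'.length = l.length → Hur f' (l.map cs.simple)) := by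
      rcases List.eq_nil_or_concat f' with rfl | ⟨g, r, rfl⟩
      · match l, hl with
        | [], _ => simp; exact Hur.refl _
        | i :: l, hl =>
          exact absurd (by simpa using hprod.symm) (wordProd_ne_one (cs := cs) hl)
      · rw [List.concat_eq_append] at *
        have hr : cs.IsReflection r := hf' r (by simp)
        have hup : upp cs 1 (g ++ [r]) := by
          match g with
          | [] =>
            simp only [List.nil_append, upp, and_true]
            have := hr.length_mul_left_ne 1
            rw [cs.length_one] at this ⊢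
            omega
          | t :: g =>
            apply nopeak_up _ _ _ _ hnp
            · have ht : cs.IsReflection t := hf' t (by simp)
              have := ht.length_mul_left_ne 1
              rw [cs.length_one] at this ⊢
              omega
            · intro u hu
              exact hf' u (by simp only [List.cons_append, List.mem_cons]; exact Or.inr hu)
        have h1 := upp_last g 1 r hup
        rw [one_mul] at h1
        have h2 : g.prod * r = cs.wordProd l := by simpa using hprod
        have h3 : g.prod = cs.wordProd l * r := by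
          rw [← h2, mul_assoc, hr.mul_self, mul_one]
        rw [h2, h3, length_gt_iff hr] at h1
        obtain ⟨ω₁, i, ω₂, hω, h4⟩ := word_split l (rt_PR hr) h1
        obtain ⟨h5, h6⟩ := wordProd_erase (ω₁ := ω₁) hr h4
        rw [← hω, ← h3] at h6
        have hnd : (ω₁ ++ ω₂).Nodup := by
          rw [hω] at hl
          exact hl.sublist (by simp)
        have hlen : (ω₁ ++ ω₂).length + 1 = l.length := by rw [hω]; simp; omega
        obtain ⟨h7, h8⟩ := ihn (ω₁ ++ ω₂).length (by omega) (ω₁ ++ ω₂) rfl hnd g
          (fun t ht => hf' t (by simp [ht])) h6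
        refine ⟨by simp; omega, fun h9 => ?_⟩
        have h10 := h8 (by simp at h9; omega)
        refine (h10.right [r]).trans ?_
        rw [h5, hω, List.map_append, List.map_append, List.map_cons, List.append_assoc]
        exact (hur_move (ω₂.map cs.simple) (cs.simple i)).left _
    rw [hm] at key
    exact ⟨key.1, fun h => hH.trans (key.2 h)⟩
  · have hf' := hH.refls hf
    rw [hH.prod] at hprod
    have ht : cs.IsReflection t := hf' t (by simp)
    have hprod' : (a ++ b).prod = cs.wordProd l := by
      rw [← hprod]
      simp only [List.prod_append, List.prod_cons]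
      rw [← mul_assoc t t, ht.mul_self, one_mul]
    have hlen := hH.length
    simp only [List.length_append, List.length_cons] at hlen
    have h1 := (ihm (a ++ b).length (by simp; omega) (a ++ b) rfl
      (fun u hu => hf' u (by simp only [List.mem_append, List.mem_cons] at hu ⊢; tauto)) hprod').1
    simp only [List.length_append] at h1
    exact ⟨by omega, fun h => by omega⟩

end Pool.Agent.TH107
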