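import Pool.Agent.TH107.Plane

set_option autoImplicit false

namespace Pool.Agent.TH107

open Pool.Agent.Helper741 CoxeterSystem

variable {B : Type*} {M : CoxeterMatrix B} [Fintype B] [DecidableEq B]
variable {W : Type*} [Group W] {cs : CoxeterSystem M W}

namespace DSeq

variable {L : Bil B} {v : W} {c : ℝ} {z : ℤ → W} {ξ : ℤ → B → ℝ}

lemma L_up' (D : DSeq cs L v c z ξ) (i j : ℤ) (n : ℕ) (h : j = i + n) :
    L (ξ i) (ξ j) = Sn c (n + 1) := by rw [h]; exact D.L_up i n

lemma L_down' (D : DSeq cs L v c z ξ) (i j : ℤ) (n : ℕ) (h : j = i + n + 1) :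
    L (ξ j) (ξ i) = - Sn c n := by rw [h]; exact D.L_down i n

/-- positivity of the Chebyshev numbers along a run of positive roots -/
lemma Spos (D : DSeq cs L v c z ξ) (hc : 0 ≤ c) (hneg : ξ (-1) ≤ 0)
    (Gp : GG cs L (z (-1)) (-ξ (-1))) (K : ℕ) :
    (∀ j : ℕ, j ≤ K → 0 ≤ ξ (j : ℤ)) →
    (∀ j : ℕ, j ≤ K → 0 ≤ Sn c (j + 1)) ∧ (∀ j : ℕ, j < K → 0 < Sn c (j + 1)) := by
  induction K with
  | zero =>
    intro _
    refine ⟨fun j hj => ?_, fun j hj => absurd hj (by omega)⟩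
    have : j = 0 := by omega
    subst this; simp
  | succ K ih =>
    intro hpos
    obtain ⟨h1, h2⟩ := ih (fun j hj => hpos j (by omega))
    have hK1 : 0 < Sn c (K + 1) := by
      rcases (h1 K le_rfl).lt_or_eq with h | h
      · exact h
      · exfalso
        match K, h, h1, h2, hpos with
        | 0, h, _, _, _ => simp at h
        | (K' + 1), h, h1, h2, hpos =>
          have h3 := D.xi_nat (K' + 1 + 1)
          rw [← h, zero_smul, sub_zero, Sn_add_two c (K' + 1), ← h, mul_zero, zero_sub] at h3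
          have h4 := h2 K' (by omega)
          have h5 := hpos (K' + 1 + 1) le_rfl
          have h6 : ξ ((K' + 1 + 1 : ℕ) : ℤ) ≤ 0 := by
            rw [h3, neg_smul]
            exact neg_nonpos.mpr (smul_nonneg h4.le (by simpa using hpos 0 (by omega)))
          exact (D.root _).not_both h5 h6
    have hK2 : 0 ≤ Sn c (K + 2) := by
      by_contra hcon
      push Not at hcon
      have hS3 : Sn c (K + 3) < 0 := by
        rw [Sn_add_two c (K + 1)]
        have : c * Sn c (K + 1 + 1) ≤ 0 := mul_nonpos_of_nonneg_of_nonpos hc hcon.le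
        linarith
      have hβ : PR cs (ξ ((K + 1 : ℕ) : ℤ)) := ⟨D.root _, hpos _ le_rfl⟩
      have hpβ : geo cs (z (-1)) (ξ ((K + 1 : ℕ) : ℤ)) ≤ 0 := by
        rw [D.refl_act]
        have e : (2 : ℤ) * -1 - ((K + 1 : ℕ) : ℤ) = -1 - ((K + 2 : ℕ) : ℤ) := by push_cast; ring
        rw [e, D.xi_neg]
        have e1 : 0 ≤ Sn c (K + 2 + 1) • ξ (-1) := smul_nonneg_of_nonpos_of_nonpos hS3.le hneg
        have e2 : Sn c (K + 2) • ξ 0 ≤ 0 :=
          smul_nonpos_of_nonpos_of_nonneg hcon.le (by simpa using hpos 0 (by omega))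
        have e3 : -(Sn c (K + 2 + 1) • ξ (-1) - Sn c (K + 2) • ξ 0) =
          Sn c (K + 2) • ξ 0 - Sn c (K + 2 + 1) • ξ (-1) := by module
        rw [e3]
        exact sub_nonpos_of_le (e2.trans e1)
      have hl1 : L (ξ (-1)) (ξ ((K + 1 : ℕ) : ℤ)) = Sn c (K + 3) :=
        D.L_up' _ _ (K + 2) (by push_cast; ring)
      have hl2 : L (ξ ((K + 1 : ℕ) : ℤ)) (ξ (-1)) = - Sn c (K + 1) :=
        D.L_down' _ _ (K + 1) (by push_cast; ring)
      have hne : ξ ((K + 1 : ℕ) : ℤ) ≠ - ξ (-1) := by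
        intro h
        have h3 := D.xi_nat (K + 1)
        rw [h] at h3
        have h4 : L (ξ (-1)) (- ξ (-1)) = -1 := by rw [map_neg, D.L_self]
        have h5 := hl1
        rw [h, h4] at h5
        have h6 := hl2
        rw [h, map_neg, LinearMap.neg_apply, D.L_self] at h6
        have h7 : Sn c (K + 1) = 1 := by linarith
        have h8 : Sn c (K + 2) • ξ 0 = 0 := by
          have : Sn c (K + 1 + 1) • ξ 0 = - ξ (-1) + Sn c (K + 1) • ξ (-1) := by
            rw [h3]; module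
          rw [this, h7]; module
        rcases smul_eq_zero.mp h8 with h9 | h9
        · exact hcon.ne h9
        · exact (D.root 0).ne_zero h9
      rcases Gp _ hβ hpβ hne with h | h
      · rw [map_neg, LinearMap.neg_apply, hl1] at h; linarith
      · rw [map_neg, hl2] at h; linarith
    constructor
    · intro j hj
      rcases Nat.lt_or_ge j (K + 1) with h | h
      · exact h1 j (by omega)
      · have : j = K + 1 := by omega
        subst this; exact hK2
    · intro j hj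
      rcases Nat.lt_or_ge j K with h | h
      · exact h2 j h
      · have : j = K := by omega
        subst this; exact hK1

lemma z_nat (D : DSeq cs L v c z ξ) (m : ℕ) : z (m : ℤ) = z 0 * v ^ m := by
  induction m with
  | zero => simp
  | succ m ih =>
    have e : ((m + 1 : ℕ) : ℤ) = (m : ℤ) + 1 := by push_cast; ring
    rw [e, D.z_succ, ih, pow_succ, mul_assoc]

lemma bil_vpow (D : DSeq cs L v c z ξ) (j : ℤ) (m : ℕ) (y : B → ℝ) :
    bil M (ξ j) (geo cs (v ^ m) y) = bil M (ξ (j + 2 * m)) y := by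
  induction m generalizing j with
  | zero => simp
  | succ m ih =>
    rw [pow_succ', ← geo_geo, bil_symm, D.bil_v, bil_symm, ih]
    congr 2; omega

/-- the sequence of images of a vector -/
noncomputable def dl (M : CoxeterMatrix B) (ξ : ℤ → B → ℝ) (β : B → ℝ) : ℕ → B → ℝ
  | 0 => β
  | (n + 1) => dl M ξ β n - bil M (ξ (n : ℤ)) β • (if Even n then ξ 0 else - ξ (-1))

lemma dl_spec (D : DSeq cs L v c z ξ) (β : B → ℝ) (m : ℕ) :
    dl M ξ β (2 * m) = geo cs (v ^ m) β ∧ dl M ξ β (2 * m + 1) = geo cs (z (m : ℤ)) β := by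
  induction m with
  | zero =>
    refine ⟨by simp [dl], ?_⟩
    simp only [dl, Nat.mul_zero, Nat.cast_zero, Even.zero, if_true]
    rw [D.act]
  | succ m ih =>
    have h1 : dl M ξ β (2 * (m + 1)) = geo cs (v ^ (m + 1)) β := by
      have e : 2 * (m + 1) = 2 * m + 1 + 1 := by ring
      rw [e, dl]
      have hodd : ¬ Even (2 * m + 1) := by simp
      simp only [hodd, if_false]
      rw [ih.2]
      have e2 : v ^ (m + 1) = z (-1) * z (m : ℤ) := by
        rw [D.z_nat, ← mul_assoc]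
        have := D.mul (-1)
        have e3 : (-1 : ℤ) + 1 = 0 := by norm_num
        rw [e3] at this
        rw [this, pow_succ']
      rw [e2, ← geo_geo, D.act (-1)]
      have h3 : bil M (ξ (-1)) (geo cs (z (m : ℤ)) β) = - bil M (ξ ((2 * m + 1 : ℕ) : ℤ)) β := by
        have e5 : (2 * (m : ℤ) - -1) = ((2 * m + 1 : ℕ) : ℤ) := by omega
        rw [← bil_geo cs (z (m : ℤ)), geo_geo, (D.refl _).mul_self, map_one, Module.End.one_apply,
          D.refl_act, bil_neg_left, e5]
      rw [h3]; module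
    refine ⟨h1, ?_⟩
    rw [dl, h1]
    have heven : Even (2 * (m + 1)) := even_two_mul _
    simp only [heven, if_true]
    have e4 : geo cs (z ((m + 1 : ℕ) : ℤ)) β = geo cs (z 0) (geo cs (v ^ (m + 1)) β) := by
      rw [D.z_nat, ← geo_geo]
    have e6 : (0 : ℤ) + 2 * ((m + 1 : ℕ) : ℤ) = ((2 * (m + 1) : ℕ) : ℤ) := by omega
    rw [e4, D.act 0, D.bil_vpow, e6]

/-- interval property -/
lemma interval (D : DSeq cs L v c z ξ) (m : ℕ) (hm : 1 ≤ m) (hneg : ξ (-1) ≤ 0) (h0 : 0 ≤ ξ 0)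
    (hS : ∀ j : ℕ, j ≤ 2 * m + 2 → 0 ≤ Sn c j) (hS' : ∀ j : ℕ, 1 ≤ j → j ≤ 2 * m + 2 → 0 < Sn c j)
    {β : B → ℝ} (hβ : PR cs β) (hk : geo cs (z ((m + 1 : ℕ) : ℤ)) β ≤ 0)
    (hstart : geo cs (z 0) β ≤ 0 ∨ geo cs v β ≤ 0) : geo cs (z (m : ℤ)) β ≤ 0 := by
  by_contra hcon
  have hpos : 0 ≤ geo cs (z (m : ℤ)) β := ((hβ.root.geo _).not_nonpos).mp hcon
  set b : ℕ → ℝ := fun n => bil M (ξ (n : ℤ)) β with hb
  set δ : ℕ → (B → ℝ) := dl M ξ β with hδ
  have hδm := D.dl_spec β m
  have hδm1 := D.dl_spec β (m + 1)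
  have hη : ∀ n : ℕ, 0 ≤ (if Even n then ξ 0 else - ξ (-1)) := by
    intro n; split_ifs
    · exact h0
    · exact neg_nonneg.mpr hneg
  have hstep : ∀ n, δ (n + 1) = δ n - b n • (if Even n then ξ 0 else - ξ (-1)) := fun n => rfl
  have hroot : ∀ n, IsRt cs (δ n) := by
    intro n
    rcases Nat.even_or_odd' n with ⟨a, rfl | rfl⟩
    · rw [hδ, (D.dl_spec β a).1]; exact hβ.root.geo _
    · rw [hδ, (D.dl_spec β a).2]; exact hβ.root.geo _
  -- a sign change from + to - forces positivity of b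
  have hbpos : ∀ n, 0 ≤ δ n → δ (n + 1) ≤ 0 → 0 < b n := by
    intro n h1 h2
    by_contra h3
    push Not at h3
    have h4 : 0 ≤ δ (n + 1) := by
      rw [hstep]
      have : b n • (if Even n then ξ 0 else - ξ (-1)) ≤ 0 :=
        smul_nonpos_of_nonpos_of_nonneg h3 (hη n)
      exact sub_nonneg_of_le (this.trans h1)
    exact (hroot (n + 1)).not_both h4 h2
  obtain ⟨i, hi2, hi0, hi1⟩ : ∃ i : ℕ, i ≤ 1 ∧ 0 < b i ∧ δ (i + 1) ≤ 0 := by
    have d0 : 0 ≤ δ 0 := hβ.pos
    have d1 : δ 1 = geo cs (z 0) β := by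
      have := (D.dl_spec β 0).2; simpa using this
    have d2 : δ 2 = geo cs v β := by
      have := (D.dl_spec β 1).1; simpa using this
    by_cases h1 : geo cs (z 0) β ≤ 0
    · refine ⟨0, by omega, hbpos 0 d0 ?_, ?_⟩ <;> (rw [zero_add, d1]; exact h1)
    · have h2 : geo cs v β ≤ 0 := hstart.resolve_left h1
      have h3 : 0 ≤ δ 1 := by rw [d1]; exact ((hβ.root.geo _).not_nonpos).mp h1
      refine ⟨1, le_rfl, hbpos 1 h3 ?_, ?_⟩ <;> (show δ 2 ≤ 0; rw [d2]; exact h2)
  obtain ⟨j, hj1, hj2, hjb⟩ : ∃ j : ℕ, 2 * m + 1 ≤ j ∧ j ≤ 2 * m + 2 ∧ 0 < b j := by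
    have d1 : 0 ≤ δ (2 * m + 1) := by rw [hδ, hδm.2]; exact hpos
    have d3 : δ (2 * m + 3) ≤ 0 := by
      have := hδm1.2
      have e : 2 * (m + 1) + 1 = 2 * m + 3 := by ring
      rw [e] at this
      rw [hδ, this]; exact hk
    rcases (hroot (2 * m + 2)).cases with h | h
    · exact ⟨2 * m + 2, by omega, le_rfl, hbpos _ h d3⟩
    · exact ⟨2 * m + 1, le_rfl, by omega, hbpos _ d1 h⟩
  have hbmid : ∀ n : ℕ, i ≤ n → n ≤ j → 0 ≤ b n := by
    intro n hn1 hn2
    have hlin : ∀ x : B → ℝ, True := fun _ => trivial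
    have hx : ∀ k : ℤ, bil M (ξ (k + 1)) β = c • bil M (ξ k) β - bil M (ξ (k - 1)) β := by
      intro k
      rw [D.recu, bil_sub_left, bil_smul_left, smul_eq_mul]
    have h1 := Sn_formula (x := fun k => bil M (ξ k) β) hx i (n - i) (j - n)
    simp only [smul_eq_mul] at h1
    have e1 : n - i + (j - n) = j - i := by omega
    have e2 : (i : ℤ) + ((n - i : ℕ) : ℤ) = (n : ℤ) := by omega
    have e3 : (n : ℤ) + ((j - n : ℕ) : ℤ) = (j : ℤ) := by omega
    rw [e1, e2, e3] at h1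
    have h2 : 0 < Sn c (j - i) := hS' _ (by omega) (by omega)
    have h3 : 0 ≤ Sn c (j - n) := hS _ (by omega)
    have h4 : 0 ≤ Sn c (n - i) := hS _ (by omega)
    have h5 : 0 ≤ Sn c (j - i) * b n := by
      change Sn c (j - i) * b n = Sn c (j - n) * b i + Sn c (n - i) * b j at h1
      rw [h1]
      exact add_nonneg (mul_nonneg h3 hi0.le) (mul_nonneg h4 hjb.le)
    exact nonneg_of_mul_nonneg_right h5 h2
  have hmono : ∀ n : ℕ, i + 1 ≤ n → n ≤ j + 1 → δ n ≤ 0 := by
    intro n hn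
    induction n, hn using Nat.le_induction with
    | base => intro _; exact hi1
    | succ n hn ih =>
      intro h
      have h1 := ih (by omega)
      rw [hstep]
      have h2 : 0 ≤ b n • (if Even n then ξ 0 else - ξ (-1)) :=
        smul_nonneg (hbmid n (by omega) (by omega)) (hη n)
      exact sub_nonpos_of_le (h1.trans h2)
  have hfin := hmono (2 * m + 1) (by omega) (by omega)
  have hd : 0 ≤ δ (2 * m + 1) := by rw [hδ, hδm.2]; exact hpos
  exact (hroot _).not_both hd hfin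

end DSeq

end Pool.Agent.TH107
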