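import Pool.Agent.TH107.PL

set_option autoImplicit false

namespace Pool.Agent.TH107

open Pool.Agent.Helper741 CoxeterSystem

variable {B : Type*} {M : CoxeterMatrix B} [Fintype B] [DecidableEq B]
variable {W : Type*} [Group W] {cs : CoxeterSystem M W}

namespace DSeq

variable {L : Bil B} {v : W} {c : ℝ} {z : ℤ → W} {ξ : ℤ → B → ℝ}

lemma lam_refl (D : DSeq cs L v c z ξ) {lam : (B → ℝ) →ₗ[ℝ] ℝ} (h : ∀ j, lam (ξ j) = 0)
    (j : ℤ) (y : B → ℝ) : lam (geo cs (z j) y) = lam y := by
  rw [D.act, map_sub, map_smul, h, smul_zero, sub_zero]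

lemma lam_v (D : DSeq cs L v c z ξ) {lam : (B → ℝ) →ₗ[ℝ] ℝ} (h : ∀ j, lam (ξ j) = 0)
    (y : B → ℝ) : lam (geo cs v y) = lam y := by
  rw [← D.mul 0, ← geo_geo, D.lam_refl h, D.lam_refl h]

lemma c_nonneg (D : DSeq cs L v c z ξ) (h0 : 0 ≤ ξ 0) (h1 : 0 ≤ ξ 1) (h2 : 0 ≤ ξ 2) : 0 ≤ c := by
  by_contra hc
  push Not at hc
  have h3 := D.recu 1
  have e1 : (1 : ℤ) + 1 = 2 := by norm_num
  have e0 : (1 : ℤ) - 1 = 0 := by norm_num
  rw [e1, e0] at h3
  have h4 : c • ξ 1 ≤ 0 := smul_nonpos_of_nonpos_of_nonneg hc.le h1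
  have h5 : ξ 2 ≤ 0 := by
    rw [h3]; exact sub_nonpos_of_le (h4.trans h0)
  exact (D.root 2).not_both h2 h5

/-- the left functional values -/
lemma Lr (D : DSeq cs L v c z ξ) (β : B → ℝ) (n : ℕ) :
    L β (ξ (n : ℤ)) = Sn c (n + 1) * L β (ξ 0) - Sn c n * L β (ξ (-1)) := by
  rw [D.xi_nat, map_sub, map_smul, map_smul, smul_eq_mul, smul_eq_mul]

lemma inj_of (D : DSeq cs L v c z ξ) {i j : ℤ} {β : B → ℝ} (h : geo cs (z i) β = ξ j) :
    β = - ξ (2 * i - j) := by
  apply geo_injective_apply cs (z i)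
  rw [h, map_neg, D.refl_act, neg_neg]; congr 1; ring

theorem main (D : DSeq cs L v c z ξ) (m : ℕ) (hneg : ξ (-1) ≤ 0)
    (hpos : ∀ j : ℕ, j ≤ 2 * m + 2 → 0 ≤ ξ (j : ℤ))
    (Gp : GG cs L (z (-1)) (-ξ (-1))) (Gq : GG cs L (z 0) (ξ 0))
    (Gk : GG cs L (z (m : ℤ)) (ξ (m : ℤ)))
    (Gk2 : 1 ≤ m → GG cs L (z ((m : ℤ) - 1)) (ξ ((m : ℤ) - 1)))
    (Eq : EE cs L (z 0) (ξ 0) (L.flip (ξ (-1))))
    (Ep : EE cs L (z (-1)) (-ξ (-1)) (L (ξ 0)))
    (Ek : EE cs L (z (m : ℤ)) (ξ (m : ℤ)) (L (ξ ((m + 1 : ℕ) : ℤ)))) :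
    GG cs L (z ((m + 1 : ℕ) : ℤ)) (ξ ((m + 1 : ℕ) : ℤ)) ∧
    ∀ lam : (B → ℝ) →ₗ[ℝ] ℝ, (∀ j, lam (ξ j) = 0) → EE cs L (z 0) (ξ 0) lam →
      EE cs L (z (-1)) (-ξ (-1)) lam → EE cs L (z (m : ℤ)) (ξ (m : ℤ)) lam →
      EE cs L (z ((m + 1 : ℕ) : ℤ)) (ξ ((m + 1 : ℕ) : ℤ)) lam := by
  have hpos0 : 0 ≤ ξ 0 := by simpa using hpos 0 (by omega)
  have hpos1 : 0 ≤ ξ 1 := by simpa using hpos 1 (by omega)
  have hpos2 : 0 ≤ ξ 2 := by simpa using hpos 2 (by omega)
  have hc : 0 ≤ c := D.c_nonneg hpos0 hpos1 hpos2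
  obtain ⟨hS1, hS2⟩ := D.Spos hc hneg Gp (2 * m + 2) hpos
  have hS' : ∀ j : ℕ, 1 ≤ j → j ≤ 2 * m + 2 → 0 < Sn c j := by
    intro j h1 h2
    obtain ⟨i, rfl⟩ : ∃ i, j = i + 1 := ⟨j - 1, by omega⟩
    exact hS2 i (by omega)
  have hS : ∀ j : ℕ, j ≤ 2 * m + 2 → 0 ≤ Sn c j := by
    intro j h2
    rcases Nat.eq_zero_or_pos j with rfl | h1
    · simp
    · exact (hS' j h1 h2).le
  set k : ℤ := ((m + 1 : ℕ) : ℤ) with hk
  have hkm : k = (m : ℤ) + 1 := by rw [hk]; push_cast; ring
  set Λ : Set ((B → ℝ) →ₗ[ℝ] ℝ) := {lam | (∀ j, lam (ξ j) = 0) ∧ EE cs L (z 0) (ξ 0) lam ∧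
      EE cs L (z (-1)) (-ξ (-1)) lam ∧ EE cs L (z (m : ℤ)) (ξ (m : ℤ)) lam} with hΛ
  set Good : (B → ℝ) → Prop := fun β => (L β (ξ k) ≤ 0 ∧ ∀ lam ∈ Λ, 0 ≤ lam β) ∨
    (L (ξ k) β ≤ 0 ∧ ∀ lam ∈ Λ, lam β ≤ 0) with hGood
  have hposk : 0 ≤ ξ k := hpos (m + 1) (by omega)
  have hposm : 0 ≤ ξ (m : ℤ) := hpos m (by omega)
  have bilpos : ∀ (j : ℤ), 0 ≤ ξ j → ∀ β, PR cs β → geo cs (z j) β ≤ 0 →
      0 < L (ξ j) β + L β (ξ j) := by
    intro j hj β hβ h
    rw [D.sym]
    exact bil_pos_of_inv (D.act j) hj hβ h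
  -- zero functional case
  have good_zero : ∀ β, (∀ lam ∈ Λ, lam β = 0) → (L β (ξ k) ≤ 0 ∨ L (ξ k) β ≤ 0) → Good β := by
    intro β h0 h1
    rcases h1 with h1 | h1
    · left; exact ⟨h1, fun lam hl => (h0 lam hl).ge⟩
    · right; exact ⟨h1, fun lam hl => (h0 lam hl).le⟩
  -- the core case
  have core : ∀ β, PR cs β → geo cs (z k) β ≤ 0 → β ≠ ξ k →
      (geo cs (z 0) β ≤ 0 ∨ geo cs v β ≤ 0) → Good β := by
    intro β hβ hz hne hstart
    have hzm : geo cs (z (m : ℤ)) β ≤ 0 ∨ (m = 0 ∧ 0 ≤ geo cs (z 0) β) := by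
      by_cases hm : 1 ≤ m
      · left; exact D.interval m hm hneg hpos0 hS hS' hβ hz hstart
      · have hm0 : m = 0 := by omega
        subst hm0
        rcases (hβ.root.geo (z 0)).cases with h | h
        · right; exact ⟨rfl, h⟩
        · left; simpa using h
    have hEk : β ≠ ξ (m : ℤ) → geo cs (z (m : ℤ)) β ≤ 0 → 0 < L β (ξ (m : ℤ)) →
        L (ξ k) β ≤ 0 := by
      intro h1 h2 h3
      have h4 : L (ξ (m : ℤ)) β ≤ 0 := by
        rcases Gk β hβ h2 h1 with h | h
        · exact h
        · linarith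
      exact (Ek β hβ h2 h1).2 h4
    have hEk0 : β = ξ (m : ℤ) → L (ξ k) β ≤ 0 := by
      intro h; rw [h, hkm, D.orth]
    by_cases hq : geo cs (z 0) β ≤ 0
    · -- case a = 1
      by_cases hb0 : β = ξ 0
      · apply good_zero
        · intro lam hl; rw [hb0]; exact hl.1 0
        · right
          rw [hb0, D.L_down' 0 k m (by rw [hkm]; ring)]
          have := hS m (by omega)
          linarith
      · have hzm' : geo cs (z (m : ℤ)) β ≤ 0 := by
          rcases hzm with h | ⟨h, h2⟩
          · exact h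
          · exact ((hβ.root.geo (z 0)).not_both h2 hq).elim
        have hbp := bilpos 0 hpos0 β hβ hq
        by_cases ht : 0 < L (ξ 0) β
        · left
          have h1 : L β (ξ 0) ≤ 0 := by
            rcases Gq β hβ hq hb0 with h | h
            · linarith
            · exact h
          have h2 := (Eq β hβ hq hb0).1 ht
          rw [LinearMap.flip_apply] at h2
          refine ⟨?_, fun lam hl => (hl.2.1 β hβ hq hb0).1 ht⟩
          rw [hk, D.Lr]
          have h3 := hS' (m + 1 + 1) (by omega) (by omega)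
          have h4 := hS' (m + 1) (by omega) (by omega)
          have h5 : Sn c (m + 1 + 1) * L β (ξ 0) ≤ 0 := mul_nonpos_of_nonneg_of_nonpos h3.le h1
          have h6 : 0 ≤ Sn c (m + 1) * L β (ξ (-1)) := mul_nonneg h4.le h2
          linarith
        · push Not at ht
          right
          have h1 : 0 < L β (ξ 0) := by linarith
          have h2 := (Eq β hβ hq hb0).2 ht
          rw [LinearMap.flip_apply] at h2
          refine ⟨?_, fun lam hl => (hl.2.1 β hβ hq hb0).2 ht⟩
          by_cases hbm : β = ξ (m : ℤ)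
          · exact hEk0 hbm
          · apply hEk hbm hzm'
            rw [D.Lr]
            have h4 := hS' (m + 1) (by omega) (by omega)
            have h5 := hS m (by omega)
            have h6 : 0 < Sn c (m + 1) * L β (ξ 0) := mul_pos h4 h1
            have h7 : Sn c m * L β (ξ (-1)) ≤ 0 := mul_nonpos_of_nonneg_of_nonpos h5 h2
            linarith
    · -- case a = 2
      have hqpos : 0 ≤ geo cs (z 0) β := ((hβ.root.geo _).not_nonpos).mp hq
      have hv : geo cs v β ≤ 0 := hstart.resolve_left hq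
      set β₁ := geo cs (z 0) β with hβ₁
      have hβ₁r : PR cs β₁ := ⟨hβ.root.geo _, hqpos⟩
      have hβe : β = geo cs (z 0) β₁ := by
        rw [hβ₁, geo_geo, (D.refl 0).mul_self, map_one, Module.End.one_apply]
      have hp1 : geo cs (z (-1)) β₁ ≤ 0 := by
        rw [hβ₁, geo_geo]
        have := D.mul (-1)
        have e3 : (-1 : ℤ) + 1 = 0 := by norm_num
        rw [e3] at this
        rw [this]; exact hv
      by_cases hb1 : β₁ = - ξ (-1)
      · -- β = ξ 1
        have hb : β = ξ 1 := by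
          rw [hβe, hb1, map_neg, D.refl_act, neg_neg]; congr 1
        apply good_zero
        · intro lam hl; rw [hb]; exact hl.1 1
        · right
          rcases Nat.eq_zero_or_pos m with hm | hm
          · exfalso; apply hne; rw [hb, hkm, hm]; simp
          · rw [hb, D.L_down' 1 k (m - 1) (by omega)]
            have := hS (m - 1) (by omega)
            linarith
      · have hπ : 0 ≤ - ξ (-1) := neg_nonneg.mpr hneg
        have hact : ∀ x, geo cs (z (-1)) x = x - bil M (-ξ (-1)) x • (-ξ (-1)) := by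
          intro x; rw [D.act, bil_neg_left]; module
        have hbp := bil_pos_of_inv hact hπ hβ₁r hp1
        rw [← D.sym] at hbp
        simp only [map_neg, LinearMap.neg_apply] at hbp
        have hlamβ : ∀ lam ∈ Λ, lam β = lam β₁ := by
          intro lam hl; rw [hβe]; exact D.lam_refl hl.1 0 β₁
        have hL0 : L β (ξ 0) = - L (ξ 0) β₁ := by
          rw [hβe, D.act, map_sub, map_smul, LinearMap.sub_apply, LinearMap.smul_apply, D.L_self,
            smul_eq_mul, ← D.sym]; ring
        have hL1 : L β (ξ (-1)) = L β₁ (ξ (-1)) := by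
          have ho := D.orth (-1)
          have e3 : (-1 : ℤ) + 1 = 0 := by norm_num
          rw [e3] at ho
          rw [hβe, D.act, map_sub, map_smul, LinearMap.sub_apply, LinearMap.smul_apply, ho,
            smul_zero, sub_zero]
        have hg := Gp β₁ hβ₁r hp1 hb1
        simp only [map_neg, LinearMap.neg_apply] at hg
        by_cases ht : 0 < L (-ξ (-1)) β₁
        · left
          have ht' := ht
          simp only [map_neg, LinearMap.neg_apply] at ht'
          have h1 : 0 ≤ L β₁ (ξ (-1)) := by rcases hg with hg | hg <;> linarith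
          have h2 := (Ep β₁ hβ₁r hp1 hb1).1 ht
          refine ⟨?_, fun lam hl => ?_⟩
          · rw [hk, D.Lr, hL0, hL1]
            have h3 := hS' (m + 1 + 1) (by omega) (by omega)
            have h4 := hS' (m + 1) (by omega) (by omega)
            have h5 : 0 ≤ Sn c (m + 1 + 1) * L (ξ 0) β₁ := mul_nonneg h3.le h2
            have h6 : 0 ≤ Sn c (m + 1) * L β₁ (ξ (-1)) := mul_nonneg h4.le h1
            linarith
          · rw [hlamβ lam hl]
            exact (hl.2.2.1 β₁ hβ₁r hp1 hb1).1 ht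
        · push Not at ht
          right
          have ht' := ht
          simp only [map_neg, LinearMap.neg_apply] at ht'
          have h1 : L β₁ (ξ (-1)) < 0 := by linarith
          have h2 := (Ep β₁ hβ₁r hp1 hb1).2 ht
          refine ⟨?_, fun lam hl => ?_⟩
          · rcases hzm with hzm | ⟨hm0, _⟩
            · rcases Nat.eq_zero_or_pos m with hm | hm
              · exfalso
                rw [hm] at hzm
                exact hq (by simpa using hzm)
              · by_cases hbm : β = ξ (m : ℤ)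
                · exact hEk0 hbm
                · apply hEk hbm hzm
                  rw [D.Lr, hL0, hL1]
                  have h4 := hS' (m + 1) (by omega) (by omega)
                  have h5 := hS' m hm (by omega)
                  have h6 : Sn c (m + 1) * L (ξ 0) β₁ ≤ 0 :=
                    mul_nonpos_of_nonneg_of_nonpos h4.le h2
                  have h7 : Sn c m * L β₁ (ξ (-1)) < 0 := mul_neg_of_pos_of_neg h5 h1
                  linarith
            · have hk1 : k = 0 + 1 := by rw [hkm, hm0]; simp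
              have e : L (ξ k) β = L (ξ k) β₁ := by
                rw [hβe, D.act, map_sub, map_smul, hk1, D.orth, smul_zero, sub_zero]
              rw [e, hk1, D.recu]
              have e4 : (0 : ℤ) - 1 = -1 := by norm_num
              rw [e4, map_sub, map_smul, LinearMap.sub_apply, LinearMap.smul_apply, smul_eq_mul]
              have h5 : c * L (ξ 0) β₁ ≤ 0 := mul_nonpos_of_nonneg_of_nonpos hc h2
              linarith
          · rw [hlamβ lam hl]
            exact (hl.2.2.1 β₁ hβ₁r hp1 hb1).2 ht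
  -- all roots are good
  have all : ∀ β, PR cs β → geo cs (z k) β ≤ 0 → β ≠ ξ k → Good β := by
    intro β hβ hz hne
    by_cases hst : geo cs (z 0) β ≤ 0 ∨ geo cs v β ≤ 0
    · exact core β hβ hz hne hst
    set γ := - geo cs (z k) β with hγ
    have hγr : PR cs γ := ⟨(hβ.root.geo _).neg, neg_nonneg.mpr hz⟩
    have hγz : geo cs (z k) γ = - β := by
      rw [hγ, map_neg, geo_geo, (D.refl k).mul_self, map_one, Module.End.one_apply]
    have hγne : γ ≠ ξ k := by
      intro h
      rw [h, D.refl_act] at hγz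
      apply hne
      have := neg_injective hγz
      rw [← this]; congr 1; ring
    by_cases hst2 : geo cs (z 0) γ ≤ 0 ∨ geo cs v γ ≤ 0
    · have hg := core γ hγr (by rw [hγz]; exact neg_nonpos.mpr hβ.pos) hγne hst2
      have hlam : ∀ lam ∈ Λ, lam γ = - lam β := by
        intro lam hl; rw [hγ, map_neg, D.lam_refl hl.1]
      have hLg1 : L γ (ξ k) = L (ξ k) β := by
        rw [hγ, D.act, map_neg, map_sub, map_smul, LinearMap.neg_apply, LinearMap.sub_apply,
          LinearMap.smul_apply, D.L_self, smul_eq_mul, ← D.sym]; ring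
      have hLg2 : L (ξ k) γ = L β (ξ k) := by
        rw [hγ, D.act, map_neg, map_sub, map_smul, D.L_self, smul_eq_mul, ← D.sym]; ring
      rcases hg with ⟨h1, h2⟩ | ⟨h1, h2⟩
      · right
        rw [hLg1] at h1
        refine ⟨h1, fun lam hl => ?_⟩
        have := h2 lam hl; rw [hlam lam hl] at this; linarith
      · left
        rw [hLg2] at h1
        refine ⟨h1, fun lam hl => ?_⟩
        have := h2 lam hl; rw [hlam lam hl] at this; linarith
    -- middle case
    push Not at hst hst2
    have hvβ : 0 ≤ geo cs v β := ((hβ.root.geo _).not_nonpos).mp hst.2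
    have hvγ : 0 ≤ geo cs v γ := ((hγr.root.geo _).not_nonpos).mp hst2.2
    have hzmβ : geo cs (z (m : ℤ)) β ≤ 0 := by
      have : geo cs v γ = - geo cs (z (m : ℤ)) β := by
        rw [hγ, map_neg, geo_geo, hkm, D.v_z]
      rw [this] at hvγ
      exact neg_nonneg.mp hvγ
    have hm : 1 ≤ m := by
      by_contra h
      have h0 : m = 0 := by omega
      rw [h0] at hzmβ
      exact hst.1 (by simpa using hzmβ)
    set β' := geo cs v β with hβ'
    have hβ'r : PR cs β' := ⟨hβ.root.geo _, hvβ⟩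
    have hzβ' : geo cs (z (m : ℤ)) β' ≤ 0 := by
      rw [hβ', geo_geo, ← D.z_succ, ← hkm]; exact hz
    have hlamβ' : ∀ lam ∈ Λ, lam β' = lam β := fun lam hl => D.lam_v hl.1 β
    by_cases hb1 : β = ξ (m : ℤ)
    · apply good_zero
      · intro lam hl; rw [hb1]; exact hl.1 _
      · right; rw [hb1, hkm, D.orth]
    by_cases hb2 : β' = ξ (m : ℤ)
    · have hb : β = ξ (k + 1) := by
        apply geo_injective_apply cs v
        rw [← hβ', hb2, D.v_act]; congr 1; rw [hkm]; ring
      apply good_zero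
      · intro lam hl; rw [hb]; exact hl.1 _
      · left; rw [hb, D.orth]
    have hser : ∀ j, L (ξ j) β' = - L β (ξ j) := fun j => D.serre j β
    by_cases ht' : 0 < L (ξ (m : ℤ)) β'
    · left
      have h1 := (Ek β' hβ'r hzβ' hb2).1 ht'
      rw [hser] at h1
      refine ⟨by linarith, fun lam hl => ?_⟩
      rw [← hlamβ' lam hl]
      exact (hl.2.2.2 β' hβ'r hzβ' hb2).1 ht'
    · push Not at ht'
      by_cases ht : 0 < L (ξ (m : ℤ)) β
      · have hz0 : ∀ lam ∈ Λ, lam β = 0 := by
          intro lam hl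
          have h1 := (hl.2.2.2 β' hβ'r hzβ' hb2).2 ht'
          have h2 := (hl.2.2.2 β hβ hzmβ hb1).1 ht
          rw [hlamβ' lam hl] at h1
          linarith
        have hy : L β (ξ (m : ℤ)) = 0 := by
          have h1 : L β (ξ (m : ℤ)) ≤ 0 := by
            rcases Gk β hβ hzmβ hb1 with h | h
            · linarith
            · exact h
          rw [hser] at ht'
          linarith
        apply good_zero β hz0
        -- use the reflection below
        have hy2 : L β (ξ k) = - L β (ξ ((m : ℤ) - 1)) := by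
          rw [hkm, D.recu, map_sub, map_smul, hy, smul_zero, zero_sub]
        have hne2 : β' ≠ ξ ((m : ℤ) - 1) := by
          intro h
          apply hne
          apply geo_injective_apply cs v
          rw [← hβ', h, D.v_act]; congr 1; rw [hkm]; ring
        have hz2 : geo cs (z ((m : ℤ) - 1)) β' ≤ 0 := by
          rw [hβ', geo_geo, ← D.z_succ]
          have e : (m : ℤ) - 1 + 1 = m := by ring
          rw [e]; exact hzmβ
        rcases Gk2 hm β' hβ'r hz2 hne2 with h | h
        · left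
          rw [hser] at h
          rw [hy2]; exact h
        · right
          have h3 : L β' (ξ ((m : ℤ) - 1)) = L (ξ k) β := by
            have h4 := D.sym β' (ξ ((m : ℤ) - 1))
            rw [hser, hβ', D.bil_v] at h4
            have e : (m : ℤ) - 1 + 2 = k := by rw [hkm]; ring
            rw [e, ← D.sym] at h4
            linarith
          rw [h3] at h; exact h
      · push Not at ht
        right
        refine ⟨(Ek β hβ hzmβ hb1).2 ht, fun lam hl => ?_⟩
        rw [← hlamβ' lam hl]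
        exact (hl.2.2.2 β' hβ'r hzβ' hb2).2 ht'
  constructor
  · intro β hβ hz hne
    rcases all β hβ hz hne with h | h
    · right; exact h.1
    · left; exact h.1
  · intro lam h0 h1 h2 h3 β hβ hz hne
    have hlam : lam ∈ Λ := ⟨h0, h1, h2, h3⟩
    have hbp := bilpos k hposk β hβ hz
    rcases all β hβ hz hne with h | h
    · refine ⟨fun _ => h.2 lam hlam, fun h4 => ?_⟩
      exfalso; linarith [h.1]
    · refine ⟨fun h4 => ?_, fun _ => h.2 lam hlam⟩
      exfalso; linarith [h.1]

end DSeq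

end Pool.Agent.TH107
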