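import Pool.Agent.TH107.Seif

set_option autoImplicit false

namespace Pool.Agent.TH107

open Pool.Agent.Helper741 CoxeterSystem

variable {B : Type*} {M : CoxeterMatrix B} [Fintype B] [DecidableEq B]
variable {W : Type*} [Group W] {cs : CoxeterSystem M W}

/-- Chebyshev type numbers -/
noncomputable def Sn (c : ℝ) : ℕ → ℝ
  | 0 => 0
  | 1 => 1
  | (k + 2) => c * Sn c (k + 1) - Sn c k

@[simp] lemma Sn_zero (c : ℝ) : Sn c 0 = 0 := rfl
@[simp] lemma Sn_one (c : ℝ) : Sn c 1 = 1 := rfl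
lemma Sn_add_two (c : ℝ) (k : ℕ) : Sn c (k + 2) = c * Sn c (k + 1) - Sn c k := rfl

/-- the addition formula for sequences satisfying the recursion -/
lemma Sn_formula {E : Type*} [AddCommGroup E] [Module ℝ E] {c : ℝ} {x : ℤ → E}
    (hx : ∀ j, x (j + 1) = c • x j - x (j - 1)) (n : ℤ) (a b : ℕ) :
    Sn c (a + b) • x (n + a) = Sn c b • x n + Sn c a • x (n + a + b) := by
  have h1 : ∀ a : ℕ, Sn c (a + 1) • x (n + a) = x n + Sn c a • x (n + a + 1) := by
    intro a
    induction a with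
    | zero => simp
    | succ a ih =>
      have h2 := hx (n + a + 1)
      have e1 : n + ((a + 1 : ℕ) : ℤ) = n + a + 1 := by push_cast; ring
      have e2 : n + (a : ℤ) + 1 - 1 = n + a := by ring
      rw [e1, Sn_add_two, h2, e2]
      have : x n = Sn c (a + 1) • x (n + a) - Sn c a • x (n + a + 1) := by rw [ih]; abel
      rw [this]
      module
  induction b using Nat.strong_induction_on with
  | _ b ih =>
    match b with
    | 0 => simp
    | 1 => simpa using h1 a
    | (b + 2) =>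
      have i1 := ih (b + 1) (by omega)
      have i0 := ih b (by omega)
      have h2 := hx (n + a + (b + 1 : ℕ))
      have e1 : n + (a : ℤ) + ((b + 2 : ℕ) : ℤ) = n + a + ((b + 1 : ℕ) : ℤ) + 1 := by push_cast; ring
      have e2 : n + (a : ℤ) + ((b + 1 : ℕ) : ℤ) - 1 = n + a + (b : ℤ) := by push_cast; ring
      rw [e1, h2, e2, ← add_assoc, Sn_add_two, Sn_add_two]
      have e3 : a + b + 1 = a + (b + 1) := by ring
      rw [e3, sub_smul, mul_smul, i1, i0]
      module

/-- signed dihedral sequences -/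
structure DSeq (cs : CoxeterSystem M W) (L : Bil B) (v : W) (c : ℝ) (z : ℤ → W)
    (ξ : ℤ → B → ℝ) : Prop where
  sym : Sym M L
  refl : ∀ j, cs.IsReflection (z j)
  act : ∀ j x, geo cs (z j) x = x - bil M (ξ j) x • ξ j
  root : ∀ j, IsRt cs (ξ j)
  recu : ∀ j, ξ (j + 1) = c • ξ j - ξ (j - 1)
  mul : ∀ j, z j * z (j + 1) = v
  orth : ∀ j, L (ξ (j + 1)) (ξ j) = 0

namespace DSeq

variable {L : Bil B} {v : W} {c : ℝ} {z : ℤ → W} {ξ : ℤ → B → ℝ}

lemma shift (D : DSeq cs L v c z ξ) (a : ℤ) :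
    DSeq cs L v c (fun j => z (j + a)) (fun j => ξ (j + a)) where
  sym := D.sym
  refl j := D.refl _
  act j := D.act _
  root j := D.root _
  recu j := by
    have := D.recu (j + a)
    have e1 : j + 1 + a = j + a + 1 := by ring
    have e2 : j - 1 + a = j + a - 1 := by ring
    rw [e1, e2]; exact this
  mul j := by
    have e1 : j + 1 + a = j + a + 1 := by ring
    rw [e1]; exact D.mul _
  orth j := by
    have e1 : j + 1 + a = j + a + 1 := by ring
    rw [e1]; exact D.orth _

lemma rev (D : DSeq cs L v c z ξ) :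
    DSeq cs L.flip v⁻¹ c (fun j => z (-j)) (fun j => ξ (-j)) where
  sym := D.sym.flip
  refl j := D.refl _
  act j := D.act _
  root j := D.root _
  recu j := by
    have := D.recu (-j)
    have e1 : -(j + 1) = -j - 1 := by ring
    have e2 : -(j - 1) = -j + 1 := by ring
    rw [e1, e2, this]; module
  mul j := by
    have := D.mul (-j - 1)
    have e1 : -(j + 1) = -j - 1 := by ring
    have e2 : -j - 1 + 1 = -j := by ring
    rw [e1, ← this, e2, mul_inv_rev, (D.refl _).inv, (D.refl _).inv]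
  orth j := by
    have := D.orth (-j - 1)
    have e1 : -(j + 1) = -j - 1 := by ring
    have e2 : -j - 1 + 1 = -j := by ring
    rw [e2] at this
    rw [e1, LinearMap.flip_apply]; exact this

lemma bil_self (D : DSeq cs L v c z ξ) (j : ℤ) : bil M (ξ j) (ξ j) = 2 := (D.root j).bil_self

lemma L_self (D : DSeq cs L v c z ξ) (j : ℤ) : L (ξ j) (ξ j) = 1 := D.sym.root (D.bil_self j)

lemma L_succ (D : DSeq cs L v c z ξ) (j : ℤ) : L (ξ j) (ξ (j + 1)) = c := by
  have h1 := D.orth (j + 1)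
  rw [D.recu (j + 1)] at h1
  have e : j + 1 - 1 = j := by ring
  rw [e, map_sub, map_smul, LinearMap.sub_apply, LinearMap.smul_apply, D.L_self, smul_eq_mul,
    mul_one] at h1
  linarith

lemma bil_succ (D : DSeq cs L v c z ξ) (j : ℤ) : bil M (ξ j) (ξ (j + 1)) = c := by
  rw [← D.sym, D.L_succ, D.orth, add_zero]

/-- linear recursion downwards -/
lemma recd (D : DSeq cs L v c z ξ) (j : ℤ) : ξ (j - 1) = c • ξ j - ξ (j + 1) := by
  rw [D.recu j]; module

lemma L_up (D : DSeq cs L v c z ξ) (i : ℤ) (n : ℕ) : L (ξ i) (ξ (i + n)) = Sn c (n + 1) := by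
  induction n using Nat.strong_induction_on with
  | _ n ih =>
    match n with
    | 0 => simp [D.L_self]
    | 1 => simp [D.L_succ, Sn_add_two]
    | (n + 2) =>
      have i1 := ih (n + 1) (by omega)
      have i0 := ih n (by omega)
      have e1 : i + ((n + 2 : ℕ) : ℤ) = i + ((n + 1 : ℕ) : ℤ) + 1 := by push_cast; ring
      have e2 : i + ((n + 1 : ℕ) : ℤ) - 1 = i + (n : ℤ) := by push_cast; ring
      rw [e1, D.recu, e2, map_sub, map_smul, i1, i0, smul_eq_mul, Sn_add_two c (n + 1)]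

lemma L_down (D : DSeq cs L v c z ξ) (i : ℤ) (n : ℕ) : L (ξ (i + n + 1)) (ξ i) = - Sn c n := by
  induction n using Nat.strong_induction_on with
  | _ n ih =>
    match n with
    | 0 => simp [D.orth]
    | 1 =>
      have e2 : i + ((1 : ℕ) : ℤ) - 1 = i := by push_cast; ring
      have e3 : i + ((1 : ℕ) : ℤ) = i + 1 := by push_cast; ring
      rw [D.recu, e2, e3, map_sub, map_smul, LinearMap.sub_apply, LinearMap.smul_apply, D.orth,
        D.L_self]
      simp
    | (n + 2) =>
      have i1 := ih (n + 1) (by omega)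
      have i0 := ih n (by omega)
      have e1 : i + ((n + 2 : ℕ) : ℤ) = i + ((n + 1 : ℕ) : ℤ) + 1 := by push_cast; ring
      have e2 : i + ((n + 1 : ℕ) : ℤ) + 1 - 1 = i + (n : ℤ) + 1 := by push_cast; ring
      rw [D.recu (i + ((n + 2 : ℕ) : ℤ)), e1, e2, map_sub, map_smul, LinearMap.sub_apply,
        LinearMap.smul_apply, i1, i0, smul_eq_mul, Sn_add_two c n]
      ring

lemma xi_nat (D : DSeq cs L v c z ξ) (n : ℕ) :
    ξ (n : ℤ) = Sn c (n + 1) • ξ 0 - Sn c n • ξ (-1) := by
  induction n using Nat.strong_induction_on with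
  | _ n ih =>
    match n with
    | 0 => simp
    | 1 =>
      have := D.recu 0
      simp only [zero_add, zero_sub] at this
      simp [this, Sn_add_two]
    | (n + 2) =>
      have i1 := ih (n + 1) (by omega)
      have i0 := ih n (by omega)
      have e1 : ((n + 2 : ℕ) : ℤ) = ((n + 1 : ℕ) : ℤ) + 1 := by push_cast; ring
      have e2 : ((n + 1 : ℕ) : ℤ) - 1 = (n : ℤ) := by push_cast; ring
      rw [e1, D.recu, e2, i1, i0, Sn_add_two c (n + 1), Sn_add_two c n]
      module

lemma xi_neg (D : DSeq cs L v c z ξ) (n : ℕ) :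
    ξ (-1 - (n : ℤ)) = Sn c (n + 1) • ξ (-1) - Sn c n • ξ 0 := by
  induction n using Nat.strong_induction_on with
  | _ n ih =>
    match n with
    | 0 => simp
    | 1 =>
      have h := D.recd (-1)
      have e0 : (-1 : ℤ) + 1 = 0 := by norm_num
      have e1 : (-1 : ℤ) - ((1 : ℕ) : ℤ) = -1 - 1 := by norm_num
      rw [e0] at h
      rw [e1, h]
      simp [Sn_add_two]
    | (n + 2) =>
      have i1 := ih (n + 1) (by omega)
      have i0 := ih n (by omega)
      have e1 : (-1 : ℤ) - ((n + 2 : ℕ) : ℤ) = -1 - ((n + 1 : ℕ) : ℤ) - 1 := by push_cast; ring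
      have e2 : (-1 : ℤ) - ((n + 1 : ℕ) : ℤ) + 1 = -1 - (n : ℤ) := by push_cast; ring
      rw [e1, D.recd, e2, i1, i0, Sn_add_two c (n + 1), Sn_add_two c n]
      module

/-- the reflections act on the sequence -/
lemma refl_act_nat (D : DSeq cs L v c z ξ) (j : ℤ) (n : ℕ) :
    geo cs (z j) (ξ (j + n)) = - ξ (j - n) := by
  induction n using Nat.strong_induction_on with
  | _ n ih =>
    match n with
    | 0 => simp only [Nat.cast_zero, add_zero, sub_zero]; rw [D.act, D.bil_self]; module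
    | 1 =>
      simp only [Nat.cast_one]
      rw [D.act, D.bil_succ, D.recd]; module
    | (n + 2) =>
      have i1 := ih (n + 1) (by omega)
      have i0 := ih n (by omega)
      have e1 : j + ((n + 2 : ℕ) : ℤ) = j + ((n + 1 : ℕ) : ℤ) + 1 := by push_cast; ring
      have e2 : j + ((n + 1 : ℕ) : ℤ) - 1 = j + (n : ℤ) := by push_cast; ring
      have e3 : j - ((n + 2 : ℕ) : ℤ) = j - ((n + 1 : ℕ) : ℤ) - 1 := by push_cast; ring
      have e4 : j - ((n + 1 : ℕ) : ℤ) + 1 = j - (n : ℤ) := by push_cast; ring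
      rw [e1, D.recu, e2, map_sub, map_smul, i1, i0, e3, D.recd, e4]
      module

lemma refl_act (D : DSeq cs L v c z ξ) (j i : ℤ) : geo cs (z j) (ξ i) = - ξ (2 * j - i) := by
  rcases le_total j i with h | h
  · obtain ⟨n, hn⟩ := Int.eq_ofNat_of_zero_le (sub_nonneg.mpr h)
    have e : i = j + n := by omega
    have e2 : 2 * j - i = j - n := by omega
    rw [e2, e]; exact D.refl_act_nat j n
  · obtain ⟨n, hn⟩ := Int.eq_ofNat_of_zero_le (sub_nonneg.mpr h)
    have e : i = j - n := by omega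
    have e2 : 2 * j - i = j + n := by omega
    apply geo_injective_apply cs (z j)
    rw [e2, e, map_neg, D.refl_act_nat j n, neg_neg, geo_geo, (D.refl j).mul_self, map_one,
      Module.End.one_apply]

lemma v_act (D : DSeq cs L v c z ξ) (j : ℤ) : geo cs v (ξ j) = ξ (j - 2) := by
  rw [← D.mul (j - 2), ← geo_geo, D.refl_act, map_neg, D.refl_act, neg_neg]
  congr 1; ring

lemma vinv_act (D : DSeq cs L v c z ξ) (j : ℤ) : geo cs v⁻¹ (ξ j) = ξ (j + 2) := by
  apply geo_injective_apply cs v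
  rw [geo_apply_inv, D.v_act]; congr 1; ring

lemma z_succ (D : DSeq cs L v c z ξ) (j : ℤ) : z (j + 1) = z j * v := by
  rw [← D.mul j, ← mul_assoc, (D.refl j).mul_self, one_mul]

lemma v_z (D : DSeq cs L v c z ξ) (j : ℤ) : v * z (j + 1) = z j := by
  rw [← D.mul j, mul_assoc, (D.refl _).mul_self, mul_one]

/-- Serre duality in the plane -/
lemma serre (D : DSeq cs L v c z ξ) (j : ℤ) (y : B → ℝ) :
    L (ξ j) (geo cs v y) = - L y (ξ j) := by
  rw [← D.mul j, ← geo_geo, D.act, D.act (j + 1)]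
  simp only [map_sub, map_smul, LinearMap.sub_apply, LinearMap.smul_apply, smul_eq_mul, D.L_self,
    bil_sub_right, bil_smul_right, D.L_succ, D.bil_succ]
  have h := D.sym (ξ j) y
  rw [← h]; ring

lemma bil_v (D : DSeq cs L v c z ξ) (j : ℤ) (y : B → ℝ) :
    bil M (geo cs v y) (ξ j) = bil M y (ξ (j + 2)) := by
  rw [← D.vinv_act, ← bil_geo cs v y, geo_apply_inv]

end DSeq

/-- sign statements -/
def GG (cs : CoxeterSystem M W) (L : Bil B) (z : W) (ζ : B → ℝ) : Prop :=
  ∀ β, PR cs β → geo cs z β ≤ 0 → β ≠ ζ → L ζ β ≤ 0 ∨ L β ζ ≤ 0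

/-- sign statements for functionals -/
def EE (cs : CoxeterSystem M W) (L : Bil B) (z : W) (ζ : B → ℝ) (lam : (B → ℝ) →ₗ[ℝ] ℝ) : Prop :=
  ∀ β, PR cs β → geo cs z β ≤ 0 → β ≠ ζ → (0 < L ζ β → 0 ≤ lam β) ∧ (L ζ β ≤ 0 → lam β ≤ 0)

lemma bil_pos_of_inv {z : W} {ζ β : B → ℝ} (hact : ∀ x, geo cs z x = x - bil M ζ x • ζ)
    (hζ : 0 ≤ ζ) (hβ : PR cs β) (h : geo cs z β ≤ 0) : 0 < bil M ζ β := by
  by_contra hcon
  push Not at hcon
  rw [hact] at h
  have h1 : 0 ≤ β - bil M ζ β • ζ := by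
    have : bil M ζ β • ζ ≤ 0 := smul_nonpos_of_nonpos_of_nonneg hcon hζ
    exact sub_nonneg_of_le (this.trans hβ.pos)
  have h2 : IsRt cs (β - bil M ζ β • ζ) := by rw [← hact]; exact hβ.root.geo z
  exact h2.not_both h1 h

/-- passing to the transposed form -/
lemma EE.of_flip {L : Bil B} (hL : Sym M L) {z : W} {ζ : B → ℝ} {lam : (B → ℝ) →ₗ[ℝ] ℝ}
    (hact : ∀ x, geo cs z x = x - bil M ζ x • ζ) (hζ : 0 ≤ ζ)
    (hG : GG cs L z ζ) (h : EE cs L.flip z ζ lam) : EE cs L z ζ (-lam) := by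
  intro β hβ hz hne
  have hb := bil_pos_of_inv hact hζ hβ hz
  rw [← hL] at hb
  obtain ⟨h1, h2⟩ := h β hβ hz hne
  simp only [LinearMap.flip_apply] at h1 h2
  have hg := hG β hβ hz hne
  constructor
  · intro h3
    have h4 : L β ζ ≤ 0 := by rcases hg with hg | hg <;> linarith
    have := h2 h4
    simp only [LinearMap.neg_apply]; linarith
  · intro h3
    have h4 : 0 < L β ζ := by linarith
    have := h1 h4
    simp only [LinearMap.neg_apply]; linarith

lemma GG.of_flip {L : Bil B} {z : W} {ζ : B → ℝ} (hG : GG cs L.flip z ζ) : GG cs L z ζ := by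
  intro β hβ hz hne
  have := hG β hβ hz hne
  simp only [LinearMap.flip_apply] at this
  exact this.symm

end Pool.Agent.TH107
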