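import Pool.Agent.TH107.PLmain

set_option autoImplicit false

namespace Pool.Agent.TH107

open Pool.Agent.Helper741 CoxeterSystem

variable {B : Type*} {M : CoxeterMatrix B} [Fintype B] [DecidableEq B]
variable {W : Type*} [Group W] {cs : CoxeterSystem M W}

lemma act_conj {t : W} {a : B → ℝ} (h : ∀ x, geo cs t x = x - bil M a x • a) (w : W) (x : B → ℝ) :
    geo cs (w * t * w⁻¹) x = x - bil M (geo cs w a) x • geo cs w a := by
  rw [map_mul, map_mul, Module.End.mul_apply, Module.End.mul_apply, h, map_sub,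
    geo_apply_inv, map_smul]
  congr 2
  rw [← bil_geo cs w, geo_apply_inv]

lemma pm_root {z : W} (hz : cs.IsReflection z) {x : B → ℝ} (hx : IsRt cs x)
    (h : ∀ y, geo cs z y = y - bil M x y • x) :
    (0 ≤ x ∧ x = rt cs z) ∨ (x ≤ 0 ∧ x = - rt cs z) := by
  rcases hx.cases with h1 | h1
  · left; exact ⟨h1, (rt_unique hz ⟨hx, h1⟩ h).symm⟩
  · right
    refine ⟨h1, ?_⟩
    have := rt_unique hz (v := -x) ⟨hx.neg, neg_nonneg.mpr h1⟩ (by
      intro y; rw [h, bil_neg_left]; module)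
    rw [this, neg_neg]

/-- the roots of the sequence attached to a pair of reflections -/
noncomputable def xiSeq (cs : CoxeterSystem M W) (v : W) (x0 x1 : B → ℝ) (j : ℤ) : B → ℝ :=
  geo cs (v ^ (-(j / 2))) (if j % 2 = 0 then x0 else x1)

lemma xiSeq_even (v : W) (x0 x1 : B → ℝ) (m : ℤ) :
    xiSeq cs v x0 x1 (2 * m) = geo cs (v ^ (-m)) x0 := by
  have h1 : 2 * m / 2 = m := by omega
  have h2 : 2 * m % 2 = 0 := by omega
  rw [xiSeq, h1, if_pos h2]

lemma xiSeq_odd (v : W) (x0 x1 : B → ℝ) (m : ℤ) :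
    xiSeq cs v x0 x1 (2 * m + 1) = geo cs (v ^ (-m)) x1 := by
  have h1 : (2 * m + 1) / 2 = m := by omega
  have h2 : ¬ (2 * m + 1) % 2 = 0 := by omega
  rw [xiSeq, h1, if_neg h2]

lemma mkDSeq {L : Bil B} (hL : Sym M L) {t u : W} (ht : cs.IsReflection t) (hu : cs.IsReflection u)
    {x0 x1 : B → ℝ} (hx0 : IsRt cs x0) (hx1 : IsRt cs x1)
    (h0 : ∀ y, geo cs t y = y - bil M x0 y • x0) (h1 : ∀ y, geo cs u y = y - bil M x1 y • x1)
    (ho : ∀ j : ℤ, L (rt cs ((t * u) ^ (-(j + 1)) * t)) (rt cs ((t * u) ^ (-j) * t)) = 0) :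
    DSeq cs L (t * u) (bil M x0 x1) (fun j => (t * u) ^ (-j) * t) (xiSeq cs (t * u) x0 x1) := by
  have hrefl : ∀ j : ℤ, cs.IsReflection ((t * u) ^ (-j) * t) := fun j => refl_zpow ht hu _
  have hroot : ∀ j, IsRt cs (xiSeq cs (t * u) x0 x1 j) := by
    intro j
    unfold xiSeq
    split_ifs
    · exact hx0.geo _
    · exact hx1.geo _
  have hact : ∀ j x, geo cs ((t * u) ^ (-j) * t) x =
      x - bil M (xiSeq cs (t * u) x0 x1 j) x • xiSeq cs (t * u) x0 x1 j := by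
    intro j x
    rcases Int.even_or_odd' j with ⟨m, rfl | rfl⟩
    · rw [xiSeq_even]
      have e : (t * u) ^ (-(2 * m)) * t = (t * u) ^ (-m) * t * ((t * u) ^ (-m))⁻¹ := by
        rw [← zpow_neg, mul_assoc ((t * u) ^ (-m)), inv_conj_zpow ht.mul_self hu.mul_self,
          ← mul_assoc, ← zpow_add]
        congr 2; ring
      rw [e]; exact act_conj h0 _ x
    · rw [xiSeq_odd]
      have e : (t * u) ^ (-(2 * m + 1)) * t = (t * u) ^ (-m) * u * ((t * u) ^ (-m))⁻¹ := by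
        have e1 : u = (t * u) ^ (-1 : ℤ) * t := by
          rw [zpow_neg, zpow_one, mul_inv_rev, ht.inv, hu.inv, mul_assoc, ht.mul_self, mul_one]
        rw [← zpow_neg, mul_assoc ((t * u) ^ (-m)), inv_conj_zpow' ht.mul_self hu.mul_self]
        have e2 : (t * u) ^ (-(- -m)) * u = (t * u) ^ (-(- -m)) * ((t * u) ^ (-1 : ℤ) * t) := by
          rw [← e1]
        rw [e2, ← mul_assoc, ← mul_assoc, ← zpow_add, ← zpow_add]
        congr 2; ring
      rw [e]; exact act_conj h1 _ x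
  refine ⟨hL, hrefl, hact, hroot, ?_, ?_, ?_⟩
  · intro j
    have ev1 : geo cs (t * u) x1 = bil M x0 x1 • x0 - x1 := by
      rw [← geo_geo, h1, hx1.bil_self, map_sub, map_smul, h0]; module
    have ev0 : geo cs ((t * u) ^ (-1 : ℤ)) x0 = bil M x0 x1 • x1 - x0 := by
      rw [zpow_neg, zpow_one, mul_inv_rev, ht.inv, hu.inv, ← geo_geo, h0, hx0.bil_self, map_sub,
        map_smul, h1, bil_symm x1 x0]; module
    rcases Int.even_or_odd' j with ⟨m, rfl | rfl⟩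
    · have e1 : 2 * m - 1 = 2 * (m - 1) + 1 := by ring
      rw [e1, xiSeq_odd, xiSeq_odd, xiSeq_even]
      have e2 : (t * u) ^ (-(m - 1)) = (t * u) ^ (-m) * (t * u) := by
        rw [← zpow_add_one]; congr 1; ring
      rw [e2, ← geo_geo _ (t * u), ev1, map_sub, map_smul]; module
    · have e1 : 2 * m + 1 - 1 = 2 * m := by ring
      have e2 : 2 * m + 1 + 1 = 2 * (m + 1) := by ring
      rw [e1, e2, xiSeq_odd, xiSeq_even, xiSeq_even]
      have e3 : (t * u) ^ (-(m + 1)) = (t * u) ^ (-m) * (t * u) ^ (-1 : ℤ) := by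
        rw [← zpow_add]; congr 1; ring
      rw [e3, ← geo_geo _ ((t * u) ^ (-1 : ℤ)), ev0, map_sub, map_smul]
  · intro j
    have h2 := inv_conj_zpow ht.mul_self hu.mul_self (-(j + 1))
    calc (t * u) ^ (-j) * t * ((t * u) ^ (-(j + 1)) * t)
        = (t * u) ^ (-j) * (t * (t * u) ^ (-(j + 1))) * t := by simp only [mul_assoc]
      _ = (t * u) ^ (-j) * (t * u) ^ (- -(j + 1)) * (t * t) := by rw [h2]; simp only [mul_assoc]
      _ = t * u := by
        rw [ht.mul_self, mul_one, ← zpow_add]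
        have : -j + - -(j + 1) = 1 := by ring
        rw [this, zpow_one]
  · intro j
    have p1 := pm_root (hrefl (j + 1)) (hroot (j + 1)) (hact (j + 1))
    have p0 := pm_root (hrefl j) (hroot j) (hact j)
    have h := ho j
    rcases p1 with ⟨_, p1⟩ | ⟨_, p1⟩ <;> rcases p0 with ⟨_, p0⟩ | ⟨_, p0⟩ <;>
      rw [p1, p0] <;> simp only [map_neg, LinearMap.neg_apply, h, neg_zero]

namespace DSeq

variable {L : Bil B} {v : W} {c : ℝ} {z : ℤ → W} {ξ : ℤ → B → ℝ}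

lemma rt_of_pos (D : DSeq cs L v c z ξ) {j : ℤ} (h : 0 ≤ ξ j) : rt cs (z j) = ξ j :=
  rt_unique (D.refl j) ⟨D.root j, h⟩ (D.act j)

lemma rt_of_neg (D : DSeq cs L v c z ξ) {j : ℤ} (h : ξ j ≤ 0) : rt cs (z j) = - ξ j := by
  rcases pm_root (D.refl j) (D.root j) (D.act j) with ⟨h1, h2⟩ | ⟨h1, h2⟩
  · exact ((D.root j).not_both h1 h).elim
  · rw [h2, neg_neg]

lemma z_neg_pow (D : DSeq cs L v c z ξ) (m : ℕ) : z (m : ℤ) = (v⁻¹) ^ m * z 0 := by
  induction m with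
  | zero => simp
  | succ m ih =>
    have e : ((m + 1 : ℕ) : ℤ) = (m : ℤ) + 1 := by push_cast; ring
    have h := D.v_z m
    rw [e]
    have h2 : z ((m : ℤ) + 1) = v⁻¹ * z (m : ℤ) := by rw [← h]; group
    rw [h2, ih, pow_succ', mul_assoc]

lemma vinv_pow_act (D : DSeq cs L v c z ξ) (m : ℕ) (j : ℤ) :
    geo cs ((v⁻¹) ^ m) (ξ j) = ξ (j + 2 * m) := by
  induction m generalizing j with
  | zero => simp
  | succ m ih =>
    rw [pow_succ, ← geo_geo, D.vinv_act, ih]; congr 1; push_cast; ring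

/-- lengths increase along a run -/
lemma len_succ (D : DSeq cs L v c z ξ) (m : ℕ) (hneg : ξ (-1) ≤ 0) (h0 : 0 ≤ ξ 0)
    (h1 : 0 ≤ ξ ((2 * m + 1 : ℕ) : ℤ)) (h2 : 0 ≤ ξ ((2 * m + 2 : ℕ) : ℤ)) :
    cs.length (z (m : ℤ)) < cs.length ((v⁻¹) ^ (m + 1)) ∧
    cs.length ((v⁻¹) ^ (m + 1)) < cs.length (z ((m + 1 : ℕ) : ℤ)) := by
  constructor
  · have e : (v⁻¹) ^ (m + 1) = z (m : ℤ) * z (-1) := by
      have h := D.mul (-1)
      have e3 : (-1 : ℤ) + 1 = 0 := by norm_num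
      rw [e3] at h
      have h4 : v⁻¹ = z 0 * z (-1) := by rw [← h, mul_inv_rev, (D.refl _).inv, (D.refl _).inv]
      rw [D.z_neg_pow, mul_assoc, ← h4, pow_succ]
    rw [e]
    apply length_of_pos (D.refl _)
    rw [D.rt_of_neg hneg, map_neg, D.refl_act, neg_neg]
    have e2 : 2 * (m : ℤ) - -1 = ((2 * m + 1 : ℕ) : ℤ) := by omega
    rw [e2]; exact h1
  · rw [D.z_neg_pow]
    apply length_of_pos (D.refl _)
    rw [D.rt_of_pos h0, D.vinv_pow_act]
    have e2 : (0 : ℤ) + 2 * ((m + 1 : ℕ) : ℤ) = ((2 * m + 2 : ℕ) : ℤ) := by omega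
    rw [e2]; exact h2

lemma len_lt (D : DSeq cs L v c z ξ) (k : ℕ) (hneg : ξ (-1) ≤ 0)
    (hpos : ∀ j : ℕ, j ≤ 2 * k → 0 ≤ ξ (j : ℤ)) (i : ℕ) (hi : i < k) :
    cs.length (z (i : ℤ)) < cs.length (z (k : ℤ)) := by
  have h0 : 0 ≤ ξ 0 := by simpa using hpos 0 (by omega)
  have key : ∀ n : ℕ, i + n + 1 ≤ k → cs.length (z (i : ℤ)) < cs.length (z ((i + n + 1 : ℕ) : ℤ)) := by
    intro n
    induction n with
    | zero =>
      intro h
      have := D.len_succ i hneg h0 (hpos _ (by omega)) (hpos _ (by omega))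
      exact this.1.trans this.2
    | succ n ih =>
      intro h
      have h1 := ih (by omega)
      have h2 := D.len_succ (i + n + 1) hneg h0 (hpos _ (by omega)) (hpos _ (by omega))
      have e : i + (n + 1) + 1 = i + n + 1 + 1 := by ring
      rw [e]
      exact h1.trans (h2.1.trans h2.2)
  have := key (k - i - 1) (by omega)
  have e : i + (k - i - 1) + 1 = k := by omega
  rwa [e] at this

lemma len_p (D : DSeq cs L v c z ξ) (hneg : ξ (-1) ≤ 0) (h0 : 0 ≤ ξ 0) (hc : 0 ≤ c) :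
    cs.length (z (-1)) < cs.length v := by
  have h := D.mul (-1)
  have e3 : (-1 : ℤ) + 1 = 0 := by norm_num
  rw [e3] at h
  rw [← h]
  apply length_of_pos (D.refl _)
  rw [D.rt_of_pos h0, D.refl_act]
  have e : (2 : ℤ) * -1 - 0 = -1 - 1 := by norm_num
  rw [e, D.recd, e3]
  have : c • ξ (-1) ≤ 0 := smul_nonpos_of_nonneg_of_nonpos hc hneg
  rw [neg_sub]
  exact sub_nonneg_of_le (this.trans h0)

lemma len_p_lt (D : DSeq cs L v c z ξ) (m : ℕ) (hneg : ξ (-1) ≤ 0)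
    (hpos : ∀ j : ℕ, j ≤ 2 * m + 2 → 0 ≤ ξ (j : ℤ)) :
    cs.length (z (-1)) < cs.length (z ((m + 1 : ℕ) : ℤ)) := by
  have h0 : 0 ≤ ξ 0 := by simpa using hpos 0 (by omega)
  have h1 : 0 ≤ ξ 1 := by simpa using hpos 1 (by omega)
  have h2 : 0 ≤ ξ 2 := by simpa using hpos 2 (by omega)
  have hc := D.c_nonneg h0 h1 h2
  have l1 := D.len_p hneg h0 hc
  have l2 := (D.len_succ 0 hneg h0 (hpos 1 (by omega)) (hpos 2 (by omega))).2
  rw [zero_add, pow_one, cs.length_inv] at l2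
  rcases Nat.eq_zero_or_pos m with rfl | hm
  · exact l1.trans l2
  · have l3 := D.len_lt (m + 1) hneg (by intro j hj; exact hpos j (by omega)) 1 (by omega)
    exact l1.trans (l2.trans l3)

end DSeq

/-- the inductive hypothesis along a dihedral sequence -/
def IH (cs : CoxeterSystem M W) (L : Bil B) (z : ℤ → W) (N : ℕ) : Prop :=
  ∀ j, cs.length (z j) < N → GG cs L (z j) (rt cs (z j)) ∧
    EE cs L (z j) (rt cs (z j)) (L (rt cs (z (j + 1)))) ∧
    EE cs L.flip (z j) (rt cs (z j)) (L.flip (rt cs (z (j - 1))))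

namespace DSeq

variable {L : Bil B} {v : W} {c : ℝ} {z : ℤ → W} {ξ : ℤ → B → ℝ}

lemma half (D : DSeq cs L v c z ξ) (m : ℕ) (hneg : ξ (-1) ≤ 0)
    (hpos : ∀ j : ℕ, j ≤ 2 * m + 2 → 0 ≤ ξ (j : ℤ))
    (ih : IH cs L z (cs.length (z ((m + 1 : ℕ) : ℤ)))) :
    GG cs L (z ((m + 1 : ℕ) : ℤ)) (ξ ((m + 1 : ℕ) : ℤ)) ∧
    ∀ lam : (B → ℝ) →ₗ[ℝ] ℝ, (∀ j, lam (ξ j) = 0) →
      (∀ j, cs.length (z j) < cs.length (z ((m + 1 : ℕ) : ℤ)) → EE cs L (z j) (rt cs (z j)) lam) →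
      EE cs L (z ((m + 1 : ℕ) : ℤ)) (ξ ((m + 1 : ℕ) : ℤ)) lam := by
  have h0 : 0 ≤ ξ 0 := by simpa using hpos 0 (by omega)
  have lp := D.len_p_lt m hneg hpos
  have lj : ∀ i : ℕ, i < m + 1 → cs.length (z (i : ℤ)) < cs.length (z ((m + 1 : ℕ) : ℤ)) :=
    D.len_lt (m + 1) hneg (by intro j hj; exact hpos j (by omega))
  have l0 : cs.length (z 0) < cs.length (z ((m + 1 : ℕ) : ℤ)) := by simpa using lj 0 (by omega)
  have rp := D.rt_of_neg hneg
  have r0 := D.rt_of_pos h0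
  have rm := D.rt_of_pos (hpos m (by omega))
  have rk := D.rt_of_pos (hpos (m + 1) (by omega))
  have i0 := ih 0 l0
  have ip := ih (-1) lp
  have im := ih m (lj m (by omega))
  have e3 : (-1 : ℤ) + 1 = 0 := by norm_num
  have e4 : (0 : ℤ) - 1 = -1 := by norm_num
  have e5 : (m : ℤ) + 1 = ((m + 1 : ℕ) : ℤ) := by push_cast; ring
  rw [e3, rp, r0] at ip
  rw [e4, rp, r0] at i0
  rw [e5, rm, rk] at im
  have Eq : EE cs L (z 0) (ξ 0) (L.flip (ξ (-1))) := by
    have := EE.of_flip D.sym (D.act 0) h0 i0.1 i0.2.2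
    rw [map_neg, neg_neg] at this
    exact this
  have Gk2 : 1 ≤ m → GG cs L (z ((m : ℤ) - 1)) (ξ ((m : ℤ) - 1)) := by
    intro hm
    have e : (m : ℤ) - 1 = ((m - 1 : ℕ) : ℤ) := by omega
    rw [e, ← D.rt_of_pos (hpos (m - 1) (by omega))]
    exact (ih _ (lj (m - 1) (by omega))).1
  obtain ⟨h1, h2⟩ := D.main m hneg hpos ip.1 i0.1 im.1 Gk2 Eq ip.2.1 im.2.1
  refine ⟨h1, fun lam hl1 hl2 => h2 lam hl1 ?_ ?_ ?_⟩
  · have := hl2 0 l0; rwa [r0] at this
  · have := hl2 (-1) lp; rwa [rp] at this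
  · have := hl2 m (lj m (by omega)); rwa [rm] at this

/-- a root at which the run of positive roots ends -/
lemma exists_end (D : DSeq cs L v c z ξ) (h0 : 0 ≤ ξ 0) : ∃ j : ℤ, ξ j ≤ 0 := by
  have hne : z 0 ≠ z (0 + 1) := by
    intro h
    have h2 : v = 1 := by rw [← D.mul 0, ← h, (D.refl 0).mul_self]
    have h3 := D.orth 0
    have h4 : geo cs (z (0 + 1)) (ξ 0) = - ξ 0 := by
      rw [← h, D.refl_act]; congr 1
    rw [D.refl_act] at h4
    have e : (2 : ℤ) * (0 + 1) - 0 = 0 + 1 + 1 := by norm_num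
    rw [e] at h4
    have h5 : ξ (0 + 1 + 1) = ξ 0 := neg_injective h4
    have h6 := D.v_act (0 + 1 + 1)
    have h7 := D.L_down 0 1
    have e7 : (0 : ℤ) + ((1 : ℕ) : ℤ) + 1 = 0 + 1 + 1 := by norm_num
    rw [e7, h5, D.L_self] at h7
    simp at h7
    linarith
  obtain ⟨k, hk⟩ := exists_neg_zpow (D.refl 0) (D.refl (0 + 1)) hne
  rw [D.mul 0, D.rt_of_pos h0] at hk
  have key : ∀ k : ℤ, geo cs (v ^ k) (ξ 0) = ξ (-(2 * k)) := by
    intro k
    rcases Int.eq_nat_or_neg k with ⟨n, rfl | rfl⟩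
    · rw [zpow_natCast]
      apply geo_injective_apply cs ((v⁻¹) ^ n)
      rw [D.vinv_pow_act, geo_geo, inv_pow, inv_mul_cancel, map_one, Module.End.one_apply]
      congr 1; ring
    · rw [zpow_neg, zpow_natCast, ← inv_pow, D.vinv_pow_act]
      congr 1; ring
  rw [key] at hk
  exact ⟨_, ((D.root _).not_nonneg).mp hk⟩

/-- find the nearer end of the run around `0` -/
lemma near_end (D : DSeq cs L v c z ξ) (h0 : 0 ≤ ξ 0) (h1 : 0 ≤ ξ 1) (hm1 : 0 ≤ ξ (-1)) :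
    ∃ m : ℕ, (∀ j : ℤ, -((m : ℤ) + 1) ≤ j → j ≤ (m : ℤ) + 1 → 0 ≤ ξ j) ∧
      (ξ (-((m : ℤ) + 2)) ≤ 0 ∨ ξ ((m : ℤ) + 2) ≤ 0) := by
  classical
  have hex : ∃ n : ℕ, ξ (n : ℤ) ≤ 0 ∨ ξ (-(n : ℤ)) ≤ 0 := by
    obtain ⟨j, hj⟩ := D.exists_end h0
    rcases Int.eq_nat_or_neg j with ⟨n, rfl | rfl⟩
    · exact ⟨n, Or.inl hj⟩
    · exact ⟨n, Or.inr hj⟩
  have hspec := Nat.find_spec hex
  set N := Nat.find hex with hN
  have hmin : ∀ n : ℕ, n < N → 0 ≤ ξ (n : ℤ) ∧ 0 ≤ ξ (-(n : ℤ)) := by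
    intro n hn
    have := Nat.find_min hex hn
    push Not at this
    exact ⟨((D.root _).not_nonpos).mp this.1, ((D.root _).not_nonpos).mp this.2⟩
  have hN0 : N ≠ 0 := by
    intro h
    rw [h] at hspec
    rcases hspec with h2 | h2
    · exact (D.root 0).not_both h0 (by simpa using h2)
    · exact (D.root 0).not_both h0 (by simpa using h2)
  have hN1 : N ≠ 1 := by
    intro h
    rw [h] at hspec
    rcases hspec with h2 | h2
    · exact (D.root 1).not_both h1 (by simpa using h2)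
    · exact (D.root (-1)).not_both hm1 (by simpa using h2)
  refine ⟨N - 2, ?_, ?_⟩
  · intro j hj1 hj2
    rcases Int.eq_nat_or_neg j with ⟨n, rfl | rfl⟩
    · exact (hmin n (by omega)).1
    · exact (hmin n (by omega)).2
  · have e : ((N - 2 : ℕ) : ℤ) + 2 = (N : ℤ) := by omega
    rw [e]; exact hspec.symm

lemma half' (D : DSeq cs L v c z ξ) (m : ℕ)
    (hpos : ∀ j : ℤ, -((m : ℤ) + 1) ≤ j → j ≤ (m : ℤ) + 1 → 0 ≤ ξ j)
    (hneg : ξ (-((m : ℤ) + 2)) ≤ 0) (ih : IH cs L z (cs.length (z 0))) :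
    GG cs L (z 0) (ξ 0) ∧ ∀ lam : (B → ℝ) →ₗ[ℝ] ℝ, (∀ j, lam (ξ j) = 0) →
      (∀ j, cs.length (z j) < cs.length (z 0) → EE cs L (z j) (rt cs (z j)) lam) →
      EE cs L (z 0) (ξ 0) lam := by
  have D' := D.shift (-((m : ℤ) + 1))
  have e0 : ((m + 1 : ℕ) : ℤ) + -((m : ℤ) + 1) = 0 := by push_cast; ring
  have h := D'.half m (by
      have e : (-1 : ℤ) + -((m : ℤ) + 1) = -((m : ℤ) + 2) := by ring
      rw [e]; exact hneg) (by
      intro j hj
      apply hpos <;> omega) (by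
      intro j hj
      rw [e0] at hj
      have := ih (j + -((m : ℤ) + 1)) hj
      have e1 : j + 1 + -((m : ℤ) + 1) = j + -((m : ℤ) + 1) + 1 := by ring
      have e2 : j - 1 + -((m : ℤ) + 1) = j + -((m : ℤ) + 1) - 1 := by ring
      beta_reduce
      rw [e1, e2]; exact this)
  rw [e0] at h
  refine ⟨h.1, fun lam h1 h2 => h.2 lam (fun j => h1 _) (fun j hj => h2 _ hj)⟩

theorem middle (D : DSeq cs L v c z ξ) (h0 : 0 ≤ ξ 0) (h1 : 0 ≤ ξ 1) (hm1 : 0 ≤ ξ (-1))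
    (ih : IH cs L z (cs.length (z 0))) :
    GG cs L (z 0) (ξ 0) ∧ ∀ lam : (B → ℝ) →ₗ[ℝ] ℝ, (∀ j, lam (ξ j) = 0) →
      (∀ j, cs.length (z j) < cs.length (z 0) → EE cs L (z j) (rt cs (z j)) lam) →
      EE cs L (z 0) (ξ 0) lam := by
  obtain ⟨m, hpos, hend | hend⟩ := D.near_end h0 h1 hm1
  · exact D.half' m hpos hend ih
  · have D' := D.rev
    have hz : z (-0) = z 0 := by rw [neg_zero]
    have ih' : IH cs L.flip (fun j => z (-j)) (cs.length (z (-0))) := by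
      intro j hj
      rw [hz] at hj
      obtain ⟨i1, i2, i3⟩ := ih (-j) hj
      refine ⟨?_, ?_, ?_⟩
      · apply GG.of_flip (L := L.flip)
        rw [LinearMap.flip_flip]; exact i1
      · have e : -(j + 1) = -j - 1 := by ring
        beta_reduce
        rw [e]; exact i3
      · have e : -(j - 1) = -j + 1 := by ring
        beta_reduce
        rw [e, LinearMap.flip_flip]; exact i2
    have h := D'.half' m (by
      intro j hj1 hj2
      apply hpos <;> omega) (by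
      have e : -(-((m : ℤ) + 2)) = (m : ℤ) + 2 := by ring
      rw [e]; exact hend) ih'
    simp only [neg_zero] at h
    obtain ⟨g1, g2⟩ := h
    have G0 : GG cs L (z 0) (ξ 0) := g1.of_flip
    refine ⟨G0, fun lam l1 l2 => ?_⟩
    have h3 := g2 (-lam) (fun j => by simp [l1]) (fun j hj => by
      have i1 := ih (-j) hj
      have hGf : GG cs L.flip (z (-j)) (rt cs (z (-j))) := by
        apply GG.of_flip (L := L.flip)
        rw [LinearMap.flip_flip]; exact i1.1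
      apply EE.of_flip (L := L.flip) D.sym.flip (fun x => geo_refl (D.refl _) x)
        (rt_pos (D.refl _)) hGf
      rw [LinearMap.flip_flip]
      exact l2 (-j) hj)
    have h4 := EE.of_flip D.sym (D.act 0) h0 G0 h3
    rw [neg_neg] at h4
    exact h4

/-- if both extremal reflections are simple then all inversions lie in the plane -/
lemma inv_in_plane (D : DSeq cs L v c z ξ) (k : ℕ) (hneg : ξ (-1) ≤ 0) (h0 : 0 ≤ ξ 0)
    {p q : B} (hp : z (-1) = cs.simple p) (hq : z 0 = cs.simple q)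
    {β : B → ℝ} (hβ : PR cs β) (hk : geo cs (z (k : ℤ)) β ≤ 0) :
    ∃ j : ℕ, j ≤ 2 * k ∧ β = ξ (j : ℤ) := by
  have hdk := D.dl_spec β k
  have hroot : ∀ n, IsRt cs (dl M ξ β n) := by
    intro n
    rcases Nat.even_or_odd' n with ⟨a, rfl | rfl⟩
    · rw [(D.dl_spec β a).1]; exact hβ.root.geo _
    · rw [(D.dl_spec β a).2]; exact hβ.root.geo _
  obtain ⟨n, hn, h1, h2⟩ : ∃ n : ℕ, n ≤ 2 * k ∧ 0 ≤ dl M ξ β n ∧ dl M ξ β (n + 1) ≤ 0 := by
    by_contra hcon
    push Not at hcon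
    have : ∀ n : ℕ, n ≤ 2 * k + 1 → 0 ≤ dl M ξ β n := by
      intro n
      induction n with
      | zero => intro _; exact hβ.pos
      | succ n ih =>
        intro hn
        have := hcon n (by omega) (ih (by omega))
        exact ((hroot _).not_nonpos).mp this
    have h3 := this (2 * k + 1) le_rfl
    rw [hdk.2] at h3
    exact (hβ.root.geo _).not_both h3 hk
  refine ⟨n, hn, ?_⟩
  rcases Nat.even_or_odd' n with ⟨a, rfl | rfl⟩
  · have s1 := (D.dl_spec β a).1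
    have s2 := (D.dl_spec β a).2
    rw [s2] at h2
    rw [s1] at h1
    have e : geo cs (z (a : ℤ)) β = geo cs (z 0) (geo cs (v ^ a) β) := by rw [D.z_nat, ← geo_geo]
    rw [e, hq] at h2
    have h3 : geo cs (v ^ a) β = ee q := PR.eq_ee ⟨hβ.root.geo _, h1⟩ h2
    have h4 : ξ 0 = ee q := by rw [← D.rt_of_pos h0, hq, rt_simple]
    apply geo_injective_apply cs (v ^ a)
    rw [h3, ← h4]
    have h5 := D.vinv_pow_act a 0
    have h6 : geo cs (v ^ a) (geo cs ((v⁻¹) ^ a) (ξ 0)) = ξ 0 := by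
      rw [geo_geo, inv_pow, mul_inv_cancel, map_one, Module.End.one_apply]
    have e7 : (0 : ℤ) + 2 * (a : ℤ) = ((2 * a : ℕ) : ℤ) := by omega
    rw [h5, e7] at h6
    exact h6.symm
  · have s1 := (D.dl_spec β a).2
    have s2 := (D.dl_spec β (a + 1)).1
    have e : 2 * (a + 1) = 2 * a + 1 + 1 := by ring
    rw [e] at s2
    rw [s2] at h2
    rw [s1] at h1
    have e2 : v ^ (a + 1) = z (-1) * z (a : ℤ) := by
      rw [D.z_nat, ← mul_assoc]
      have := D.mul (-1)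
      have e3 : (-1 : ℤ) + 1 = 0 := by norm_num
      rw [e3] at this
      rw [this, pow_succ']
    rw [e2, ← geo_geo, hp] at h2
    have h3 : geo cs (z (a : ℤ)) β = ee p := PR.eq_ee ⟨hβ.root.geo _, h1⟩ h2
    have h4 : - ξ (-1) = ee p := by rw [← D.rt_of_neg hneg, hp, rt_simple]
    apply geo_injective_apply cs (z (a : ℤ))
    rw [h3, ← h4, D.refl_act]
    congr 2; omega

lemma rank_two (D : DSeq cs L v c z ξ) (k : ℕ) (hneg : ξ (-1) ≤ 0)
    (hpos : ∀ j : ℕ, j ≤ 2 * k → 0 ≤ ξ (j : ℤ))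
    (hS : ∀ j : ℕ, j ≤ 2 * k → 0 ≤ Sn c j)
    (hS' : ∀ j : ℕ, 1 ≤ j → j ≤ 2 * k → 0 < Sn c j)
    {p q : B} (hp : z (-1) = cs.simple p) (hq : z 0 = cs.simple q) :
    EE cs L (z (k : ℤ)) (ξ (k : ℤ)) (L (ξ ((k : ℤ) + 1))) ∧
    EE cs L (z (k : ℤ)) (ξ (k : ℤ)) (-(L.flip (ξ ((k : ℤ) - 1)))) := by
  have h0 : 0 ≤ ξ 0 := by simpa using hpos 0 (by omega)
  constructor
  · intro β hβ hz hne
    obtain ⟨j, hj, rfl⟩ := D.inv_in_plane k hneg h0 hp hq hβ hz
    rcases lt_trichotomy j k with h | h | h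
    · have e1 : L (ξ (k : ℤ)) (ξ (j : ℤ)) = - Sn c (k - j - 1) := D.L_down' _ _ _ (by omega)
      have e2 : L (ξ ((k : ℤ) + 1)) (ξ (j : ℤ)) = - Sn c (k - j) := D.L_down' _ _ _ (by omega)
      rw [e1, e2]
      have s1 := hS (k - j - 1) (by omega)
      have s2 := hS (k - j) (by omega)
      refine ⟨fun h => by linarith, fun _ => by linarith⟩
    · subst h; exact absurd rfl hne
    · have e1 : L (ξ (k : ℤ)) (ξ (j : ℤ)) = Sn c (j - k + 1) := D.L_up' _ _ _ (by omega)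
      have e2 : L (ξ ((k : ℤ) + 1)) (ξ (j : ℤ)) = Sn c (j - k - 1 + 1) := D.L_up' _ _ _ (by omega)
      rw [e1, e2]
      have s1 := hS' (j - k + 1) (by omega) (by omega)
      have s2 := hS (j - k - 1 + 1) (by omega)
      refine ⟨fun _ => s2, fun h => by linarith⟩
  · intro β hβ hz hne
    obtain ⟨j, hj, rfl⟩ := D.inv_in_plane k hneg h0 hp hq hβ hz
    simp only [LinearMap.neg_apply, LinearMap.flip_apply]
    rcases lt_trichotomy j k with h | h | h
    · have e1 : L (ξ (k : ℤ)) (ξ (j : ℤ)) = - Sn c (k - j - 1) := D.L_down' _ _ _ (by omega)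
      have e2 : L (ξ (j : ℤ)) (ξ ((k : ℤ) - 1)) = Sn c (k - j - 1 + 1) := D.L_up' _ _ _ (by omega)
      rw [e1, e2]
      have s1 := hS (k - j - 1) (by omega)
      have s2 := hS (k - j - 1 + 1) (by omega)
      refine ⟨fun h => by linarith, fun _ => by linarith⟩
    · subst h; exact absurd rfl hne
    · have e1 : L (ξ (k : ℤ)) (ξ (j : ℤ)) = Sn c (j - k + 1) := D.L_up' _ _ _ (by omega)
      have e2 : L (ξ (j : ℤ)) (ξ ((k : ℤ) - 1)) = - Sn c (j - k) := D.L_down' _ _ _ (by omega)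
      rw [e1, e2]
      have s1 := hS' (j - k + 1) (by omega) (by omega)
      have s2 := hS (j - k) (by omega)
      refine ⟨fun _ => by linarith, fun h => by linarith⟩

end DSeq

end Pool.Agent.TH107
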