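import Pool.Agent.TH107.Hur

set_option autoImplicit false

namespace Pool.Agent.TH107

open Pool.Agent.Helper741 CoxeterSystem

variable {B : Type*} {M : CoxeterMatrix B} [Fintype B] [DecidableEq B]
variable {W : Type*} [Group W] {cs : CoxeterSystem M W}

/-- bilinear forms -/
abbrev Bil (B : Type*) := (B → ℝ) →ₗ[ℝ] (B → ℝ) →ₗ[ℝ] ℝ

variable (M) in
/-- `L` is a (non symmetric) form with symmetrisation the Coxeter form -/
def Sym (L : Bil B) : Prop := ∀ x y, L x y + L y x = bil M x y

lemma Sym.flip {L : Bil B} (h : Sym M L) : Sym M L.flip := by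
  intro x y
  rw [LinearMap.flip_apply, LinearMap.flip_apply, add_comm]; exact h x y

lemma Sym.root {L : Bil B} (h : Sym M L) {v : B → ℝ} (hv : bil M v v = 2) : L v v = 1 := by
  have := h v v; linarith

/-- reflection formulas -/
lemma Sym.refl_right {L : Bil B} (h : Sym M L) {t : W} (ht : cs.IsReflection t) (y : B → ℝ) :
    L (rt cs t) (geo cs t y) = - L y (rt cs t) := by
  rw [geo_refl ht, map_sub, map_smul, smul_eq_mul, h.root (bil_rt_self ht), ← h]; ring

lemma Sym.refl_left {L : Bil B} (h : Sym M L) {t : W} (ht : cs.IsReflection t) (y : B → ℝ) :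
    L (geo cs t y) (rt cs t) = - L (rt cs t) y := by
  rw [geo_refl ht, map_sub, map_smul, LinearMap.sub_apply, LinearMap.smul_apply, smul_eq_mul,
    h.root (bil_rt_self ht), ← h]; ring

lemma inv_right {L : Bil B} {t : W} (ht : cs.IsReflection t) {x : B → ℝ}
    (h : L x (rt cs t) = 0) (y : B → ℝ) : L x (geo cs t y) = L x y := by
  rw [geo_refl ht, map_sub, map_smul, h, smul_zero, sub_zero]

lemma inv_left {L : Bil B} {t : W} (ht : cs.IsReflection t) {x : B → ℝ}
    (h : L (rt cs t) x = 0) (y : B → ℝ) : L (geo cs t y) x = L y x := by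
  rw [geo_refl ht, map_sub, map_smul, LinearMap.sub_apply, LinearMap.smul_apply, h, smul_zero,
    sub_zero]

variable (M) in
/-- adapted forms -/
structure Adapted (L : Bil B) (l : List B) : Prop where
  sym : Sym M L
  upper : l.Pairwise (fun i j => L (ee j) (ee i) = 0)
  nodup : l.Nodup

lemma Adapted.sublist {L : Bil B} {l l' : List B} (h : Adapted M L l) (hs : l'.Sublist l) :
    Adapted M L l' := ⟨h.sym, h.upper.sublist hs, h.nodup.sublist hs⟩

lemma Adapted.flip {L : Bil B} {l : List B} (h : Adapted M L l) : Adapted M L.flip l.reverse := by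
  refine ⟨h.sym.flip, ?_, List.nodup_reverse.mpr h.nodup⟩
  rw [List.pairwise_reverse]
  exact h.upper

variable (cs) in
/-- factorisations of a Coxeter element into reflections -/
def Fac (l : List B) (f : List W) : Prop :=
  (∀ t ∈ f, cs.IsReflection t) ∧ f.prod = cs.wordProd l ∧ f.length = l.length

lemma Fac.hur {l : List B} {f f' : List W} (h : Fac cs l f) (hH : Hur f f') : Fac cs l f' :=
  ⟨hH.refls h.1, by rw [← hH.prod]; exact h.2.1, by rw [← hH.length]; exact h.2.2⟩

lemma rt_conj_lin {t r : W} (ht : cs.IsReflection t) (hr : cs.IsReflection r) :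
    ∃ s : ℝ, rt cs (t * r * t⁻¹) = s • geo cs t (rt cs r) := by
  rcases ((rt_isRt hr).geo t).cases with h | h
  · exact ⟨1, by rw [rt_conj_pos hr t h, one_smul]⟩
  · exact ⟨-1, by rw [rt_conj_neg hr t h, neg_one_smul]⟩

lemma orth_conj {L : Bil B} (hL : Sym M L) {t r : W} (ht : cs.IsReflection t) (hr : cs.IsReflection r)
    (h : L (rt cs r) (rt cs t) = 0) : L (rt cs t) (rt cs (t * r * t⁻¹)) = 0 := by
  obtain ⟨s, hs⟩ := rt_conj_lin ht hr
  rw [hs, map_smul, hL.refl_right ht, h]; simp

lemma orth_conj' {L : Bil B} (hL : Sym M L) {t r : W} (ht : cs.IsReflection t) (hr : cs.IsReflection r)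
    (h : L (rt cs t) (rt cs (t * r * t⁻¹)) = 0) : L (rt cs r) (rt cs t) = 0 := by
  have hr' := hr.conj t
  obtain ⟨s, hs⟩ := rt_conj_lin ht hr'
  have e : t * (t * r * t⁻¹) * t⁻¹ = r := by
    have := ht.mul_self
    have h2 : t⁻¹ = t := ht.inv
    rw [h2]
    calc t * (t * r * t) * t = (t * t) * r * (t * t) := by simp only [mul_assoc]
      _ = r := by rw [this]; simp
  rw [e] at hs
  rw [hs, map_smul, LinearMap.smul_apply, hL.refl_left ht, h]; simp

lemma lin_right {L : Bil B} {t r : W} (ht : cs.IsReflection t) (hr : cs.IsReflection r)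
    {x : B → ℝ} (h1 : L x (rt cs t) = 0) (h2 : L x (rt cs r) = 0) :
    L x (rt cs (t * r * t⁻¹)) = 0 := by
  obtain ⟨s, hs⟩ := rt_conj_lin ht hr
  rw [hs, map_smul, inv_right ht h1, h2, smul_zero]

lemma lin_left {L : Bil B} {t r : W} (ht : cs.IsReflection t) (hr : cs.IsReflection r)
    {x : B → ℝ} (h1 : L (rt cs t) x = 0) (h2 : L (rt cs r) x = 0) :
    L (rt cs (t * r * t⁻¹)) x = 0 := by
  obtain ⟨s, hs⟩ := rt_conj_lin ht hr
  rw [hs, map_smul, LinearMap.smul_apply, inv_left ht h1, h2, smul_zero]

/-- orthogonality of a factorisation -/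
def Orth (cs : CoxeterSystem M W) (L : Bil B) (f : List W) : Prop :=
  f.Pairwise (fun t r => L (rt cs r) (rt cs t) = 0)

lemma Orth.step {L : Bil B} (hL : Sym M L) {f f' : List W} (h : HStep f f')
    (hf : ∀ t ∈ f, cs.IsReflection t) (ho : Orth cs L f) : Orth cs L f' := by
  unfold Orth at *
  cases h with
  | fwd a b t r =>
    have ht : cs.IsReflection t := hf t (by simp)
    have hr : cs.IsReflection r := hf r (by simp)
    rw [List.pairwise_append, List.pairwise_cons, List.pairwise_cons] at ho ⊢
    obtain ⟨h1, ⟨h2, h3, h4⟩, h5⟩ := ho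
    refine ⟨h1, ⟨?_, ?_, h4⟩, ?_⟩
    · intro x hx
      rcases List.mem_cons.mp hx with rfl | hx
      · exact orth_conj hL ht hr (h2 r (by simp))
      · exact lin_right ht hr (h2 x (by simp [hx])) (h3 x hx)
    · intro x hx; exact h2 x (by simp [hx])
    · intro x hx y hy
      simp only [List.mem_cons] at hy
      rcases hy with rfl | rfl | hy
      · exact lin_left ht hr (h5 x hx t (by simp)) (h5 x hx r (by simp))
      · exact h5 x hx y (by simp)
      · exact h5 x hx y (by simp [hy])
  | bwd a b t r =>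
    have ht : cs.IsReflection t := hf t (by simp)
    have hr' : cs.IsReflection (t * r * t⁻¹) := hf _ (by simp)
    have hr : cs.IsReflection r := by
      have := hr'.conj t⁻¹
      have e : t⁻¹ * (t * r * t⁻¹) * t⁻¹⁻¹ = r := by group
      rwa [e] at this
    have e2 : t * (t * r * t⁻¹) * t⁻¹ = r := by
      have h1 := ht.mul_self
      have h2 : t⁻¹ = t := ht.inv
      rw [h2]
      calc t * (t * r * t) * t = (t * t) * r * (t * t) := by simp only [mul_assoc]
        _ = r := by rw [h1]; simp
    rw [List.pairwise_append, List.pairwise_cons, List.pairwise_cons] at ho ⊢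
    obtain ⟨h1, ⟨h2, h3, h4⟩, h5⟩ := ho
    refine ⟨h1, ⟨?_, ?_, h4⟩, ?_⟩
    · intro x hx
      rcases List.mem_cons.mp hx with rfl | hx
      · exact orth_conj' hL ht hr (h2 t (by simp))
      · exact h3 x hx
    · intro x hx
      have := lin_right (L := L) (x := rt cs x) ht hr' (h3 x hx) (h2 x (by simp [hx]))
      rwa [e2] at this
    · intro x hx y hy
      simp only [List.mem_cons] at hy
      rcases hy with rfl | rfl | hy
      · exact h5 x hx y (by simp)
      · have := lin_left (L := L) (x := rt cs x) ht hr' (h5 x hx t (by simp)) (h5 x hx _ (by simp))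
        rwa [e2] at this
      · exact h5 x hx y (by simp [hy])

lemma Orth.hur {L : Bil B} (hL : Sym M L) {f f' : List W} (h : Hur f f')
    (hf : ∀ t ∈ f, cs.IsReflection t) (ho : Orth cs L f) : Orth cs L f' := by
  induction h with
  | refl => exact ho
  | tail h1 h2 ih => exact ih.step hL h2 (Hur.refls h1 hf)

lemma Fac.to_simple {l : List B} {f : List W} (hl : l.Nodup) (h : Fac cs l f) :
    Hur f (l.map cs.simple) :=
  (hurH l.length l rfl hl f h.1 h.2.1).2 h.2.2

lemma simple_refls (l : List B) : ∀ t ∈ l.map cs.simple, cs.IsReflection t := by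
  intro t ht
  obtain ⟨i, _, rfl⟩ := List.mem_map.mp ht
  exact cs.isReflection_simple i

lemma Fac.orth {L : Bil B} {l : List B} (hL : Adapted M L l) {f : List W} (h : Fac cs l f) :
    Orth cs L f := by
  apply Orth.hur hL.sym (h.to_simple hL.nodup).symm (simple_refls l)
  unfold Orth
  rw [List.pairwise_map]
  apply hL.upper.imp
  intro i j hij
  rw [rt_simple, rt_simple]; exact hij

/-- support -/
lemma supp_hur {l : List B} {f f' : List W} (h : Hur f f')
    (hf : ∀ t ∈ f, cs.IsReflection t) (ho : ∀ t ∈ f, ∀ i, i ∉ l → rt cs t i = 0) :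
    ∀ t ∈ f', ∀ i, i ∉ l → rt cs t i = 0 := by
  have key : ∀ t r : W, cs.IsReflection t → cs.IsReflection r → ∀ i, rt cs t i = 0 →
      rt cs r i = 0 → rt cs (t * r * t⁻¹) i = 0 := by
    intro t r ht hr i h1 h2
    obtain ⟨s, hs⟩ := rt_conj_lin ht hr
    rw [hs, geo_refl ht]
    simp [h1, h2]
  induction h with
  | refl => exact ho
  | tail h1 h2 ih =>
    have hb := Hur.refls h1 hf
    clear h1 ho hf
    cases h2 with
    | fwd a b t r =>
      intro x hx i hi
      simp only [List.mem_append, List.mem_cons] at hx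
      rcases hx with hx | rfl | rfl | hx
      · exact ih x (by simp [hx]) i hi
      · exact key t r (hb t (by simp)) (hb r (by simp)) i (ih t (by simp) i hi) (ih r (by simp) i hi)
      · exact ih x (by simp) i hi
      · exact ih x (by simp [hx]) i hi
    | bwd a b t r =>
      have ht : cs.IsReflection t := hb t (by simp)
      have hr' : cs.IsReflection (t * r * t⁻¹) := hb _ (by simp)
      have e2 : t * (t * r * t⁻¹) * t⁻¹ = r := by
        have h1 := ht.mul_self
        have h2 : t⁻¹ = t := ht.inv
        rw [h2]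
        calc t * (t * r * t) * t = (t * t) * r * (t * t) := by simp only [mul_assoc]
          _ = r := by rw [h1]; simp
      intro x hx i hi
      simp only [List.mem_append, List.mem_cons] at hx
      rcases hx with hx | rfl | rfl | hx
      · exact ih x (by simp [hx]) i hi
      · exact ih x (by simp) i hi
      · have := key t _ ht hr' i (ih t (by simp) i hi) (ih _ (by simp) i hi)
        rwa [e2] at this
      · exact ih x (by simp [hx]) i hi

lemma Fac.supp {l : List B} (hl : l.Nodup) {f : List W} (h : Fac cs l f) :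
    ∀ t ∈ f, ∀ i, i ∉ l → rt cs t i = 0 := by
  apply supp_hur (h.to_simple hl).symm (simple_refls l)
  intro t ht i hi
  obtain ⟨j, hj, rfl⟩ := List.mem_map.mp ht
  rw [rt_simple]
  have : i ≠ j := by rintro rfl; exact hi hj
  simp [ee, this]

/-- inversions of a supported reflection are supported -/
lemma supp_inv {t : W} (ht : cs.IsReflection t) {i : B} (hi : rt cs t i = 0) {β : B → ℝ}
    (hβ : PR cs β) (h : geo cs t β ≤ 0) : β i = 0 := by
  have h1 := h i
  rw [geo_refl ht] at h1
  simp only [Pi.sub_apply, Pi.smul_apply, hi, smul_zero, sub_zero, Pi.zero_apply] at h1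
  exact le_antisymm h1 (hβ.pos i)

lemma decomp (x : B → ℝ) : x = ∑ j, x j • (ee j : B → ℝ) := by
  ext j
  simp [ee, Finset.sum_apply, Pi.single_apply]

lemma L_decomp_left (L : Bil B) (x y : B → ℝ) : L x y = ∑ j, x j * L (ee j) y := by
  conv_lhs => rw [decomp x]
  rw [map_sum, LinearMap.sum_apply]
  simp

lemma L_decomp_right (L : Bil B) (x y : B → ℝ) : L x y = ∑ j, y j * L x (ee j) := by
  conv_lhs => rw [decomp y]
  rw [map_sum]
  simp

lemma L_zero_left {L : Bil B} {l : List B} {x y : B → ℝ} (hx : ∀ j, j ∉ l → x j = 0)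
    (h : ∀ j ∈ l, L (ee j) y = 0) : L x y = 0 := by
  rw [L_decomp_left]
  apply Finset.sum_eq_zero
  intro j _
  by_cases hj : j ∈ l
  · rw [h j hj, mul_zero]
  · rw [hx j hj, zero_mul]

lemma L_zero_right {L : Bil B} {l : List B} {x y : B → ℝ} (hy : ∀ j, j ∉ l → y j = 0)
    (h : ∀ j ∈ l, L x (ee j) = 0) : L x y = 0 := by
  rw [L_decomp_right]
  apply Finset.sum_eq_zero
  intro j _
  by_cases hj : j ∈ l
  · rw [h j hj, mul_zero]
  · rw [hy j hj, zero_mul]

/-- Serre duality -/
lemma serre_word {L : Bil B} (l : List B) (hL : Adapted M L l) : ∀ (x z : B → ℝ),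
    (∀ j, j ∉ l → x j = 0) → L x (geo cs (cs.wordProd l) z) = - L z x := by
  induction l with
  | nil =>
    intro x z hx
    have : x = 0 := by ext j; exact hx j (by simp)
    subst this; simp
  | cons i l ih =>
    intro x z hx
    have hL' : Adapted M L l := hL.sublist (by simp)
    have hup : ∀ j ∈ l, L (ee j) (ee i) = 0 := (List.pairwise_cons.mp hL.upper).1
    have hi : i ∉ l := (List.nodup_cons.mp hL.nodup).1
    set x' : B → ℝ := x - x i • ee i with hx'
    have hx's : ∀ j, j ∉ l → x' j = 0 := by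
      intro j hj
      by_cases hji : j = i
      · subst hji; simp [hx', ee]
      · have := hx j (by simp [hji, hj])
        simp [hx', ee, hji, this]
    have hxx : x = x i • ee i + x' := by rw [hx']; module
    have h1 : L x' (ee i) = 0 := L_zero_left hx's hup
    have hs := cs.isReflection_simple i
    have e1 : L (ee i) (geo cs (cs.wordProd (i :: l)) z) = - L z (ee i) := by
      rw [wordProd_cons, ← geo_geo]
      have h2 := hL.sym.refl_right hs (geo cs (cs.wordProd l) z)
      rw [rt_simple] at h2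
      rw [h2]
      have h3 : L (geo cs (cs.wordProd l) z - z) (ee i) = 0 := by
        apply L_zero_left (l := l) _ hup
        intro j hj
        rw [Pi.sub_apply, geo_wordProd_coord l z hj, sub_self]
      rw [map_sub, LinearMap.sub_apply, sub_eq_zero] at h3
      rw [h3]
    have e2 : L x' (geo cs (cs.wordProd (i :: l)) z) = - L z x' := by
      rw [wordProd_cons, ← geo_geo]
      have h2 := inv_right (L := L) (x := x') hs (by rw [rt_simple]; exact h1)
        (geo cs (cs.wordProd l) z)
      rw [h2, ih hL' x' z hx's]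
    conv_lhs => rw [hxx]
    conv_rhs => rw [hxx]
    rw [map_add, map_smul, LinearMap.add_apply, LinearMap.smul_apply, e1, e2, map_add, map_smul]
    simp only [smul_eq_mul]
    ring

/-- the functional of a right inversion of the Coxeter element -/
lemma kappa {L : Bil B} {ω₁ ω₂ : List B} {i : B} (hL : Adapted M L (ω₁ ++ i :: ω₂)) {v y : B → ℝ}
    (hv : geo cs (cs.wordProd ω₂) v = ee i) (hy : ∀ j, j ∉ ω₁ ++ i :: ω₂ → y j = 0) :
    L v y = y i := by
  have hL2 : Adapted M L ω₂ := hL.sublist (by simp)
  have hLi : Adapted M L (i :: ω₂) := hL.sublist (by simp)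
  have hup2 : ∀ j ∈ ω₂, L (ee j) (ee i) = 0 := (List.pairwise_cons.mp hLi.upper).1
  have hi : i ∉ ω₂ := (List.nodup_cons.mp hLi.nodup).1
  have hup1 : ∀ a ∈ ω₁, ∀ b ∈ i :: ω₂, L (ee b) (ee a) = 0 :=
    (List.pairwise_append.mp hL.upper).2.2
  -- v = ee i + u
  have hvi : ∀ j, j ∉ ω₂ → v j = (ee i : B → ℝ) j := by
    intro j hj
    rw [← hv, geo_wordProd_coord ω₂ v hj]
  have h2 : ∀ j ∈ ω₂, L v (ee j) = 0 := by
    intro j hj
    have h3 := serre_word ω₂ hL2 (cs := cs) (ee j) v (by
      intro k hk
      have : k ≠ j := by rintro rfl; exact hk hj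
      simp [ee, this])
    rw [hv, hup2 j hj] at h3
    linarith
  have h1 : L v (ee i) = 1 := by
    have h3 : L (v - ee i) (ee i) = 0 := by
      apply L_zero_left (l := ω₂) _ hup2
      intro j hj
      rw [Pi.sub_apply, hvi j hj, sub_self]
    rw [map_sub, LinearMap.sub_apply, sub_eq_zero] at h3
    rw [h3]
    apply hL.sym.root
    rw [bil_ee_left, coroot_ee, cc_self]; norm_num
  have h0 : ∀ j ∈ ω₁, L v (ee j) = 0 := by
    intro j hj
    apply L_zero_left (l := i :: ω₂)
    · intro k hk
      simp only [List.mem_cons, not_or] at hk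
      rw [hvi k hk.2]
      simp [ee, hk.1]
    · intro k hk; exact hup1 j hj k hk
  rw [L_decomp_right, Finset.sum_eq_single i]
  · rw [h1, mul_one]
  · intro j _ hji
    by_cases hj : j ∈ ω₁ ++ i :: ω₂
    · simp only [List.mem_append, List.mem_cons] at hj
      rcases hj with hj | hj | hj
      · rw [h0 j hj, mul_zero]
      · exact absurd hj hji
      · rw [h2 j hj, mul_zero]
    · rw [hy j hj, zero_mul]
  · intro h; exact absurd (Finset.mem_univ i) h

end Pool.Agent.TH107
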