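import Pool.Agent.TH107.Run

set_option autoImplicit false

namespace Pool.Agent.TH107

open Pool.Agent.Helper741 CoxeterSystem

variable {B : Type*} {M : CoxeterMatrix B} [Fintype B] [DecidableEq B]
variable {W : Type*} [Group W] {cs : CoxeterSystem M W}

lemma Fac.no_square {l : List B} (hl : l.Nodup) {f : List W} (h : Fac cs l f) {a b : List W} {u : W}
    (hH : Hur f (a ++ u :: u :: b)) : False := by
  have h2 := h.hur hH
  have hu : cs.IsReflection u := h2.1 u (by simp)
  have hprod : (a ++ b).prod = cs.wordProd l := by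
    rw [← h2.2.1]
    simp only [List.prod_append, List.prod_cons]
    rw [← mul_assoc u u, hu.mul_self, one_mul]
  have h3 := (hurH l.length l rfl hl (a ++ b)
    (fun x hx => h2.1 x (by simp only [List.mem_append, List.mem_cons] at hx ⊢; tauto)) hprod).1
  have h4 := h2.2.2
  simp only [List.length_append, List.length_cons] at h3 h4
  omega

lemma Fac.move_second {l : List B} {t r : W} {A C : List W} (h : Fac cs l (t :: (A ++ r :: C))) :
    ∃ g', Fac cs l (t :: r :: g') := by
  refine ⟨A.map (fun a => r⁻¹ * a * r) ++ C, h.hur ?_⟩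
  have h1 := ((hur_move2 A r).right C).cons t
  simpa using h1

lemma Fac.to_last {l : List B} {t r : W} {g : List W} (h : Fac cs l (t :: r :: g)) :
    Fac cs l (t :: (g.map (fun a => r * a * r⁻¹) ++ [r])) :=
  h.hur ((hur_move3 g r).cons t)

lemma Fac.reverse {l : List B} {f : List W} (h : Fac cs l f) : Fac cs l.reverse f.reverse := by
  refine ⟨fun t ht => h.1 t (List.mem_reverse.mp ht), ?_, by simp [h.2.2]⟩
  rw [wordProd_reverse, ← h.2.1, List.prod_inv_reverse]
  congr 2
  symm
  have : ∀ x ∈ f, x⁻¹ = id x := fun x hx => (h.1 x hx).inv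
  rw [List.map_congr_left this, List.map_id]

lemma Fac.swap_rev {l : List B} {a b : W} {g : List W} (h : Fac cs l (a :: b :: g)) :
    ∃ g', Fac cs l.reverse (b :: a :: g') := by
  have h1 := h.reverse
  have e : (a :: b :: g).reverse = g.reverse ++ b :: [a] := by simp
  rw [e] at h1
  have h2 : Fac cs l.reverse ((b :: g.reverse.map (fun x => b⁻¹ * x * b)) ++ [a]) := by
    apply h1.hur
    have := (hur_move2 g.reverse b).right [a]
    simpa using this
  exact Fac.move_second (A := g.reverse.map (fun x => b⁻¹ * x * b)) (C := []) h2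

lemma Fac.dihedral {l : List B} {t u : W} {g : List W} (h : Fac cs l (t :: u :: g)) (j : ℤ) :
    Fac cs l (((t * u) ^ (-j) * t) :: ((t * u) ^ (-(j + 1)) * t) :: g) := by
  have ht : cs.IsReflection t := h.1 t (by simp)
  have hu : cs.IsReflection u := h.1 u (by simp)
  have h1 := (hur_pair ht.mul_self hu.mul_self (-j)).right g
  have e : -j - 1 = -(j + 1) := by ring
  rw [e] at h1
  exact h.hur h1

lemma Fac.pair_orth {L : Bil B} {l : List B} (hL : Adapted M L l) {t u : W} {g : List W}
    (h : Fac cs l (t :: u :: g)) : L (rt cs u) (rt cs t) = 0 := by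
  have := h.orth hL
  unfold Orth at this
  exact (List.pairwise_cons.mp this).1 u (by simp)

/-- the dihedral sequence of a consecutive pair -/
lemma Fac.dseq {L : Bil B} {l : List B} (hL : Adapted M L l) {t u : W} {g : List W}
    (h : Fac cs l (t :: u :: g)) {x0 x1 : B → ℝ} (hx0 : IsRt cs x0) (hx1 : IsRt cs x1)
    (h0 : ∀ y, geo cs t y = y - bil M x0 y • x0) (h1 : ∀ y, geo cs u y = y - bil M x1 y • x1) :
    DSeq cs L (t * u) (bil M x0 x1) (fun j => (t * u) ^ (-j) * t) (xiSeq cs (t * u) x0 x1) :=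
  mkDSeq hL.sym (h.1 t (by simp)) (h.1 u (by simp)) hx0 hx1 h0 h1
    (fun j => (h.dihedral j).pair_orth hL)

lemma xiSeq_zero (v : W) (x0 x1 : B → ℝ) : xiSeq cs v x0 x1 0 = x0 := by
  have := xiSeq_even (cs := cs) v x0 x1 0
  simpa using this

lemma xiSeq_one (v : W) (x0 x1 : B → ℝ) : xiSeq cs v x0 x1 1 = x1 := by
  have := xiSeq_odd (cs := cs) v x0 x1 0
  simpa using this

lemma zzero {t u : W} : (t * u) ^ (-(0 : ℤ)) * t = t := by simp

lemma zone {t u : W} (ht : cs.IsReflection t) (hu : cs.IsReflection u) :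
    (t * u) ^ (-(1 : ℤ)) * t = u := by
  rw [zpow_neg, zpow_one, mul_inv_rev, ht.inv, hu.inv, mul_assoc, ht.mul_self, mul_one]

/-- the property to be proved -/
def PP (cs : CoxeterSystem M W) (L : Bil B) (l : List B) (t : W) : Prop :=
  GG cs L t (rt cs t) ∧ ∀ r g', Fac cs l (t :: r :: g') → EE cs L t (rt cs t) (L (rt cs r))

lemma simple_vac {t : W} (ht : cs.IsReflection t) (h1 : cs.length t ≤ 1) {β : B → ℝ}
    (hβ : PR cs β) (hz : geo cs t β ≤ 0) : β = rt cs t := by
  have h2 : cs.length t = 1 := by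
    have := ht.odd_length
    obtain ⟨k, hk⟩ := this
    omega
  obtain ⟨i, hi⟩ := cs.length_eq_one_iff.mp h2
  rw [hi] at hz ⊢
  rw [rt_simple]
  exact hβ.eq_ee hz

/-- the inductive hypothesis along the sequence -/
lemma ih_seq {L : Bil B} {l : List B} (hL : Adapted M L l) {t u : W} {g : List W} (N : ℕ)
    (hfac : Fac cs l (t :: u :: g))
    (ihN : ∀ (L : Bil B) (l' : List B), l'.length = l.length → Adapted M L l' → ∀ t g,
      Fac cs l' (t :: g) → cs.length t < N → PP cs L l' t) :
    IH cs L (fun j => (t * u) ^ (-j) * t) N := by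
  intro j hj
  have f1 := hfac.dihedral j
  have p1 := ihN L l rfl hL _ _ f1 hj
  refine ⟨p1.1, p1.2 _ _ f1, ?_⟩
  have f2 := hfac.dihedral (j - 1)
  have e : j - 1 + 1 = j := by ring
  rw [e] at f2
  obtain ⟨g', f3⟩ := f2.swap_rev
  have p3 := ihN L.flip l.reverse (by simp) hL.flip _ _ f3 hj
  exact p3.2 _ _ f3

/-- a nonsimple reflection has a right partner among its inversions -/
lemma exists_partner {l : List B} (hl : l.Nodup) {t : W} {g : List W} (h : Fac cs l (t :: g))
    (h2 : 1 < cs.length t) : ∃ t1 g1, Fac cs l (t :: t1 :: g1) ∧ t1 ≠ t ∧ geo cs t (rt cs t1) ≤ 0 := by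
  rcases valley t g (fun u hu => h.1 u (by simp [hu])) with ⟨g', hH, hnp⟩ | ⟨a, u, b, hH⟩
  · have h3 := h.hur (hH.cons t)
    match g', h3, hnp with
    | [], h3, _ =>
      exfalso
      have h4 := h3.2.1
      have h5 := h3.2.2
      simp only [List.prod_cons, List.prod_nil, mul_one, List.length_cons, List.length_nil] at h4 h5
      have h6 := cs.length_wordProd_le l
      rw [← h4] at h6
      omega
    | t1 :: g1, h3, hnp =>
      have ht1 : cs.IsReflection t1 := h3.1 t1 (by simp)
      have ht : cs.IsReflection t := h3.1 t (by simp)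
      by_cases hup : cs.length t < cs.length (t * t1)
      · exfalso
        have h4 := nopeak_up g1 t t1 (fun u hu => h3.1 u (by simp [hu])) hnp hup
        have h5 := upp_count (t1 :: g1) t h4
        have h6 : t * (t1 :: g1).prod = cs.wordProd l := by rw [← h3.2.1]; simp
        rw [h6] at h5
        have h7 := cs.length_wordProd_le l
        have h8 := h3.2.2
        simp only [List.length_cons] at h5 h8
        omega
      · refine ⟨t1, g1, h3, ?_, ?_⟩
        · rintro rfl
          exact h3.no_square hl (a := []) (Hur.refl _)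
        · have h4 := length_ne ht1 t
          rw [← length_gt_iff ht1]
          omega
  · exfalso
    exact h.no_square hl (a := t :: a) (hH.cons t)

lemma partner_mid {t u : W} (ht : cs.IsReflection t) (hu : cs.IsReflection u)
    {L : Bil B} {l : List B} (hL : Adapted M L l) {g : List W}
    (h : Fac cs l (t :: u :: g)) (hneg : geo cs t (rt cs u) ≤ 0) :
    let D := h.dseq hL (rt_isRt ht) (rt_isRt hu) (geo_refl ht) (geo_refl hu)
    0 ≤ xiSeq cs (t * u) (rt cs t) (rt cs u) 0 ∧ 0 ≤ xiSeq cs (t * u) (rt cs t) (rt cs u) 1 ∧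
      0 ≤ xiSeq cs (t * u) (rt cs t) (rt cs u) (-1) := by
  intro D
  refine ⟨by rw [xiSeq_zero]; exact rt_pos ht, by rw [xiSeq_one]; exact rt_pos hu, ?_⟩
  have h1 := D.refl_act 0 1
  simp only [zzero, xiSeq_one] at h1
  rw [h1] at hneg
  have e : (2 : ℤ) * 0 - 1 = -1 := by norm_num
  rw [e] at hneg
  exact neg_nonpos.mp hneg

lemma Spos_all {L : Bil B} {v : W} {c : ℝ} {z : ℤ → W} {ξ : ℤ → B → ℝ} (D : DSeq cs L v c z ξ)
    (m : ℕ) (hneg : ξ (-1) ≤ 0) (hpos : ∀ j : ℕ, j ≤ 2 * m + 2 → 0 ≤ ξ (j : ℤ))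
    (Gp : GG cs L (z (-1)) (-ξ (-1))) :
    (∀ j : ℕ, j ≤ 2 * m + 2 → 0 ≤ Sn c j) ∧ (∀ j : ℕ, 1 ≤ j → j ≤ 2 * m + 2 → 0 < Sn c j) := by
  have hpos0 : 0 ≤ ξ 0 := by simpa using hpos 0 (by omega)
  have hpos1 : 0 ≤ ξ 1 := by simpa using hpos 1 (by omega)
  have hpos2 : 0 ≤ ξ 2 := by simpa using hpos 2 (by omega)
  have hc : 0 ≤ c := D.c_nonneg hpos0 hpos1 hpos2
  obtain ⟨hS1, hS2⟩ := D.Spos hc hneg Gp (2 * m + 2) hpos
  have hS' : ∀ j : ℕ, 1 ≤ j → j ≤ 2 * m + 2 → 0 < Sn c j := by
    intro j h1 h2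
    obtain ⟨i, rfl⟩ : ∃ i, j = i + 1 := ⟨j - 1, by omega⟩
    exact hS2 i (by omega)
  refine ⟨?_, hS'⟩
  intro j h2
  rcases Nat.eq_zero_or_pos j with rfl | h1
  · simp
  · exact (hS' j h1 h2).le

/-- the rank two case, left end -/
lemma rank_two_left {L : Bil B} {v : W} {c : ℝ} {z : ℤ → W} {ξ : ℤ → B → ℝ}
    (D : DSeq cs L v c z ξ) (hv : cs.length v ≤ 2) (m : ℕ)
    (hpos : ∀ j : ℤ, -((m : ℤ) + 1) ≤ j → j ≤ (m : ℤ) + 1 → 0 ≤ ξ j)
    (hneg : ξ (-((m : ℤ) + 2)) ≤ 0) :
    EE cs L (z 0) (ξ 0) (L (ξ 1)) ∧ EE cs L (z 0) (ξ 0) (-(L.flip (ξ (-1)))) := by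
  have D' := D.shift (-((m : ℤ) + 1))
  have e0 : ((m + 1 : ℕ) : ℤ) + -((m : ℤ) + 1) = 0 := by push_cast; ring
  have hneg' : ξ (-1 + -((m : ℤ) + 1)) ≤ 0 := by
    have e : (-1 : ℤ) + -((m : ℤ) + 1) = -((m : ℤ) + 2) := by ring
    rw [e]; exact hneg
  have hpos' : ∀ j : ℕ, j ≤ 2 * m + 2 → 0 ≤ ξ ((j : ℤ) + -((m : ℤ) + 1)) := by
    intro j hj; apply hpos <;> omega
  have h0 : 0 ≤ ξ (0 + -((m : ℤ) + 1)) := by simpa using hpos' 0 (by omega)
  have h1 : 0 ≤ ξ (1 + -((m : ℤ) + 1)) := by simpa using hpos' 1 (by omega)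
  have h2 : 0 ≤ ξ (2 + -((m : ℤ) + 1)) := by simpa using hpos' 2 (by omega)
  have hc := D'.c_nonneg h0 h1 h2
  have lp := D'.len_p hneg' h0 hc
  have lq := (D'.len_succ 0 hneg' h0 (hpos' 1 (by omega)) (hpos' 2 (by omega))).1
  rw [zero_add, pow_one, cs.length_inv] at lq
  have sp : ∃ p, z (-1 + -((m : ℤ) + 1)) = cs.simple p := by
    apply cs.length_eq_one_iff.mp
    obtain ⟨k, hk⟩ := (D'.refl (-1)).odd_length
    beta_reduce at lp hk
    omega
  have sq : ∃ q, z (0 + -((m : ℤ) + 1)) = cs.simple q := by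
    apply cs.length_eq_one_iff.mp
    obtain ⟨k, hk⟩ := (D'.refl 0).odd_length
    beta_reduce at lq hk
    simp only [Nat.cast_zero] at lq
    omega
  obtain ⟨p, hp⟩ := sp
  obtain ⟨q, hq⟩ := sq
  have Gp : GG cs L (z (-1 + -((m : ℤ) + 1))) (-ξ (-1 + -((m : ℤ) + 1))) := by
    intro β hβ hz hne
    exfalso
    apply hne
    rw [← D'.rt_of_neg hneg']
    beta_reduce
    rw [hp] at hz ⊢
    rw [rt_simple]; exact hβ.eq_ee hz
  obtain ⟨hS, hS'⟩ := Spos_all D' m hneg' hpos' Gp
  have hk : 2 * (m + 1) = 2 * m + 2 := by ring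
  have h := D'.rank_two (m + 1) hneg' (by rw [hk]; exact hpos') (by rw [hk]; exact hS)
    (by rw [hk]; exact hS') hp hq
  beta_reduce at h
  have e1 : ((m + 1 : ℕ) : ℤ) + 1 + -((m : ℤ) + 1) = 1 := by push_cast; ring
  have e2 : ((m + 1 : ℕ) : ℤ) - 1 + -((m : ℤ) + 1) = -1 := by push_cast; ring
  rw [e0, e1, e2] at h
  exact h

lemma rank_two_all {L : Bil B} {v : W} {c : ℝ} {z : ℤ → W} {ξ : ℤ → B → ℝ}
    (D : DSeq cs L v c z ξ) (hv : cs.length v ≤ 2) (h0 : 0 ≤ ξ 0) (h1 : 0 ≤ ξ 1)
    (hm1 : 0 ≤ ξ (-1)) (G0 : GG cs L (z 0) (ξ 0)) :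
    EE cs L (z 0) (ξ 0) (L (ξ 1)) := by
  obtain ⟨m, hpos, hend | hend⟩ := D.near_end h0 h1 hm1
  · exact (rank_two_left D hv m hpos hend).1
  · have h := (rank_two_left D.rev (by rw [cs.length_inv]; exact hv) m (by
      intro j hj1 hj2
      apply hpos <;> omega) (by
      have e : -(-((m : ℤ) + 2)) = (m : ℤ) + 2 := by ring
      rw [e]; exact hend)).2
    simp only [neg_zero, neg_neg, LinearMap.flip_flip] at h
    have h4 := EE.of_flip D.sym (D.act 0) h0 G0 h
    rw [neg_neg] at h4
    exact h4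

theorem signE (n : ℕ) : ∀ (N : ℕ) (L : Bil B) (l : List B), l.length = n → Adapted M L l →
    ∀ (t : W) (g : List W), Fac cs l (t :: g) → cs.length t = N → PP cs L l t := by
  induction n using Nat.strong_induction_on with
  | _ n ihn =>
  intro N
  induction N using Nat.strong_induction_on with
  | _ N ihN =>
  intro L l hln hL t g hfac hN
  have ht : cs.IsReflection t := hfac.1 t (by simp)
  have ihN' : ∀ (L : Bil B) (l' : List B), l'.length = l.length → Adapted M L l' → ∀ t g,
      Fac cs l' (t :: g) → cs.length t < N → PP cs L l' t := by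
    intro L' l' h1 h2 t' g' h3 h4
    exact ihN (cs.length t') h4 L' l' (by rw [h1, hln]) h2 t' g' h3 rfl
  by_cases hs : cs.length t ≤ 1
  · constructor
    · intro β hβ hz hne; exact absurd (simple_vac ht hs hβ hz) hne
    · intro r g' _ β hβ hz hne; exact absurd (simple_vac ht hs hβ hz) hne
  push Not at hs
  -- the planar lemma for a partner in the inversion set
  have planar : ∀ t1 g1, Fac cs l (t :: t1 :: g1) → geo cs t (rt cs t1) ≤ 0 →
      GG cs L t (rt cs t) ∧ ∀ r g1', g1 = g1' ++ [r] → EE cs L t (rt cs t) (L (rt cs r)) := by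
    intro t1 g1 h1 hneg
    have ht1 : cs.IsReflection t1 := h1.1 t1 (by simp)
    have D := h1.dseq hL (rt_isRt ht) (rt_isRt ht1) (geo_refl ht) (geo_refl ht1)
    obtain ⟨p0, p1, pm1⟩ := partner_mid ht ht1 hL h1 hneg
    have hih := ih_seq hL N h1 ihN'
    rw [← hN] at hih
    have hz0 : (t * t1) ^ (-(0 : ℤ)) * t = t := zzero
    have hmid := D.middle p0 p1 pm1 (by beta_reduce; rw [hz0]; exact hih)
    beta_reduce at hmid
    rw [hz0, xiSeq_zero] at hmid
    refine ⟨hmid.1, ?_⟩
    rintro r g1' rfl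
    apply hmid.2
    · intro j
      have f1 := h1.dihedral j
      have ho := f1.orth hL
      unfold Orth at ho
      have h5 := (List.pairwise_cons.mp ho).1 r (by simp)
      rcases pm_root (D.refl j) (D.root j) (D.act j) with ⟨_, h6⟩ | ⟨_, h6⟩
      · rw [h6]; exact h5
      · rw [h6, map_neg]; simp only [h5, neg_zero]
    · intro j hj
      have f1 := h1.dihedral j
      obtain ⟨g', f2⟩ := Fac.move_second (A := ((t * t1) ^ (-(j + 1)) * t) :: g1') (C := []) f1
      rw [hN] at hj
      exact (ihN' L l rfl hL _ _ f1 hj).2 r g' f2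
  obtain ⟨t1, g1, hp1, hp2, hp3⟩ := exists_partner hL.nodup hfac hs
  have hG := (planar t1 g1 hp1 hp3).1
  refine ⟨hG, ?_⟩
  -- functional statements by induction on the length of the partner
  intro r
  induction hR : cs.length r using Nat.strong_induction_on generalizing r with
  | _ R ihR =>
  intro g' hfr
  have hr : cs.IsReflection r := hfr.1 r (by simp)
  have hlast := hfr.to_last
  set gg := g'.map (fun a => r * a * r⁻¹) with hgg
  set w := cs.wordProd l with hw
  have hsupp := hfr.supp hL.nodup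
  by_cases hwr : cs.length (w * r) < cs.length w
  · -- `r` is an inversion of the Coxeter element
    have hneg : geo cs w (rt cs r) ≤ 0 := (length_gt_iff hr).mp hwr
    obtain ⟨ω₁, i, ω₂, hl, hv⟩ := word_split l (rt_PR hr) hneg
    have hκ : ∀ y : B → ℝ, (∀ j, j ∉ l → y j = 0) → L (rt cs r) y = y i := by
      intro y hy
      rw [hl] at hL hy
      exact kappa hL hv hy
    have hτi : rt cs t i = 0 := by
      rw [← hκ _ (fun j hj => hsupp t (by simp) j hj)]
      exact hfr.pair_orth hL
    have hzero : ∀ β, PR cs β → geo cs t β ≤ 0 → L (rt cs r) β = 0 := by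
      intro β hβ hz
      rw [hκ β (fun j hj => supp_inv ht (hsupp t (by simp) j hj) hβ hz)]
      exact supp_inv ht hτi hβ hz
    intro β hβ hz _
    rw [hzero β hβ hz]
    exact ⟨fun _ => le_rfl, fun _ => le_rfl⟩
  -- now `r` is not an inversion
  by_cases hg0 : g' = []
  · -- rank two
    subst hg0
    have hlen2 : l.length = 2 := by
      have := hfr.2.2
      simpa using this.symm
    have hg1 : g1 = [] := by
      have := hp1.2.2
      simp only [List.length_cons] at this
      exact List.length_eq_zero_iff.mp (by omega)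
    subst hg1
    have ht1r : t1 = r := by
      have e1 := hp1.2.1
      have e2 := hfr.2.1
      rw [← e1] at e2
      simp only [List.prod_cons, List.prod_nil, mul_one] at e2
      exact (mul_left_cancel e2).symm
    subst ht1r
    have D := hp1.dseq hL (rt_isRt ht) (rt_isRt hr) (geo_refl ht) (geo_refl hr)
    obtain ⟨p0, p1, pm1⟩ := partner_mid ht hr hL hp1 hp3
    have hv2 : cs.length (t * t1) ≤ 2 := by
      have e1 := hp1.2.1
      simp only [List.prod_cons, List.prod_nil, mul_one] at e1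
      rw [e1]
      have := cs.length_wordProd_le l
      omega
    have hz0 : (t * t1) ^ (-(0 : ℤ)) * t = t := zzero
    have h5 := rank_two_all D hv2 p0 p1 pm1 (by
      beta_reduce; rw [hz0, xiSeq_zero]; exact hG)
    beta_reduce at h5
    rw [hz0, xiSeq_zero, xiSeq_one] at h5
    exact h5
  rcases valley t gg (fun u hu => hlast.1 u (by
      simp only [List.mem_cons, List.mem_append]; tauto)) with ⟨f, hH, hnp⟩ | ⟨a, u, b, hH⟩
  swap
  · exfalso
    have h5 : Hur (t :: (gg ++ [r])) ((t :: a) ++ u :: u :: (b ++ [r])) := by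
      have := (hH.right [r]).cons t
      simpa using this
    exact hlast.no_square hL.nodup h5
  have hlast2 : Fac cs l (t :: (f ++ [r])) := hlast.hur ((hH.right [r]).cons t)
  have hfne : f ≠ [] := by
    rintro rfl
    have h5 := hH.length
    simp only [List.length_nil] at h5
    have h6 : gg = [] := List.length_eq_zero_iff.mp h5
    rw [hgg] at h6
    exact hg0 (List.map_eq_nil_iff.mp h6)
  have hfprod : t * f.prod = w * r := by
    have := hlast2.2.1
    simp only [List.prod_cons, List.prod_append, List.prod_nil, mul_one] at this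
    rw [hw, ← this]
    simp only [mul_assoc]
    rw [hr.mul_self, mul_one]
  -- first step down: planar lemma
  by_cases hdown : ∃ t2 f2, f = t2 :: f2 ∧ geo cs t (rt cs t2) ≤ 0
  · obtain ⟨t2, f2, rfl, hneg⟩ := hdown
    exact (planar t2 (f2 ++ [r]) hlast2 hneg).2 r f2 rfl
  have hup : upp cs t f := by
    match f, hfne, hnp, hdown, hlast2 with
    | t2 :: f2, _, hnp, hdown, hlast2 =>
      have ht2 : cs.IsReflection t2 := hlast2.1 t2 (by simp)
      apply nopeak_up f2 t t2 (fun u hu => hlast2.1 u (by simp [hu])) hnp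
      rw [length_lt_iff ht2]
      by_contra hcon
      exact hdown ⟨t2, f2, rfl, ((rt_isRt ht2).geo t).not_nonneg.mp hcon⟩
  rcases List.eq_nil_or_concat f with rfl | ⟨f2, r1, rfl⟩
  · exact absurd rfl hfne
  rw [List.concat_eq_append] at *
  have hr1 : cs.IsReflection r1 := hlast2.1 r1 (by simp)
  have hlu := upp_last f2 t r1 hup
  have hwr1 : geo cs (w * r) (rt cs r1) ≤ 0 := by
    rw [← length_gt_iff hr1]
    have e1 : t * f2.prod * r1 = w * r := by
      rw [← hfprod]; simp [mul_assoc]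
    have e2 : w * r * r1 = t * f2.prod := by
      rw [← e1, mul_assoc, hr1.mul_self, mul_one]
    rw [e2, ← e1]; exact hlu
  have hfac3 : Fac cs l (t :: (f2 ++ r1 :: r :: [])) := by
    have : (f2 ++ [r1]) ++ [r] = f2 ++ r1 :: r :: [] := by simp
    rw [← this]; exact hlast2
  have hr1r : r1 ≠ r := by
    rintro rfl
    exact hfac3.no_square hL.nodup (a := t :: f2) (b := []) (Hur.refl _)
  rcases ((rt_isRt hr1).geo r).cases with hη | hη
  · -- the conjugate partner is an inversion of the Coxeter element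
    set y1 := r * r1 * r⁻¹ with hy1
    have hy1r : cs.IsReflection y1 := hr1.conj r
    have hrt : rt cs y1 = geo cs r (rt cs r1) := rt_conj_pos hr1 r hη
    have hneg : geo cs w (rt cs y1) ≤ 0 := by rw [hrt, geo_geo]; exact hwr1
    obtain ⟨ω₁, i, ω₂, hl, hv⟩ := word_split l (rt_PR hy1r) hneg
    have herase := (wordProd_erase (ω₁ := ω₁) hy1r hv).2
    have hfac4 : Fac cs (ω₁ ++ ω₂) (t :: (f2 ++ r :: [])) := by
      refine ⟨?_, ?_, ?_⟩
      · intro x hx
        apply hfac3.1
        simp only [List.mem_cons, List.mem_append] at hx ⊢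
        tauto
      · rw [← herase, ← hl, ← hfac3.2.1, hy1]
        simp only [List.prod_cons, List.prod_append, List.prod_nil, mul_one, hr.inv]
        have : r * (r * r1 * r) = r1 * r := by
          rw [← mul_assoc, ← mul_assoc, hr.mul_self, one_mul]
        simp only [mul_assoc] at this ⊢
        rw [this, ← mul_assoc r1 r1, hr1.mul_self, one_mul]
      · have h5 := hfac3.2.2
        rw [hl] at h5
        simp only [List.length_cons, List.length_append, List.length_nil] at h5 ⊢
        omega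
    obtain ⟨g5, hfac5⟩ := hfac4.move_second
    have hlen : (ω₁ ++ ω₂).length < n := by
      rw [← hln, hl]; simp
    have hL' : Adapted M L (ω₁ ++ ω₂) := by
      rw [hl] at hL
      exact hL.sublist (by simp)
    exact (ihn (ω₁ ++ ω₂).length hlen _ L (ω₁ ++ ω₂) rfl hL' t _ hfac4 rfl).2 r g5 hfac5
  · -- `r` is a combination of shorter partners
    obtain ⟨i, j, x, y, hx, hy, hcomb, hli, hlj⟩ := canon hr hr1 hr1r hη
    have part : ∀ k : ℤ, ∃ g6, Fac cs l (t :: ((r1 * r) ^ k * r1) :: g6) := by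
      intro k
      have h5 : Fac cs l (t :: (f2 ++ ((r1 * r) ^ k * r1) :: [((r1 * r) ^ (k - 1) * r1)])) := by
        apply hfac3.hur
        have := (hur_pair hr1.mul_self hr.mul_self k).append (t :: f2) []
        simpa using this
      exact h5.move_second
    obtain ⟨gi, hi⟩ := part i
    obtain ⟨gj, hj⟩ := part j
    have Ei := ihR _ (by rw [← hR]; exact hli) _ rfl gi hi
    have Ej := ihR _ (by rw [← hR]; exact hlj) _ rfl gj hj
    intro β hβ hz hne
    have ei := Ei β hβ hz hne
    have ej := Ej β hβ hz hne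
    rw [hcomb, map_add, map_smul, map_smul, LinearMap.add_apply, LinearMap.smul_apply,
      LinearMap.smul_apply, smul_eq_mul, smul_eq_mul]
    constructor
    · intro h
      exact add_nonneg (mul_nonneg hx (ei.1 h)) (mul_nonneg hy (ej.1 h))
    · intro h
      have a1 := mul_nonpos_of_nonneg_of_nonpos hx (ei.2 h)
      have a2 := mul_nonpos_of_nonneg_of_nonpos hy (ej.2 h)
      linarith

end Pool.Agent.TH107
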